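import Mathlib

/-!
A width parameter (module-width) that is convenient for structural arguments.
-/

namespace Pool.Agent.Lib.MP_042ec1_co

open Finset

variable {V : Type} [DecidableEq V]

/-- The vertices of `S` fall into at most `k` types with respect to `W \ S`. -/
def Types (G : SimpleGraph V) (W S : Finset V) (k : ℕ) : Prop :=
  ∃ (P : Type) (_ : Fintype P) (c : V → P), Fintype.card P ≤ k ∧
    ∀ x ∈ S, ∀ y ∈ S, c x = c y → ∀ z ∈ W, z ∉ S → (G.Adj x z ↔ G.Adj y z)

/-- `S` has a binary decomposition all of whose nodes have at most `k` types. -/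
inductive Dec (G : SimpleGraph V) (W : Finset V) (k : ℕ) : Finset V → Prop
  | empty : Dec G W k ∅
  | single (x : V) : Dec G W k {x}
  | union (S T : Finset V) : Disjoint S T → Dec G W k S → Dec G W k T → Types G W (S ∪ T) k →
      Dec G W k (S ∪ T)

/-- The graph induced on `W` has width at most `k`. -/
def Wd (G : SimpleGraph V) (W : Finset V) (k : ℕ) : Prop := Dec G W k W

variable {G G' : SimpleGraph V} {W W' S : Finset V} {k k' : ℕ}

omit [DecidableEq V] in
theorem Types.mono (h : Types G W S k) (hk : k ≤ k') : Types G W S k' := by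
  obtain ⟨P, _, c, h1, h2⟩ := h
  exact ⟨P, inferInstance, c, h1.trans hk, h2⟩

theorem Dec.mono (h : Dec G W k S) (hk : k ≤ k') : Dec G W k' S := by
  induction h with
  | empty => exact .empty
  | single x => exact .single x
  | union S T hd _ _ ht ihS ihT => exact .union S T hd ihS ihT (ht.mono hk)

theorem Wd.mono (h : Wd G W k) (hk : k ≤ k') : Wd G W k' := Dec.mono h hk

omit [DecidableEq V] in
theorem types_self (hk : 1 ≤ k) : Types G W W k :=
  ⟨Unit, inferInstance, fun _ => (), by simpa using hk, fun _ _ _ _ _ _ hz hz' => (hz' hz).elim⟩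

theorem dec_of_card_le_one (h : S.card ≤ 1) : Dec G W k S := by
  rcases S.eq_empty_or_nonempty with rfl | ⟨x, hx⟩
  · exact .empty
  · have : S = {x} := eq_singleton_iff_unique_mem.2 ⟨hx, fun y hy => card_le_one.1 h y hy x hx⟩
    rw [this]
    exact .single x

theorem Dec.transfer {P : Type} [Fintype P] (h : Dec G W k S) (c : V → P)
    (h1 : ∀ x ∈ S, ∀ y ∈ S, c x = c y → ∀ z ∈ W', z ∈ W → (G.Adj x z ↔ G.Adj y z) →
      (G'.Adj x z ↔ G'.Adj y z))
    (h2 : ∀ x ∈ S, ∀ y ∈ S, c x = c y → ∀ z ∈ W', z ∉ W → (G'.Adj x z ↔ G'.Adj y z)) :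
    Dec G' W' (k * Fintype.card P) S := by
  induction h with
  | empty => exact .empty
  | single x => exact .single x
  | union S T hd _ _ ht ihS ihT =>
    refine .union S T hd
      (ihS (fun x hx y hy => h1 x (mem_union_left _ hx) y (mem_union_left _ hy))
        (fun x hx y hy => h2 x (mem_union_left _ hx) y (mem_union_left _ hy)))
      (ihT (fun x hx y hy => h1 x (mem_union_right _ hx) y (mem_union_right _ hy))
        (fun x hx y hy => h2 x (mem_union_right _ hx) y (mem_union_right _ hy))) ?_
    obtain ⟨Q, _, d, hQ, hd'⟩ := ht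
    refine ⟨Q × P, inferInstance, fun x => (d x, c x), ?_, ?_⟩
    · rw [Fintype.card_prod]
      exact Nat.mul_le_mul_right _ hQ
    · intro x hx y hy hxy z hz hzS
      rw [Prod.mk.injEq] at hxy
      by_cases hzW : z ∈ W
      · exact h1 x hx y hy hxy.2 z hz hzW (hd' x hx y hy hxy.1 z hzW hzS)
      · exact h2 x hx y hy hxy.2 z hz hzW

theorem wd_rank {P : Type} [Fintype P] (hk : 1 ≤ k) (c : V → P) (ρ : V → ℕ)
    (H : ∀ x ∈ W, ∀ y ∈ W, ∀ z ∈ W, c x = c y →
      (ρ x < ρ z ∧ ρ y < ρ z) ∨ (ρ z < ρ x ∧ ρ z < ρ y) → (G.Adj x z ↔ G.Adj y z))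
    (hl : ∀ r, Wd G (W.filter fun x => ρ x = r) k) : Wd G W (k * Fintype.card P) := by
  have key : ∀ j, Dec G W (k * Fintype.card P) (W.filter fun x => ρ x < j) := by
    intro j
    induction j with
    | zero => simpa using Dec.empty
    | succ j ih =>
      have e : (W.filter fun x => ρ x < j + 1) =
          (W.filter fun x => ρ x < j) ∪ W.filter fun x => ρ x = j := by
        ext x
        simp only [mem_filter, mem_union]
        constructor
        · rintro ⟨h1, h2⟩
          rcases Nat.lt_succ_iff_lt_or_eq.1 h2 with h | h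
          · exact Or.inl ⟨h1, h⟩
          · exact Or.inr ⟨h1, h⟩
        · rintro (⟨h1, h2⟩ | ⟨h1, h2⟩)
          · exact ⟨h1, by omega⟩
          · exact ⟨h1, by omega⟩
      rw [e]
      refine .union _ _ ?_ ih ?_ ?_
      · rw [disjoint_left]
        intro x hx hx'
        have := (mem_filter.1 hx).2
        have := (mem_filter.1 hx').2
        omega
      · refine Dec.transfer (hl j) c (fun _ _ _ _ _ _ _ _ h => h) ?_
        intro x hx y hy hxy z hz hzl
        rw [mem_filter] at hx hy hzl
        apply H x hx.1 y hy.1 z hz hxy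
        have : ρ z ≠ j := fun h => hzl ⟨hz, h⟩
        omega
      · refine ⟨P, inferInstance, c, Nat.le_mul_of_pos_left _ hk, ?_⟩
        rw [← e]
        intro x hx y hy hxy z hz hzl
        rw [mem_filter] at hx hy hzl
        apply H x hx.1 y hy.1 z hz hxy
        have : ¬ ρ z < j + 1 := fun h => hzl ⟨hz, h⟩
        omega
  have := key (W.sup ρ + 1)
  rwa [filter_true_of_mem fun x hx => Nat.lt_succ_of_le (le_sup hx)] at this

theorem wd_group {P Γ : Type} [Fintype P] [Countable Γ] [DecidableEq Γ] (hk : 1 ≤ k) (c : V → P)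
    (g : V → Γ)
    (H : ∀ x ∈ W, ∀ y ∈ W, ∀ z ∈ W, c x = c y → g x ≠ g z → g y ≠ g z → (G.Adj x z ↔ G.Adj y z))
    (hl : ∀ γ, Wd G (W.filter fun x => g x = γ) k) : Wd G W (k * Fintype.card P) := by
  obtain ⟨e, he⟩ := exists_injective_nat Γ
  refine wd_rank hk c (fun x => e (g x)) ?_ ?_
  · intro x hx y hy z hz hxy h
    apply H x hx y hy z hz hxy
    · intro h'
      simp only [h'] at h
      omega
    · intro h'
      simp only [h'] at h
      omega
  · intro r
    by_cases hr : ∃ γ, e γ = r
    · obtain ⟨γ, rfl⟩ := hr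
      simp only [he.eq_iff]
      exact hl γ
    · rw [filter_false_of_mem fun x _ h => hr ⟨g x, h⟩]
      exact Dec.empty

theorem wd_indep [Fintype V] (h : ∀ x ∈ W, ∀ y ∈ W, ¬ G.Adj x y) : Wd G W 1 := by
  have := wd_group (G := G) (W := W) le_rfl (fun _ => ()) id
    (fun x hx y hy z hz _ _ _ => iff_of_false (h x hx z hz) (h y hy z hz))
    (fun γ => dec_of_card_le_one (card_le_one.2 fun a ha b hb =>
      (mem_filter.1 ha).2.trans (mem_filter.1 hb).2.symm))
  simpa using this

theorem wd_union {B C : Finset V} (hk : 1 ≤ k) (hd : Disjoint B C)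
    (h : ∀ x ∈ B, ∀ y ∈ C, ¬ G.Adj x y) (hB : Wd G B k) (hC : Wd G C k) : Wd G (B ∪ C) k := by
  refine Dec.union B C hd ?_ ?_ (types_self hk)
  · have := Dec.transfer (G' := G) (W' := B ∪ C) hB (fun _ => ()) (fun _ _ _ _ _ _ _ _ h => h)
      (fun x hx y hy _ z hz hzB => by
        have hzC : z ∈ C := (mem_union.1 hz).resolve_left hzB
        exact iff_of_false (h x hx z hzC) (h y hy z hzC))
    simpa using this
  · have := Dec.transfer (G' := G) (W' := B ∪ C) hC (fun _ => ()) (fun _ _ _ _ _ _ _ _ h => h)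
      (fun x hx y hy _ z hz hzC => by
        have hzB : z ∈ B := (mem_union.1 hz).resolve_right hzC
        exact iff_of_false (fun h' => h z hzB x hx h'.symm) (fun h' => h z hzB y hy h'.symm))
    simpa using this

theorem wd_erase (hk : 1 ≤ k) (v : V) (h : Wd G (W.erase v) k) : Wd G W (2 * k) := by
  classical
  by_cases hv : v ∈ W
  · have h1 := Dec.transfer (G' := G) (W' := W) h (fun x => decide (G.Adj x v))
      (fun _ _ _ _ _ _ _ _ h => h)
      (fun x _ y _ hxy z hz hzW => by
        have : z = v := by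
          by_contra hne
          exact hzW (mem_erase.2 ⟨hne, hz⟩)
        subst this
        simpa using hxy)
    rw [Fintype.card_bool, mul_comm] at h1
    have e : W.erase v ∪ {v} = W := by
      rw [union_comm, ← insert_eq, insert_erase hv]
    have := Dec.union _ _ (by simp) h1 (Dec.single v) (by rw [e]; exact types_self (by omega))
    rwa [e] at this
  · rw [erase_eq_of_notMem hv] at h
    exact h.mono (by omega)

theorem wd_sdiff (hk : 1 ≤ k) (R : Finset V) (h : Wd G (W \ R) k) : Wd G W (2 ^ R.card * k) := by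
  induction R using Finset.induction_on generalizing k with
  | empty => simpa using h
  | insert v R hv ih =>
    rw [sdiff_insert] at h
    have := ih (by omega) (wd_erase hk v h)
    rw [card_insert_of_notMem hv, pow_succ, mul_assoc]
    exact this

theorem wd_deg_two (hdeg : ∀ v ∈ W, ∀ a ∈ W, ∀ b ∈ W, ∀ c ∈ W, G.Adj v a → G.Adj v b →
    G.Adj v c → a = b ∨ a = c ∨ b = c) : Wd G W 3 := by
  classical
  let E : Finset V → Finset (V × V) := fun S => (S ×ˢ (W \ S)).filter fun p => G.Adj p.1 p.2
  have hN : ∀ v ∈ W, (W.filter (G.Adj v)).card ≤ 2 := by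
    intro v hv
    by_contra hlt
    obtain ⟨a, ha, b, hb, c, hc, hab, hac, hbc⟩ := two_lt_card.1 (not_le.1 hlt)
    rw [mem_filter] at ha hb hc
    rcases hdeg v hv a ha.1 b hb.1 c hc.1 ha.2 hb.2 hc.2 with h | h | h
    · exact hab h
    · exact hac h
    · exact hbc h
  have htypes : ∀ S, (E S).card ≤ 2 → Types G W S 3 := by
    intro S hS
    refine ⟨Option ((E S).image Prod.fst), inferInstance,
      fun x => if h : x ∈ (E S).image Prod.fst then some ⟨x, h⟩ else none, ?_, ?_⟩
    · rw [Fintype.card_option, Fintype.card_coe]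
      have := card_image_le (s := E S) (f := Prod.fst)
      omega
    · intro x hx y hy hxy z hz hzS
      have hmem : ∀ u ∈ S, G.Adj u z → u ∈ (E S).image Prod.fst := fun u hu h =>
        mem_image.2 ⟨(u, z), mem_filter.2 ⟨mem_product.2 ⟨hu, mem_sdiff.2 ⟨hz, hzS⟩⟩, h⟩, rfl⟩
      by_cases h1 : x ∈ (E S).image Prod.fst <;> by_cases h2 : y ∈ (E S).image Prod.fst
      · simp only [dif_pos h1, dif_pos h2, Option.some.injEq, Subtype.mk.injEq] at hxy
        rw [hxy]
      · simp only [dif_pos h1, dif_neg h2, reduceCtorEq] at hxy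
      · simp only [dif_neg h1, dif_pos h2, reduceCtorEq] at hxy
      · exact iff_of_false (fun h => h1 (hmem x hx h)) (fun h => h2 (hmem y hy h))
  have key : ∀ n, ∀ S, S ⊆ W → (W \ S).card = n → Dec G W 3 S → (E S).card ≤ 2 → Wd G W 3 := by
    intro n
    induction n with
    | zero =>
      intro S hS hn hD _
      have : S = W := Subset.antisymm hS (sdiff_eq_empty_iff_subset.1 (card_eq_zero.1 hn))
      rwa [this] at hD
    | succ n ih =>
      intro S hS hn hD hE
      have hex : ∃ v ∈ W \ S, (E (S ∪ {v})).card ≤ 2 := by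
        have hsub : ∀ v, ∀ p ∈ E (S ∪ {v}),
            (p ∈ E S ∧ p.2 ≠ v) ∨ (p.1 = v ∧ p.2 ∈ W.filter (G.Adj v) ∧ p.2 ∉ S) := by
          intro v p hp
          simp only [E, mem_filter, mem_product, mem_union, mem_singleton, mem_sdiff,
            not_or] at hp ⊢
          obtain ⟨⟨h1 | h1, h2, h3, h4⟩, h5⟩ := hp
          · exact Or.inl ⟨⟨⟨h1, h2, h3⟩, h5⟩, h4⟩
          · exact Or.inr ⟨h1, ⟨h2, h1 ▸ h5⟩, h3⟩
        rcases (E S).eq_empty_or_nonempty with h0 | ⟨⟨s, v⟩, hsv⟩
        · obtain ⟨v, hv⟩ := card_pos.1 (show 0 < (W \ S).card by omega)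
          refine ⟨v, hv, ?_⟩
          have : E (S ∪ {v}) ⊆ (W.filter (G.Adj v)).image fun z => (v, z) := by
            intro p hp
            rcases hsub v p hp with ⟨h, -⟩ | ⟨h1, h2, -⟩
            · simp [h0] at h
            · exact mem_image.2 ⟨p.2, h2, by rw [← h1]⟩
          exact (card_le_card this).trans (card_image_le.trans (hN v (mem_sdiff.1 hv).1))
        · have hsv' := hsv
          simp only [E, mem_filter, mem_product] at hsv'
          obtain ⟨⟨hs, hv⟩, hadj⟩ := hsv'
          refine ⟨v, hv, ?_⟩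
          have : E (S ∪ {v}) ⊆ (E S).erase (s, v) ∪
              ((W.filter (G.Adj v)).erase s).image fun z => (v, z) := by
            intro p hp
            rcases hsub v p hp with ⟨h, h'⟩ | ⟨h1, h2, h3⟩
            · exact mem_union_left _ (mem_erase.2 ⟨fun e => h' (by rw [e]), h⟩)
            · exact mem_union_right _ (mem_image.2
                ⟨p.2, mem_erase.2 ⟨fun e => h3 (e ▸ hs), h2⟩, by rw [← h1]⟩)
          have h1 := (card_le_card this).trans (card_union_le _ _)
          have h2 := card_erase_of_mem hsv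
          have h3 := card_erase_of_mem (show s ∈ W.filter (G.Adj v) from
            mem_filter.2 ⟨hS hs, hadj.symm⟩)
          have h4 := card_image_le (s := (W.filter (G.Adj v)).erase s) (f := fun z => (v, z))
          have h5 := hN v (mem_sdiff.1 hv).1
          omega
      obtain ⟨v, hv, hE'⟩ := hex
      have hv' := mem_sdiff.1 hv
      refine ih (S ∪ {v}) (union_subset hS (singleton_subset_iff.2 hv'.1)) ?_
        (.union _ _ (by simpa using hv'.2) hD (.single v) (htypes _ hE')) hE'
      have : W \ (S ∪ {v}) = (W \ S).erase v := by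
        ext x
        simp only [mem_sdiff, mem_union, mem_singleton, mem_erase]
        tauto
      rw [this, card_erase_of_mem hv]
      omega
  exact key _ ∅ (empty_subset _) rfl .empty (by simp [E])

end Pool.Agent.Lib.MP_042ec1_co
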