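import Mathlib
import Pool.Agent.Lib.MP_042ec1_co.Width

/-!
Two structural lemmas: bipartite graphs with nested neighbourhoods, and three-partite graphs
without rainbow triangles and rainbow independent triples.
-/

namespace Pool.Agent.Lib.MP_042ec1_co

open Finset

variable {V : Type} [DecidableEq V] [Fintype V] {G : SimpleGraph V} {W : Finset V} {k : ℕ}

/-- One level: the neighbourhoods of the `X`-vertices differ from `A` by at most one swap. -/
theorem wd_level (pX : V → Prop) (A R : Finset V) (hR : R.card ≤ 2)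
    (hXX : ∀ x ∈ W, ∀ y ∈ W, pX x → pX y → ¬ G.Adj x y)
    (hYY : ∀ x ∈ W, ∀ y ∈ W, ¬ pX x → ¬ pX y → ¬ G.Adj x y)
    (h : ∀ x ∈ W, pX x → ∀ y ∈ W, ∀ y' ∈ W, ¬ pX y → ¬ pX y' → y ∉ R → y' ∉ R →
      ¬ (G.Adj x y ↔ y ∈ A) → ¬ (G.Adj x y' ↔ y' ∈ A) → y = y') : Wd G W 32 := by
  classical
  have h1 : Wd G (W \ R) (2 * Fintype.card (Bool × Bool)) := by
    let g : V → V := fun x =>
      if hx : pX x ∧ ∃ y ∈ W \ R, ¬ pX y ∧ ¬ (G.Adj x y ↔ y ∈ A) then hx.2.choose else x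
    have hgY : ∀ y, ¬ pX y → g y = y := fun y hy => dif_neg fun h => hy h.1
    have hgX : ∀ x ∈ W \ R, pX x → ∀ y ∈ W \ R, ¬ pX y → g x ≠ y → (G.Adj x y ↔ y ∈ A) := by
      intro x hx hpx y hy hpy hne
      by_contra hc
      have hex : pX x ∧ ∃ y ∈ W \ R, ¬ pX y ∧ ¬ (G.Adj x y ↔ y ∈ A) := ⟨hpx, y, hy, hpy, hc⟩
      obtain ⟨h1, h2, h3⟩ := hex.2.choose_spec
      apply hne
      simp only [g, dif_pos hex]
      exact h x (mem_sdiff.1 hx).1 hpx _ (mem_sdiff.1 h1).1 y (mem_sdiff.1 hy).1 h2 hpy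
        (mem_sdiff.1 h1).2 (mem_sdiff.1 hy).2 h3 hc
    refine wd_group (by norm_num) (fun x => (decide (pX x), decide (x ∈ A))) g ?_ ?_
    · intro x hx y hy z hz hxy hxz hyz
      simp only [Prod.mk.injEq, decide_eq_decide] at hxy
      have hx' := (mem_sdiff.1 hx).1
      have hy' := (mem_sdiff.1 hy).1
      have hz' := (mem_sdiff.1 hz).1
      by_cases hpx : pX x <;> by_cases hpz : pX z
      · exact iff_of_false (hXX x hx' z hz' hpx hpz) (hXX y hy' z hz' (hxy.1.1 hpx) hpz)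
      · rw [hgY z hpz] at hxz hyz
        rw [hgX x hx hpx z hz hpz hxz, hgX y hy (hxy.1.1 hpx) z hz hpz hyz]
      · have hpy : ¬ pX y := fun h => hpx (hxy.1.2 h)
        rw [hgY x hpx] at hxz
        rw [hgY y hpy] at hyz
        rw [G.adj_comm x z, G.adj_comm y z, hgX z hz hpz x hx hpx hxz.symm,
          hgX z hz hpz y hy hpy hyz.symm, hxy.2]
      · have hpy : ¬ pX y := fun h => hpx (hxy.1.2 h)
        exact iff_of_false (hYY x hx' z hz' hpx hpz) (hYY y hy' z hz' hpy hpz)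
    · intro γ
      refine wd_erase le_rfl γ (wd_indep ?_)
      have hp : ∀ x ∈ ((W \ R).filter fun x => g x = γ).erase γ, x ∈ W ∧ pX x := by
        intro x hx
        rw [mem_erase, mem_filter] at hx
        refine ⟨(mem_sdiff.1 hx.2.1).1, ?_⟩
        by_contra hpx
        exact hx.1 ((hgY x hpx).symm.trans hx.2.2)
      intro x hx y hy
      exact hXX x (hp x hx).1 y (hp y hy).1 (hp x hx).2 (hp y hy).2
  have h2 := wd_sdiff (by simp) R h1
  refine h2.mono ?_
  have : 2 ^ R.card ≤ 2 ^ 2 := Nat.pow_le_pow_right (by norm_num) hR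
  simp only [Fintype.card_prod, Fintype.card_bool]
  omega

theorem wd_nested (pX : V → Prop)
    (hXX : ∀ x ∈ W, ∀ y ∈ W, pX x → pX y → ¬ G.Adj x y)
    (hYY : ∀ x ∈ W, ∀ y ∈ W, ¬ pX x → ¬ pX y → ¬ G.Adj x y)
    (hP : ∀ x ∈ W, ∀ x' ∈ W, ∀ a ∈ W, ∀ b ∈ W, ∀ c ∈ W, pX x → pX x' → a ≠ b →
      G.Adj x a → G.Adj x b → G.Adj x' c → ¬ G.Adj x c → ¬ G.Adj x' a → ¬ G.Adj x' b → False) :
    Wd G W 64 := by
  classical
  let N : V → Finset V := fun x => W.filter (G.Adj x)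
  have hN : ∀ x y, y ∈ N x ↔ y ∈ W ∧ G.Adj x y := fun x y => mem_filter
  have hswap : ∀ x ∈ W, ∀ x' ∈ W, pX x → pX x' → (N x' \ N x).Nonempty →
      (N x \ N x').card ≤ 1 := by
    intro x hx x' hx' hp hp' ⟨c, hc⟩
    rw [card_le_one]
    intro a ha b hb
    by_contra hab
    simp only [mem_sdiff, hN, not_and] at ha hb hc
    exact hP x hx x' hx' a ha.1.1 b hb.1.1 c hc.1.1 hp hp' hab ha.1.2 hb.1.2 hc.1.2
      (hc.2 hc.1.1) (ha.2 ha.1.1) (hb.2 hb.1.1)
  have hcard : ∀ x x', (N x \ N x').card + (N x').card = (N x' \ N x).card + (N x).card := by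
    intro x x'
    rw [card_sdiff_add_card, card_sdiff_add_card, union_comm]
  have hnest : ∀ x ∈ W, ∀ x' ∈ W, pX x → pX x' → (N x').card < (N x).card → N x' ⊆ N x := by
    intro x hx x' hx' hp hp' hlt
    rw [← sdiff_eq_empty_iff_subset]
    by_contra hne
    have hne' := nonempty_iff_ne_empty.2 hne
    have h1 := hswap x hx x' hx' hp hp' hne'
    have h2 := card_pos.2 hne'
    have h3 := hcard x x'
    omega
  have hsame : ∀ x ∈ W, ∀ x' ∈ W, pX x → pX x' → (N x').card = (N x).card →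
      (N x \ N x').card ≤ 1 := by
    intro x hx x' hx' hp hp' he
    rcases (N x' \ N x).eq_empty_or_nonempty with h | h
    · have h3 := hcard x x'
      rw [h, card_empty] at h3
      omega
    · exact hswap x hx x' hx' hp hp' h
  let D : V → Finset ℕ := fun y => (W.filter fun x => pX x ∧ G.Adj x y).image fun x => (N x).card
  let ρ : V → ℕ := fun v =>
    if pX v then (N v).card else if h : (D v).Nonempty then (D v).min' h else W.card + 1
  have hlow : ∀ x ∈ W, ∀ y ∈ W, pX x → ¬ pX y → ρ x < ρ y → ¬ G.Adj x y := by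
    intro x hx y _ hp hp' hlt hadj
    have hm : (N x).card ∈ D y := mem_image.2 ⟨x, mem_filter.2 ⟨hx, hp, hadj⟩, rfl⟩
    simp only [ρ, if_pos hp, if_neg hp'] at hlt
    have hne : (D y).Nonempty := ⟨_, hm⟩
    rw [dif_pos hne] at hlt
    exact absurd (min'_le _ _ hm) (not_le.2 hlt)
  have hhigh : ∀ x ∈ W, ∀ y ∈ W, pX x → ¬ pX y → ρ y < ρ x → G.Adj x y := by
    intro x hx y hy hp hp' hlt
    simp only [ρ, if_pos hp, if_neg hp'] at hlt
    split_ifs at hlt with h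
    · obtain ⟨x₀, hx₀, he⟩ := mem_image.1 (min'_mem _ h)
      rw [mem_filter] at hx₀
      rw [← he] at hlt
      exact ((hN x y).1 (hnest x hx x₀ hx₀.1 hp hx₀.2.1 hlt ((hN x₀ y).2 ⟨hy, hx₀.2.2⟩))).2
    · have : (N x).card ≤ W.card := card_filter_le _ _
      omega
  have := wd_rank (G := G) (W := W) (k := 32) (by norm_num) (fun x => decide (pX x)) ρ ?_ ?_
  · simpa using this
  · intro x hx y hy z hz hxy h
    simp only [decide_eq_decide] at hxy
    by_cases hpx : pX x <;> by_cases hpz : pX z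
    · exact iff_of_false (hXX x hx z hz hpx hpz) (hXX y hy z hz (hxy.1 hpx) hpz)
    · rcases h with h | h
      · exact iff_of_false (hlow x hx z hz hpx hpz h.1) (hlow y hy z hz (hxy.1 hpx) hpz h.2)
      · exact iff_of_true (hhigh x hx z hz hpx hpz h.1) (hhigh y hy z hz (hxy.1 hpx) hpz h.2)
    · have hpy : ¬ pX y := fun h => hpx (hxy.2 h)
      rw [G.adj_comm x z, G.adj_comm y z]
      rcases h with h | h
      · exact iff_of_true (hhigh z hz x hx hpz hpx h.1) (hhigh z hz y hy hpz hpy h.2)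
      · exact iff_of_false (hlow z hz x hx hpz hpx h.1) (hlow z hz y hy hpz hpy h.2)
    · have hpy : ¬ pX y := fun h => hpx (hxy.2 h)
      exact iff_of_false (hYY x hx z hz hpx hpz) (hYY y hy z hz hpy hpz)
  · intro r
    set L := W.filter fun x => ρ x = r with hL
    have hLW : ∀ x ∈ L, x ∈ W := fun x hx => (mem_filter.1 hx).1
    have hLd : ∀ x ∈ L, pX x → (N x).card = r := fun x hx hp => by
      have := (mem_filter.1 hx).2
      simpa only [ρ, if_pos hp] using this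
    have hXX' : ∀ x ∈ L, ∀ y ∈ L, pX x → pX y → ¬ G.Adj x y :=
      fun x hx y hy => hXX x (hLW x hx) y (hLW y hy)
    have hYY' : ∀ x ∈ L, ∀ y ∈ L, ¬ pX x → ¬ pX y → ¬ G.Adj x y :=
      fun x hx y hy => hYY x (hLW x hx) y (hLW y hy)
    by_cases h0 : ∃ x₀ ∈ L, pX x₀
    swap
    · refine wd_level pX ∅ ∅ (by simp) hXX' hYY' fun x hx hp => (h0 ⟨x, hx, hp⟩).elim
    obtain ⟨x₀, hx₀, hp₀⟩ := h0
    have hdiff : ∀ x ∈ L, pX x → ∀ y ∈ W, ¬ (G.Adj x y ↔ y ∈ N x₀) →
        y ∈ N x \ N x₀ ∨ y ∈ N x₀ \ N x := by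
      intro x _ _ y hy h
      simp only [mem_sdiff, hN] at h ⊢
      tauto
    by_cases h1 : ∃ x₁ ∈ L, pX x₁ ∧ N x₁ ≠ N x₀
    swap
    · refine wd_level pX (N x₀) ∅ (by simp) hXX' hYY' ?_
      intro x hx hp y hy _ _ _ _ _ _ h
      have e : N x = N x₀ := by
        by_contra hne
        exact h1 ⟨x, hx, hp, hne⟩
      have := hdiff x hx hp y (hLW y hy) h
      simp [e] at this
    obtain ⟨x₁, hx₁, hp₁, hne₁⟩ := h1
    have hs : ∀ x ∈ L, pX x → ∀ x' ∈ L, pX x' → (N x \ N x').card ≤ 1 := fun x hx hp x' hx' hp' =>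
      hsame x (hLW x hx) x' (hLW x' hx') hp hp' ((hLd x' hx' hp').trans (hLd x hx hp).symm)
    refine wd_level pX (N x₀) ((N x₁ \ N x₀) ∪ (N x₀ \ N x₁)) ?_ hXX' hYY' ?_
    · have := card_union_le (N x₁ \ N x₀) (N x₀ \ N x₁)
      have := hs x₁ hx₁ hp₁ x₀ hx₀ hp₀
      have := hs x₀ hx₀ hp₀ x₁ hx₁ hp₁
      omega
    · have hab : ∀ x ∈ L, pX x → ∀ b ∈ N x \ N x₀, ∀ a ∈ N x₀ \ N x,
          b ∉ (N x₁ \ N x₀) ∪ (N x₀ \ N x₁) → a ∉ (N x₁ \ N x₀) ∪ (N x₀ \ N x₁) → False := by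
        intro x hx hp b hb a ha hbR haR
        have hne : (N x₀ \ N x₁).Nonempty := by
          rw [nonempty_iff_ne_empty, Ne, sdiff_eq_empty_iff_subset]
          intro hsub
          exact hne₁ (eq_of_subset_of_card_le hsub
            (le_of_eq ((hLd x₁ hx₁ hp₁).trans (hLd x₀ hx₀ hp₀).symm))).symm
        obtain ⟨a₁, ha₁⟩ := hne
        have haa : a₁ ≠ a := fun e => haR (mem_union_right _ (e ▸ ha₁))
        have ha₁x : a₁ ∈ N x := by
          by_contra hc
          exact haa (card_le_one.1 (hs x₀ hx₀ hp₀ x hx hp) a₁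
            (mem_sdiff.2 ⟨(mem_sdiff.1 ha₁).1, hc⟩) a ha)
        have hb₁ : b ∉ N x₁ := fun hc =>
          hbR (mem_union_left _ (mem_sdiff.2 ⟨hc, (mem_sdiff.1 hb).2⟩))
        have := card_le_one.1 (hs x hx hp x₁ hx₁ hp₁) a₁
          (mem_sdiff.2 ⟨ha₁x, (mem_sdiff.1 ha₁).2⟩) b (mem_sdiff.2 ⟨(mem_sdiff.1 hb).1, hb₁⟩)
        exact (mem_sdiff.1 hb).2 (this ▸ (mem_sdiff.1 ha₁).1)
      intro x hx hp y hy y' hy' _ _ hyR hyR' h h'
      rcases hdiff x hx hp y (hLW y hy) h with e | e <;>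
        rcases hdiff x hx hp y' (hLW y' hy') h' with e' | e'
      · exact card_le_one.1 (hs x hx hp x₀ hx₀ hp₀) y e y' e'
      · exact (hab x hx hp y e y' e' hyR hyR').elim
      · exact (hab x hx hp y' e' y e hyR' hyR).elim
      · exact card_le_one.1 (hs x₀ hx₀ hp₀ x hx hp) y e y' e'

theorem fin3_fourth (a b c κ : Fin 3) : a ≠ b → b ≠ c → a ≠ c → c ≠ κ → a ≠ κ → κ = b := by
  omega

omit [Fintype V] in
theorem wd_tournament (hk : 1 ≤ k) (cls : V → Fin 3)
    (hind : ∀ x ∈ W, ∀ y ∈ W, cls x = cls y → ¬ G.Adj x y)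
    (hK : ∀ x ∈ W, ∀ y ∈ W, ∀ z ∈ W, G.Adj x y → G.Adj y z → G.Adj x z → False)
    (hI : ∀ x ∈ W, ∀ y ∈ W, ∀ z ∈ W, cls x = 0 → cls y = 1 → cls z = 2 →
      G.Adj x y ∨ G.Adj y z ∨ G.Adj x z)
    (hpair : ∀ W' ⊆ W, ∀ i, (∀ x ∈ W', cls x ≠ i) → Wd G W' k) : Wd G W (k * 3) := by
  classical
  let arc : V → V → Prop := fun x y => x ∈ W ∧ y ∈ W ∧
    ((cls y = cls x + 1 ∧ G.Adj x y) ∨ (cls x = cls y + 1 ∧ ¬ G.Adj x y))
  have f1 : ∀ a b : Fin 3, a ≠ b → b = a + 1 ∨ a = b + 1 := by decide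
  have f2 : ∀ a b : Fin 3, b = a + 1 → a = b + 1 → False := by decide
  have f3 : ∀ a : Fin 3, a ≠ a + 1 := by decide
  have hI' : ∀ x ∈ W, ∀ y ∈ W, ∀ z ∈ W, cls x ≠ cls y → cls y ≠ cls z → cls x ≠ cls z →
      G.Adj x y ∨ G.Adj y z ∨ G.Adj x z := by
    intro x hx y hy z hz h1 h2 h3
    have f : ∀ a b c : Fin 3, a ≠ b → b ≠ c → a ≠ c →
        (a = 0 ∧ b = 1 ∧ c = 2) ∨ (a = 0 ∧ c = 1 ∧ b = 2) ∨ (b = 0 ∧ a = 1 ∧ c = 2) ∨
        (b = 0 ∧ c = 1 ∧ a = 2) ∨ (c = 0 ∧ a = 1 ∧ b = 2) ∨ (c = 0 ∧ b = 1 ∧ a = 2) := by decide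
    have c1 := G.adj_comm x y
    have c2 := G.adj_comm y z
    have c3 := G.adj_comm x z
    rcases f _ _ _ h1 h2 h3 with h | h | h | h | h | h
    · exact hI x hx y hy z hz h.1 h.2.1 h.2.2
    · have := hI x hx z hz y hy h.1 h.2.1 h.2.2
      tauto
    · have := hI y hy x hx z hz h.1 h.2.1 h.2.2
      tauto
    · have := hI y hy z hz x hx h.1 h.2.1 h.2.2
      tauto
    · have := hI z hz x hx y hy h.1 h.2.1 h.2.2
      tauto
    · have := hI z hz y hy x hx h.1 h.2.1 h.2.2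
      tauto
  have hne : ∀ x y, arc x y → cls x ≠ cls y := by
    rintro x y ⟨-, -, h | h⟩ e
    · exact f3 _ (e ▸ h.1)
    · exact f3 _ (e ▸ h.1)
  have htot : ∀ x ∈ W, ∀ y ∈ W, cls x ≠ cls y → arc x y ∨ arc y x := by
    intro x hx y hy h
    by_cases ha : G.Adj x y
    · rcases f1 _ _ h with e | e
      · exact Or.inl ⟨hx, hy, Or.inl ⟨e, ha⟩⟩
      · exact Or.inr ⟨hy, hx, Or.inl ⟨e, ha.symm⟩⟩
    · rcases f1 _ _ h with e | e
      · exact Or.inr ⟨hy, hx, Or.inr ⟨e, fun h => ha h.symm⟩⟩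
      · exact Or.inl ⟨hx, hy, Or.inr ⟨e, ha⟩⟩
  have hasym : ∀ x y, arc x y → arc y x → False := by
    rintro x y ⟨-, -, h | h⟩ ⟨-, -, h' | h'⟩
    · exact f2 _ _ h.1 h'.1
    · exact h'.2 h.2.symm
    · exact h.2 h'.2.symm
    · exact f2 _ _ h.1 h'.1
  have htri : ∀ x y z, arc x y → arc y z → arc z x → False := by
    intro x y z h1 h2 h3
    have n1 := hne _ _ h1
    have n2 := hne _ _ h2
    have n3 := (hne _ _ h3).symm
    have g1 : ∀ a b c : Fin 3, a ≠ c → b = a + 1 → b = c + 1 → False := by decide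
    have g2 : ∀ a b c : Fin 3, a ≠ c → a = b + 1 → c = b + 1 → False := by decide
    obtain ⟨hx, hy, h1⟩ := h1
    obtain ⟨-, hz, h2⟩ := h2
    obtain ⟨-, -, h3⟩ := h3
    rcases h1 with h1 | h1 <;> rcases h2 with h2 | h2
    · rcases h3 with h3 | h3
      · exact hK x hx y hy z hz h1.2 h2.2 h3.2.symm
      · exact g1 _ _ _ n1.symm h2.1 h3.1
    · exact g1 _ _ _ n3 h1.1 h2.1
    · exact g2 _ _ _ n3 h1.1 h2.1
    · rcases h3 with h3 | h3
      · exact g1 _ _ _ n2 h1.1 h3.1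
      · rcases hI' x hx y hy z hz n1 n2 n3 with h | h | h
        · exact h1.2 h
        · exact h2.2 h
        · exact h3.2 h.symm
  -- paths avoiding a class
  have hpath : ∀ v w u, Relation.ReflTransGen (fun a b => arc a b ∧ cls b ≠ cls v) w u →
      arc v w → arc v u := by
    intro v w u h hvw
    induction h with
    | refl => exact hvw
    | tail _ hbc ih =>
      rcases htot v hvw.1 _ hbc.1.2.1 hbc.2.symm with h | h
      · exact h
      · exact (htri _ _ _ ih hbc.1 h).elim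
  have hthird : ∀ a b : Fin 3, ∃ κ, a ≠ κ ∧ b ≠ κ := by decide
  have htwo : ∀ x ∈ W, ∀ y, Relation.ReflTransGen arc x y →
      ∃ κ, cls x ≠ κ ∧ cls y ≠ κ ∧ Relation.ReflTransGen (fun a b => arc a b ∧ cls b ≠ κ) x y := by
    intro x hx y h
    induction h with
    | refl =>
      obtain ⟨κ, h, -⟩ := hthird (cls x) (cls x)
      exact ⟨κ, h, h, .refl⟩
    | @tail b c _ hbc ih =>
      obtain ⟨κ, h1, h2, h3⟩ := ih
      by_cases hc : cls c = κ
      · subst hc
        rcases htot x hx c hbc.2.1 h1 with h | h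
        · obtain ⟨κ', e1, e2⟩ := hthird (cls x) (cls c)
          exact ⟨κ', e1, e2, .single ⟨h, e2⟩⟩
        · exact (hasym _ _ hbc (hpath c x b h3 h)).elim
      · exact ⟨κ, h1, hc, h3.tail ⟨hbc, hc⟩⟩
  let Reach : V → Finset V := fun x => W.filter (Relation.ReflTransGen arc x)
  have hsub : ∀ x y, arc x y → Reach y ⊆ Reach x := fun x y h z hz =>
    mem_filter.2 ⟨(mem_filter.1 hz).1, (mem_filter.1 hz).2.head h⟩
  have hback : ∀ x y, arc x y → (Reach x).card = (Reach y).card →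
      Relation.ReflTransGen arc y x := by
    intro x y h he
    have := eq_of_subset_of_card_le (hsub x y h) he.le
    have hx : x ∈ Reach x := mem_filter.2 ⟨h.1, .refl⟩
    rw [← this] at hx
    exact (mem_filter.1 hx).2
  have hdown : ∀ x ∈ W, ∀ z ∈ W, cls x ≠ cls z → (Reach x).card < (Reach z).card →
      (G.Adj x z ↔ cls x = cls z + 1) := by
    intro x hx z hz h hlt
    rcases htot x hx z hz h with h' | h'
    · exact absurd (card_le_card (hsub _ _ h')) (not_le.2 hlt)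
    · rcases h'.2.2 with e | e
      · exact iff_of_true e.2.symm e.1
      · exact iff_of_false (fun h => e.2 h.symm) (fun h => f2 _ _ h e.1)
  have := wd_rank (G := G) (W := W) hk cls (fun x => (Reach x).card) ?_ ?_
  · simpa using this
  · intro x hx y hy z hz hxy h
    by_cases hc : cls x = cls z
    · exact iff_of_false (hind x hx z hz hc) (hind y hy z hz (hxy ▸ hc))
    · have hc' : cls y ≠ cls z := hxy ▸ hc
      rcases h with h | h
      · rw [hdown x hx z hz hc h.1, hdown y hy z hz hc' h.2, hxy]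
      · rw [G.adj_comm x z, G.adj_comm y z, hdown z hz x hx (Ne.symm hc) h.1,
          hdown z hz y hy (Ne.symm hc') h.2, hxy]
  · intro r
    by_cases h : ∃ i, ∀ x ∈ W.filter fun x => (Reach x).card = r, cls x ≠ i
    · obtain ⟨i, hi⟩ := h
      exact hpair _ (filter_subset _ _) i hi
    exfalso
    push Not at h
    obtain ⟨x, hx, hx0⟩ := h 0
    obtain ⟨y, hy, hy1⟩ := h 1
    obtain ⟨z, hz, hz2⟩ := h 2
    rw [mem_filter] at hx hy hz
    have key : ∀ s t u, arc s t → arc t u → arc s u → (Reach s).card = (Reach u).card → False := by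
      intro s t u h1 h2 h3 he
      obtain ⟨κ, e1, e2, hp⟩ := htwo u h3.2.1 s (hback s u h3 he)
      have := fin3_fourth _ _ _ _ (hne _ _ h1) (hne _ _ h2) (hne _ _ h3) e1 e2
      subst this
      exact hasym _ _ h1 (hpath t u s hp h2)
    have exy : (Reach x).card = (Reach y).card := hx.2.trans hy.2.symm
    have eyz : (Reach y).card = (Reach z).card := hy.2.trans hz.2.symm
    have exz : (Reach x).card = (Reach z).card := hx.2.trans hz.2.symm
    rcases htot x hx.1 y hy.1 (by rw [hx0, hy1]; decide) with a1 | a1 <;>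
      rcases htot y hy.1 z hz.1 (by rw [hy1, hz2]; decide) with a2 | a2 <;>
      rcases htot x hx.1 z hz.1 (by rw [hx0, hz2]; decide) with a3 | a3
    · exact key x y z a1 a2 a3 exz
    · exact htri x y z a1 a2 a3
    · exact key x z y a3 a2 a1 exy
    · exact key z x y a3 a1 a2 eyz.symm
    · exact key y x z a1 a3 a2 eyz
    · exact key y z x a2 a3 a1 exy.symm
    · exact htri x z y a3 a2 a1
    · exact key z y x a2 a1 a3 exz.symm

end Pool.Agent.Lib.MP_042ec1_co
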