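import Mathlib

/-!
Canonical decomposition of bipartite graphs without an induced `S₁,₂,₃`.
-/

namespace Pool.Agent.Lib.MP_042ec1_co

open Finset

variable {V : Type} {G G' : SimpleGraph V} {s : V → Bool} {S T M₁ M₂ : Finset V}

theorem bne3 {a b c : Bool} (h : a ≠ b) (h' : b ≠ c) : a = c := by
  revert h h'
  cases a <;> cases b <;> cases c <;> simp

/-- `G` and `G'` are bipartite complements of each other on `S`. -/
structure Dual (s : V → Bool) (S : Finset V) (G G' : SimpleGraph V) : Prop where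
  l : ∀ x ∈ S, ∀ y ∈ S, G.Adj x y → s x ≠ s y
  r : ∀ x ∈ S, ∀ y ∈ S, G'.Adj x y → s x ≠ s y
  c : ∀ x ∈ S, ∀ y ∈ S, s x ≠ s y → (G.Adj x y ↔ ¬ G'.Adj x y)

theorem Dual.symm (h : Dual s S G G') : Dual s S G' G :=
  ⟨h.r, h.l, fun x hx y hy e => by rw [h.c x hx y hy e, not_not]⟩

theorem Dual.co (h : Dual s S G G') {x y : V} (hx : x ∈ S) (hy : y ∈ S) (e : s x ≠ s y)
    (hn : ¬ G.Adj x y) : G'.Adj x y := (h.symm.c x hx y hy e).2 hn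

theorem Dual.non (h : Dual s S G G') {x y : V} (hx : x ∈ S) (hy : y ∈ S) (e : G.Adj x y) :
    ¬ G'.Adj x y := (h.c x hx y hy (h.l x hx y hy e)).1 e

/-- No induced `S₁,₂,₃`, in bipartite form. -/
def NoS (G : SimpleGraph V) (S : Finset V) : Prop :=
  ∀ c ∈ S, ∀ a ∈ S, ∀ b₁ ∈ S, ∀ b₂ ∈ S, ∀ d₁ ∈ S, ∀ d₂ ∈ S, ∀ d₃ ∈ S, G.Adj c a → G.Adj c b₁ →
    G.Adj b₁ b₂ → G.Adj c d₁ → G.Adj d₁ d₂ → G.Adj d₂ d₃ → ¬ G.Adj a b₂ → ¬ G.Adj a d₂ →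
    ¬ G.Adj b₁ d₂ → ¬ G.Adj d₁ b₂ → ¬ G.Adj d₃ c → ¬ G.Adj d₃ b₂ → False

theorem NoS.dual (hd : Dual s S G G') (h : NoS G' S) : NoS G S := by
  intro c hc a ha b₁ hb₁ b₂ hb₂ d₁ hd₁ d₂ hd₂ d₃ hd₃ e1 e2 e3 e4 e5 e6 n1 n2 n3 n4 n5 n6
  have s1 := hd.l _ hc _ ha e1
  have s2 := hd.l _ hc _ hb₁ e2
  have s3 := bne3 s2 (hd.l _ hb₁ _ hb₂ e3)
  have s4 := hd.l _ hc _ hd₁ e4
  have s5 := bne3 s4 (hd.l _ hd₁ _ hd₂ e5)
  have s6 := hd.l _ hd₂ _ hd₃ e6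
  exact h b₂ hb₂ d₁ hd₁ d₃ hd₃ c hc a ha d₂ hd₂ b₁ hb₁
    (hd.co hd₁ hb₂ (s3 ▸ s4.symm) n4).symm (hd.co hd₃ hb₂ (s3 ▸ s5 ▸ s6.symm) n6).symm
    (hd.co hd₃ hc (s5 ▸ s6.symm) n5) (hd.co ha hb₂ (s3 ▸ s1.symm) n1).symm
    (hd.co ha hd₂ (s5 ▸ s1.symm) n2) (hd.co hb₁ hd₂ (s5 ▸ s2.symm) n3).symm
    (hd.non hd₁ hc e4.symm) (hd.non hd₁ hd₂ e5) (hd.non hd₃ hd₂ e6.symm) (hd.non ha hc e1.symm)
    (hd.non hb₁ hb₂ e3) (hd.non hb₁ hc e2.symm)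

/-- An induced path on seven vertices, in bipartite form. -/
def HasP7 (G : SimpleGraph V) (S : Finset V) : Prop :=
  ∃ p0 ∈ S, ∃ p1 ∈ S, ∃ p2 ∈ S, ∃ p3 ∈ S, ∃ p4 ∈ S, ∃ p5 ∈ S, ∃ p6 ∈ S, G.Adj p0 p1 ∧
    G.Adj p1 p2 ∧ G.Adj p2 p3 ∧ G.Adj p3 p4 ∧ G.Adj p4 p5 ∧ G.Adj p5 p6 ∧ ¬ G.Adj p0 p3 ∧
    ¬ G.Adj p0 p5 ∧ ¬ G.Adj p1 p4 ∧ ¬ G.Adj p1 p6 ∧ ¬ G.Adj p2 p5 ∧ ¬ G.Adj p3 p6

theorem HasP7.dual (hd : Dual s S G G') (h : HasP7 G S) : HasP7 G' S := by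
  obtain ⟨p0, h0, p1, h1, p2, h2, p3, h3, p4, h4, p5, h5, p6, h6, e1, e2, e3, e4, e5, e6, n1, n2,
    n3, n4, n5, n6⟩ := h
  have s1 := hd.l _ h0 _ h1 e1
  have s2 := hd.l _ h1 _ h2 e2
  have s3 := hd.l _ h2 _ h3 e3
  have s4 := hd.l _ h3 _ h4 e4
  have s5 := hd.l _ h4 _ h5 e5
  have s6 := hd.l _ h5 _ h6 e6
  have t2 := bne3 s1 s2
  have t3 := bne3 s2 s3
  have t4 := bne3 s3 s4
  have t5 := bne3 s4 s5
  exact ⟨p2, h2, p5, h5, p0, h0, p3, h3, p6, h6, p1, h1, p4, h4,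
    hd.co h2 h5 (t4 ▸ s5) n5, (hd.co h0 h5 (t2 ▸ t4 ▸ s5) n2).symm, hd.co h0 h3 (t2 ▸ s3) n1,
    hd.co h3 h6 (t5 ▸ s6) n6, (hd.co h1 h6 (t3 ▸ t5 ▸ s6) n4).symm, hd.co h1 h4 (t3 ▸ s4) n3,
    hd.non h2 h3 e3, hd.non h2 h1 e2.symm, hd.non h5 h6 e6, hd.non h5 h4 e5.symm,
    hd.non h0 h1 e1, hd.non h3 h4 e4⟩

variable [DecidableEq V]

/-- A partition whose crossing adjacencies depend on the sides only. -/
def Split (G : SimpleGraph V) (s : V → Bool) (S : Finset V) : Prop :=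
  ∃ S₁ S₂ : Finset V, Disjoint S₁ S₂ ∧ S₁ ∪ S₂ = S ∧ S₁.Nonempty ∧ S₂.Nonempty ∧
    ∃ ρ : Bool → Prop, ∀ x ∈ S₁, ∀ y ∈ S₂, s x ≠ s y → (G.Adj x y ↔ ρ (s x))

theorem Split.dual (hd : Dual s S G G') (h : Split G' s S) : Split G s S := by
  obtain ⟨S₁, S₂, h1, rfl, h3, h4, ρ, h5⟩ := h
  exact ⟨S₁, S₂, h1, rfl, h3, h4, fun b => ¬ ρ b, fun x hx y hy e => by
    rw [hd.c x (mem_union_left _ hx) y (mem_union_right _ hy) e, h5 x hx y hy e]⟩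

theorem split_sub {A : Finset V} (hA : A ⊆ S) (hne : A.Nonempty) (hAS : A ≠ S) (ρ : Bool → Prop)
    (h : ∀ x ∈ A, ∀ y ∈ S, y ∉ A → s x ≠ s y → (G.Adj x y ↔ ρ (s x))) : Split G s S :=
  ⟨A, S \ A, disjoint_sdiff, union_sdiff_of_subset hA, hne,
    sdiff_nonempty.2 fun h' => hAS (Subset.antisymm hA h'), ρ,
    fun x hx y hy => h x hx y (mem_sdiff.1 hy).1 (mem_sdiff.1 hy).2⟩

theorem split_of {M : Finset V} (hM : M ⊆ S) (hne : M.Nonempty) (hMS : M ≠ S)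
    (hb : ∀ z ∈ S, z ∉ M → (∃ m ∈ M, G.Adj z m) → ∀ m ∈ M, s z ≠ s m → G.Adj z m)
    (hI : ∀ z ∈ S, z ∉ M → ∀ z' ∈ S, z' ∉ M → (¬ ∃ m ∈ M, G.Adj z m) →
      (¬ ∃ m ∈ M, G.Adj z' m) → ¬ G.Adj z z')
    (hR : ∀ z ∈ S, z ∉ M → ∀ z' ∈ S, z' ∉ M → (∃ m ∈ M, G.Adj z m) → (∃ m ∈ M, G.Adj z' m) →
      s z ≠ s z' → G.Adj z z') : Split G s S := by
  classical
  let A := S.filter fun z => z ∉ M ∧ (s z = true ↔ ∃ m ∈ M, G.Adj z m)
  have hA : ∀ z, z ∈ A ↔ z ∈ S ∧ z ∉ M ∧ (s z = true ↔ ∃ m ∈ M, G.Adj z m) := fun z => mem_filter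
  rcases A.eq_empty_or_nonempty with h0 | h0
  · refine split_sub hM hne hMS (fun b => b = true) fun x hx y hy hyM e => ?_
    have : ¬ (s y = true ↔ ∃ m ∈ M, G.Adj y m) := fun h =>
      (h0 ▸ (hA y).2 ⟨hy, hyM, h⟩ : y ∈ (∅ : Finset V)) |> notMem_empty y
    constructor
    · intro h
      have h1 : ∃ m ∈ M, G.Adj y m := ⟨x, hx, h.symm⟩
      have h2 : s y ≠ true := fun h' => this (iff_of_true h' h1)
      exact bne3 e h2
    · intro h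
      have h2 : ¬ s y = true := fun h' => e (h.trans h'.symm)
      exact (hb y hy hyM (by tauto) x hx e.symm).symm
  · obtain ⟨m, hm⟩ := hne
    refine split_sub (A := A) (filter_subset _ _) h0 (fun h => ((hA m).1 (h ▸ hM hm)).2.1 hm)
      (fun b => b = true) fun x hx y hy hyA e => ?_
    obtain ⟨h1, h2, h3⟩ := (hA x).1 hx
    rw [hA] at hyA
    by_cases hyM : y ∈ M
    · exact ⟨fun h => h3.2 ⟨y, hyM, h⟩, fun h => hb x h1 h2 (h3.1 h) y hyM e⟩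
    · have h4 : ¬ (s y = true ↔ ∃ m ∈ M, G.Adj y m) := fun h => hyA ⟨hy, hyM, h⟩
      constructor
      · intro h
        by_contra h5
        have h6 : s y = true := bne3 e.symm h5
        exact hI x h1 h2 y hy hyM (fun h' => h5 (h3.2 h')) (fun h' => h4 (iff_of_true h6 h')) h
      · intro h
        have h6 : ¬ s y = true := fun h' => e (h.trans h'.symm)
        exact hR x h1 h2 y hy hyM (h3.1 h) (by tauto) e

/-- Two anticomplete sets without isolated vertices, the first containing `T`. -/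
structure GP (G : SimpleGraph V) (S T M₁ M₂ : Finset V) : Prop where
  sub : M₁ ∪ M₂ ⊆ S
  disj : Disjoint M₁ M₂
  hT : T ⊆ M₁
  ne₁ : M₁.Nonempty
  ne₂ : M₂.Nonempty
  anti : ∀ x ∈ M₁, ∀ y ∈ M₂, ¬ G.Adj x y
  iso : ∀ x ∈ M₁ ∪ M₂, ∃ y ∈ M₁ ∪ M₂, G.Adj x y

/-- A largest such pair. -/
def Best (G G' : SimpleGraph V) (S T M₁ M₂ : Finset V) : Prop :=
  GP G S T M₁ M₂ ∧ ∀ N₁ N₂, GP G S T N₁ N₂ ∨ GP G' S T N₁ N₂ → (N₁ ∪ N₂).card ≤ (M₁ ∪ M₂).card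

theorem exists_best [Fintype V] (h : ∃ N₁ N₂, GP G S T N₁ N₂ ∨ GP G' S T N₁ N₂) :
    ∃ M₁ M₂, Best G G' S T M₁ M₂ ∨ Best G' G S T M₁ M₂ := by
  classical
  obtain ⟨N₁, N₂, h⟩ := h
  obtain ⟨⟨M₁, M₂⟩, h1, h2⟩ := exists_max_image
    (univ.filter fun p : Finset V × Finset V => GP G S T p.1 p.2 ∨ GP G' S T p.1 p.2)
    (fun p => (p.1 ∪ p.2).card) ⟨(N₁, N₂), mem_filter.2 ⟨mem_univ _, h⟩⟩
  refine ⟨M₁, M₂, (mem_filter.1 h1).2.imp (fun h => ⟨h, fun A B h' => ?_⟩)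
    fun h => ⟨h, fun A B h' => ?_⟩⟩
  · exact h2 (A, B) (mem_filter.2 ⟨mem_univ _, h'⟩)
  · exact h2 (A, B) (mem_filter.2 ⟨mem_univ _, h'.symm⟩)

theorem GP.cl₁ (h : GP G S T M₁ M₂) : ∀ c ∈ M₁, ∀ m ∈ M₁ ∪ M₂, G.Adj c m → m ∈ M₁ :=
  fun c hc m hm e => (mem_union.1 hm).resolve_right fun h' => h.anti c hc m h' e

theorem GP.cl₂ (h : GP G S T M₁ M₂) : ∀ c ∈ M₂, ∀ m ∈ M₁ ∪ M₂, G.Adj c m → m ∈ M₂ :=
  fun c hc m hm e => (mem_union.1 hm).resolve_left fun h' => h.anti m h' c hc e.symm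

theorem GP.iso₁ (h : GP G S T M₁ M₂) {x : V} (hx : x ∈ M₁) : ∃ y ∈ M₁, G.Adj x y := by
  obtain ⟨y, hy, e⟩ := h.iso x (mem_union_left _ hx)
  exact ⟨y, h.cl₁ x hx y hy e, e⟩

theorem GP.iso₂ (h : GP G S T M₁ M₂) {x : V} (hx : x ∈ M₂) : ∃ y ∈ M₂, G.Adj x y := by
  obtain ⟨y, hy, e⟩ := h.iso x (mem_union_right _ hx)
  exact ⟨y, h.cl₂ x hx y hy e, e⟩

theorem GP.s₁ (h : GP G S T M₁ M₂) {x : V} (hx : x ∈ M₁) : x ∈ S := h.sub (mem_union_left _ hx)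

theorem GP.s₂ (h : GP G S T M₁ M₂) {x : V} (hx : x ∈ M₂) : x ∈ S := h.sub (mem_union_right _ hx)

theorem GP.coiso (hd : Dual s S G G') (h : GP G S T M₁ M₂) :
    ∀ m ∈ M₁ ∪ M₂, ∃ m' ∈ M₁ ∪ M₂, G'.Adj m m' := by
  intro m hm
  have key : ∀ N ⊆ M₁ ∪ M₂, ∀ u ∈ N, ∀ u' ∈ N, G.Adj u u' → (∀ v ∈ N, ¬ G.Adj m v) →
      ∃ m' ∈ M₁ ∪ M₂, G'.Adj m m' := by
    intro N hN u hu u' hu' e hn
    by_cases h1 : s m = s u
    · exact ⟨u', hN hu', hd.co (h.sub hm) (h.sub (hN hu'))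
        (h1 ▸ hd.l u (h.sub (hN hu)) u' (h.sub (hN hu')) e) (hn u' hu')⟩
    · exact ⟨u, hN hu, hd.co (h.sub hm) (h.sub (hN hu)) h1 (hn u hu)⟩
  rcases mem_union.1 hm with h1 | h1
  · obtain ⟨u, hu⟩ := h.ne₂
    obtain ⟨u', hu', e⟩ := h.iso₂ hu
    exact key M₂ subset_union_right u hu u' hu' e (h.anti m h1)
  · obtain ⟨u, hu⟩ := h.ne₁
    obtain ⟨u', hu', e⟩ := h.iso₁ hu
    exact key M₁ subset_union_left u hu u' hu' e fun v hv e => h.anti v hv m h1 e.symm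

theorem Best.touch (hb : Best G G' S T M₁ M₂) {z : V} (hz : z ∈ S) (hzM : z ∉ M₁ ∪ M₂)
    (hm : ∃ m ∈ M₁ ∪ M₂, G.Adj z m) {C : Finset V} (hC : C ⊆ M₁ ∪ M₂) (hne : C.Nonempty)
    (hcl : ∀ c ∈ C, ∀ m ∈ M₁ ∪ M₂, G.Adj c m → m ∈ C) (hT : T ⊆ C ∨ Disjoint T C) :
    ∃ c ∈ C, G.Adj z c := by
  by_contra hno
  push Not at hno
  set M := M₁ ∪ M₂ with hM
  have e : C ∪ insert z (M \ C) = insert z M := by
    rw [union_insert, union_sdiff_of_subset hC]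
  have hsub : insert z M ⊆ S := insert_subset hz hb.1.sub
  have hdis : Disjoint C (insert z (M \ C)) :=
    disjoint_insert_right.2 ⟨fun h => hzM (hC h), disjoint_sdiff⟩
  have hanti : ∀ x ∈ C, ∀ y ∈ insert z (M \ C), ¬ G.Adj x y := by
    intro x hx y hy h
    rcases mem_insert.1 hy with rfl | hy
    · exact hno x hx h.symm
    · exact (mem_sdiff.1 hy).2 (hcl x hx y (mem_sdiff.1 hy).1 h)
  have hiso : ∀ x ∈ insert z M, ∃ y ∈ insert z M, G.Adj x y := by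
    intro x hx
    rcases mem_insert.1 hx with rfl | hx
    · obtain ⟨m, h1, h2⟩ := hm
      exact ⟨m, mem_insert_of_mem h1, h2⟩
    · obtain ⟨y, h1, h2⟩ := hb.1.iso x hx
      exact ⟨y, mem_insert_of_mem h1, h2⟩
  have hcard := card_insert_of_notMem hzM
  rcases hT with hT | hT
  · have := hb.2 C (insert z (M \ C)) (Or.inl ⟨e ▸ hsub, hdis, hT, hne, insert_nonempty _ _,
      hanti, e ▸ hiso⟩)
    rw [e, ← hM] at this
    omega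
  · have e' := (union_comm _ _).trans e
    have := hb.2 (insert z (M \ C)) C (Or.inl ⟨e' ▸ hsub, hdis.symm, fun t ht =>
      mem_insert_of_mem (mem_sdiff.2 ⟨mem_union_left _ (hb.1.hT ht), disjoint_left.1 hT ht⟩),
      insert_nonempty _ _, hne, fun x hx y hy h => hanti y hy x hx h.symm, e' ▸ hiso⟩)
    rw [e', ← hM] at this
    omega

/-- Vertices outside `T` see each side of `T` uniformly. -/
def Bim (G : SimpleGraph V) (s : V → Bool) (S T : Finset V) : Prop :=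
  ∀ z ∈ S, z ∉ T → ∀ t ∈ T, ∀ t' ∈ T, s t = s t' → G.Adj z t → G.Adj z t'

theorem Best.path (hd : Dual s S G G') (hb : Best G G' S T M₁ M₂) (hTb : Bim G s S T)
    (hTi : ∀ t ∈ T, ∃ t' ∈ T, G.Adj t t') {z : V} (hz : z ∈ S) (hzM : z ∉ M₁ ∪ M₂)
    (hm : ∃ m ∈ M₁ ∪ M₂, G.Adj z m) {N : Finset V} (hN : N ⊆ M₁ ∪ M₂)
    (hcl : ∀ c ∈ N, ∀ m ∈ M₁ ∪ M₂, G.Adj c m → m ∈ N) (hT : T ⊆ N ∨ Disjoint T N) {w : V}
    (hw : w ∈ N) (hs : s z ≠ s w) (hn : ¬ G.Adj z w) :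
    ∃ y ∈ N, ∃ x ∈ N, ∃ y' ∈ N, G.Adj z y ∧ G.Adj y x ∧ G.Adj x y' ∧ ¬ G.Adj z y' := by
  classical
  by_contra hno
  let C := N.filter fun v => ¬ G.Adj z v ∧ (s v = s z → ∀ y ∈ N, G.Adj v y → ¬ G.Adj z y)
  have hC : ∀ v, v ∈ C ↔ v ∈ N ∧ ¬ G.Adj z v ∧ (s v = s z → ∀ y ∈ N, G.Adj v y → ¬ G.Adj z y) :=
    fun v => mem_filter
  have hS : ∀ v ∈ N, v ∈ S := fun v hv => hb.1.sub (hN hv)
  have hCcl : ∀ c ∈ C, ∀ m ∈ M₁ ∪ M₂, G.Adj c m → m ∈ C := by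
    intro c hc m hm e
    obtain ⟨h1, h2, h3⟩ := (hC c).1 hc
    have hmN := hcl c h1 m hm e
    have h4 := hd.l c (hS c h1) m (hS m hmN) e
    by_cases h5 : s c = s z
    · exact (hC m).2 ⟨hmN, h3 h5 m hmN e, fun h => (h4 (h5.trans h.symm)).elim⟩
    · exact (hC m).2 ⟨hmN, fun h => hd.l z hz m (hS m hmN) h (bne3 (Ne.symm h5) h4),
        fun _ y hy e1 e2 => hno ⟨y, hy, m, hmN, c, h1, e2, e1.symm, e.symm, h2⟩⟩
  have hzT : z ∉ T := fun h => hzM (mem_union_left _ (hb.1.hT h))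
  obtain ⟨c, hc, e⟩ := hb.touch hz hzM hm (C := C) ((filter_subset _ _).trans hN)
    ⟨w, (hC w).2 ⟨hw, hn, fun h => (hs h.symm).elim⟩⟩ hCcl (by
      rcases hT with hT | hT
      · by_cases h : ∃ t ∈ T, G.Adj z t
        · obtain ⟨t, ht, e⟩ := h
          have h1 := hd.l z hz t (hS t (hT ht)) e
          refine Or.inr (disjoint_left.2 fun t' ht' hc => ?_)
          obtain ⟨-, h2, h3⟩ := (hC t').1 hc
          by_cases h4 : s t' = s z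
          · obtain ⟨t'', h5, h6⟩ := hTi t' ht'
            exact h3 h4 t'' (hT h5) h6 (hTb z hz hzT t ht t'' h5 (bne3 h1.symm
              (h4 ▸ hd.l t' (hS t' (hT ht')) t'' (hS t'' (hT h5)) h6)) e)
          · exact h2 (hTb z hz hzT t ht t' ht' (bne3 h1.symm (Ne.symm h4)) e)
        · push Not at h
          have h1 : ∀ t ∈ T, s t ≠ s z → t ∈ C := fun t ht h' =>
            (hC t).2 ⟨hT ht, h t ht, fun h'' => (h' h'').elim⟩
          refine Or.inl fun t ht => ?_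
          by_cases h4 : s t = s z
          · obtain ⟨t', h5, h6⟩ := hTi t ht
            exact hCcl t' (h1 t' h5 (h4 ▸ (hd.l t (hS t (hT ht)) t' (hS t' (hT h5)) h6).symm)) t
              (hN (hT ht)) h6.symm
          · exact h1 t ht h4
      · exact Or.inr (hT.mono_right (filter_subset _ _)))
  exact ((hC c).1 hc).2.1 e

theorem Best.split (hd : Dual s S G G') (hb : Best G G' S T M₁ M₂)
    (h : ∀ z ∈ S, z ∉ M₁ ∪ M₂ → (∃ m ∈ M₁ ∪ M₂, G.Adj z m) →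
      ∀ m ∈ M₁ ∪ M₂, s z ≠ s m → G.Adj z m) : Split G s S := by
  by_cases hM : M₁ ∪ M₂ = S
  · exact ⟨M₁, M₂, hb.1.disj, hM, hb.1.ne₁, hb.1.ne₂, fun _ => False,
      fun x hx y hy _ => iff_of_false (hb.1.anti x hx y hy) id⟩
  have hcard : ∀ z z', z ∉ M₁ ∪ M₂ → ∀ N : Finset V, N = insert z (insert z' (M₁ ∪ M₂)) →
      ¬ N.card ≤ (M₁ ∪ M₂).card := by
    rintro z z' hz _ rfl
    exact not_le.2 (card_lt_card ⟨fun x hx => mem_insert_of_mem (mem_insert_of_mem hx),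
      fun h => hz (h (mem_insert_self _ _))⟩)
  refine split_of hb.1.sub (hb.1.ne₁.mono subset_union_left) hM h ?_ ?_
  · intro z hz hzM z' hz' hzM' h1 h2 e
    have e1 : M₁ ∪ insert z (insert z' M₂) = insert z (insert z' (M₁ ∪ M₂)) := by
      rw [union_insert, union_insert]
    push Not at h1 h2
    refine hcard z z' hzM _ e1 (hb.2 _ _ (Or.inl ⟨?_, ?_, hb.1.hT, hb.1.ne₁, insert_nonempty _ _,
      ?_, ?_⟩))
    · rw [e1]
      exact insert_subset hz (insert_subset hz' hb.1.sub)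
    · exact disjoint_insert_right.2 ⟨fun h => hzM (mem_union_left _ h),
        disjoint_insert_right.2 ⟨fun h => hzM' (mem_union_left _ h), hb.1.disj⟩⟩
    · intro x hx y hy e'
      rcases mem_insert.1 hy with rfl | hy
      · exact h1 x (mem_union_left _ hx) e'.symm
      rcases mem_insert.1 hy with rfl | hy
      · exact h2 x (mem_union_left _ hx) e'.symm
      · exact hb.1.anti x hx y hy e'
    · rw [e1]
      intro x hx
      rcases mem_insert.1 hx with rfl | hx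
      · exact ⟨z', mem_insert_of_mem (mem_insert_self _ _), e⟩
      rcases mem_insert.1 hx with rfl | hx
      · exact ⟨z, mem_insert_self _ _, e.symm⟩
      · obtain ⟨y, h3, h4⟩ := hb.1.iso x hx
        exact ⟨y, mem_insert_of_mem (mem_insert_of_mem h3), h4⟩
  · intro z hz hzM z' hz' hzM' h1 h2 hs
    by_contra e
    have e' := hd.co hz hz' hs e
    have e1 : (M₁ ∪ M₂) ∪ {z, z'} = insert z (insert z' (M₁ ∪ M₂)) := by
      rw [union_comm, insert_union, ← insert_eq]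
    refine hcard z z' hzM _ e1 (hb.2 _ _ (Or.inr ⟨?_, ?_, hb.1.hT.trans subset_union_left,
      hb.1.ne₁.mono subset_union_left, insert_nonempty _ _, ?_, ?_⟩))
    · rw [e1]
      exact insert_subset hz (insert_subset hz' hb.1.sub)
    · exact disjoint_insert_right.2 ⟨hzM, disjoint_singleton_right.2 hzM'⟩
    · intro x hx y hy e''
      have hxS := hb.1.sub hx
      rcases mem_insert.1 hy with rfl | hy
      · exact hd.non hz hxS (h y hz hzM h1 x hx (hd.r y hz x hxS e''.symm)) e''.symm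
      · rw [mem_singleton.1 hy] at e''
        exact hd.non hz' hxS (h z' hz' hzM' h2 x hx (hd.r z' hz' x hxS e''.symm)) e''.symm
    · rw [e1]
      intro x hx
      rcases mem_insert.1 hx with rfl | hx
      · exact ⟨z', mem_insert_of_mem (mem_insert_self _ _), e'⟩
      rcases mem_insert.1 hx with rfl | hx
      · exact ⟨z, mem_insert_self _ _, e'.symm⟩
      · obtain ⟨y, h3, h4⟩ := hb.1.coiso hd x hx
        exact ⟨y, mem_insert_of_mem (mem_insert_of_mem h3), h4⟩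

end Pool.Agent.Lib.MP_042ec1_co
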