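import Mathlib
import Pool.Agent.Lib.MP_042ec1_co.Canon

/-!
Two sufficient conditions for the existence of a split.
-/

namespace Pool.Agent.Lib.MP_042ec1_co

open Finset

variable {V : Type} [DecidableEq V] {G G' : SimpleGraph V} {s : V → Bool} {S T M₁ M₂ : Finset V}

omit [DecidableEq V] in
theorem Bim.dual (hd : Dual s S G G') (hT : T ⊆ S) (h : Bim G s S T) : Bim G' s S T :=
  fun z hz hzT t ht t' ht' e e' => hd.co hz (hT ht') (e ▸ hd.r z hz t (hT ht) e') fun h' =>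
    hd.non hz (hT ht) (h z hz hzT t' ht' t ht e.symm h') e'

theorem Best.split_bim (hd : Dual s S G G') (hS : NoS G S) (hb : Best G G' S T M₁ M₂)
    (hne : T.Nonempty) (hTb : Bim G s S T) (hi : ∀ t ∈ T, ∃ t' ∈ T, G.Adj t t')
    (hi' : ∀ t ∈ T, ∃ t' ∈ T, G'.Adj t t') : Split G s S := by
  classical
  have g := hb.1
  have hT1 := g.hT
  have hTS : ∀ t ∈ T, t ∈ S := fun t ht => g.s₁ (hT1 ht)
  have cfg : ∀ u : V, ∃ x ∈ T, ∃ ya ∈ T, ∃ yb ∈ T, s u ≠ s ya ∧ s u ≠ s yb ∧ s x = s u ∧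
      G.Adj x ya ∧ ¬ G.Adj x yb := by
    intro u
    have : ∃ x ∈ T, s x = s u := by
      obtain ⟨t, ht⟩ := hne
      by_cases h : s t = s u
      · exact ⟨t, ht, h⟩
      · obtain ⟨t', ht', e⟩ := hi t ht
        exact ⟨t', ht', bne3 (hd.l t (hTS t ht) t' (hTS t' ht') e).symm h⟩
    obtain ⟨x, hx, h⟩ := this
    obtain ⟨ya, h1, e1⟩ := hi x hx
    obtain ⟨yb, h2, e2⟩ := hi' x hx
    exact ⟨x, hx, ya, h1, yb, h2, h ▸ hd.l x (hTS x hx) ya (hTS ya h1) e1,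
      h ▸ hd.r x (hTS x hx) yb (hTS yb h2) e2, h, e1, hd.symm.non (hTS x hx) (hTS yb h2) e2⟩
  have hcomp : ∀ d ∈ S, d ∉ T → (∃ t ∈ T, G.Adj d t) → ∀ t ∈ T, s d ≠ s t → G.Adj d t := by
    rintro d hdS hdT ⟨t, ht, e⟩ t' ht' h
    exact hTb d hdS hdT t ht t' ht' (bne3 (hd.l d hdS t (hTS t ht) e).symm h) e
  refine hb.split hd fun z hz hzM hm m hmM hs => ?_
  by_contra hn
  have hzT : z ∉ T := fun h => hzM (mem_union_left _ (hT1 h))
  have hd2 : Disjoint T M₂ := g.disj.mono_left hT1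
  obtain ⟨y₂, hy₂, e₂⟩ := hb.touch hz hzM hm subset_union_right g.ne₂ g.cl₂ (Or.inr hd2)
  obtain ⟨x₂, hx₂, f₂⟩ := g.iso₂ hy₂
  have an : ∀ {u v : V}, u ∈ M₂ → v ∈ M₁ → ¬ G.Adj u v := fun hu hv e => g.anti _ hv _ hu e.symm
  by_cases hzn : ∃ t ∈ T, G.Adj z t
  · obtain ⟨xa, hxa, ya, hya, yb, hyb, s1, s2, s3, ea, eb⟩ := cfg z
    have c1 := hcomp z hz hzT hzn ya hya s1
    have c2 := hcomp z hz hzT hzn yb hyb s2
    rcases mem_union.1 hmM with hm1 | hm2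
    · obtain ⟨y, hy, x, hx, y', hy', e1, e2, e3, e4⟩ := hb.path hd hTb hi hz hzM hm
        subset_union_left g.cl₁ (Or.inl hT1) hm1 hs hn
      have s4 : s z ≠ s y' := bne3 (hd.l _ (g.s₁ hy) _ (g.s₁ hx) e2)
        (hd.l _ (g.s₁ hx) _ (g.s₁ hy') e3) ▸ hd.l _ hz _ (g.s₁ hy) e1
      by_cases h : ∃ t ∈ T, G.Adj y' t
      · have h' := hcomp y' (g.s₁ hy') (fun h' => e4 (hcomp z hz hzT hzn y' h' s4)) h xa hxa
          (s3 ▸ s4.symm)
        exact hS z hz yb (hTS _ hyb) y₂ (g.s₂ hy₂) x₂ (g.s₂ hx₂) ya (hTS _ hya) xa (hTS _ hxa) y'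
          (g.s₁ hy') c2 e₂ f₂ c1 ea.symm h'.symm (g.anti _ (hT1 hyb) _ hx₂) (fun h => eb h.symm)
          (an hy₂ (hT1 hxa)) (g.anti _ (hT1 hya) _ hx₂) (fun h => e4 h.symm)
          (g.anti _ hy' _ hx₂)
      · push Not at h
        by_cases h' : G.Adj ya x
        · exact hS ya (hTS _ hya) xa (hTS _ hxa) x (g.s₁ hx) y' (g.s₁ hy') z hz y₂ (g.s₂ hy₂) x₂
            (g.s₂ hx₂) ea.symm h' e3 c1.symm e₂ f₂ (fun e => h xa hxa e.symm)
            (g.anti _ (hT1 hxa) _ hy₂) (g.anti _ hx _ hy₂) e4 (an hx₂ (hT1 hya)) (an hx₂ hy')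
        · exact hS z hz ya (hTS _ hya) y₂ (g.s₂ hy₂) x₂ (g.s₂ hx₂) y (g.s₁ hy) x (g.s₁ hx) y'
            (g.s₁ hy') c1 e₂ f₂ e1 e2 e3 (g.anti _ (hT1 hya) _ hx₂) h' (an hy₂ hx)
            (g.anti _ hy _ hx₂) (fun h => e4 h.symm) (g.anti _ hy' _ hx₂)
    · obtain ⟨y, hy, x, hx, y', hy', e1, e2, e3, e4⟩ := hb.path hd hTb hi hz hzM hm
        subset_union_right g.cl₂ (Or.inr hd2) hm2 hs hn
      exact hS z hz yb (hTS _ hyb) ya (hTS _ hya) xa (hTS _ hxa) y (g.s₂ hy) x (g.s₂ hx) y'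
        (g.s₂ hy') c2 c1 ea.symm e1 e2 e3 (fun h => eb h.symm) (g.anti _ (hT1 hyb) _ hx)
        (g.anti _ (hT1 hya) _ hx) (an hy (hT1 hxa)) (fun h => e4 h.symm) (an hy' (hT1 hxa))
  · let nr : V → Prop := fun v => ∃ t ∈ T, G.Adj v t
    let L₁ : V → Prop := fun v => ∃ d ∈ M₁, nr d ∧ G.Adj d v
    let L₂ : V → Prop := fun v => ∃ a ∈ M₁, L₁ a ∧ G.Adj a v
    have K : ∀ d ∈ S, nr d → ∀ a ∈ S, ∀ b ∈ S, ∀ c ∈ S, G.Adj d a → G.Adj a b → G.Adj b c →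
        ¬ G.Adj d c → ¬ nr a → ¬ nr b → ¬ nr c → False := by
      intro d hdS hdn a ha b hb' c hc e1 e2 e3 e4 n1 n2 n3
      have hdT : d ∉ T := fun h => n1 ⟨d, h, e1.symm⟩
      obtain ⟨xa, hxa, ya, hya, yb, hyb, s1, s2, -, ea, eb⟩ := cfg d
      exact hS d hdS yb (hTS _ hyb) ya (hTS _ hya) xa (hTS _ hxa) a ha b hb' c hc
        (hcomp d hdS hdT hdn yb hyb s2) (hcomp d hdS hdT hdn ya hya s1) ea.symm e1 e2 e3
        (fun h => eb h.symm) (fun h => n2 ⟨yb, hyb, h.symm⟩) (fun h => n2 ⟨ya, hya, h.symm⟩)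
        (fun h => n1 ⟨xa, hxa, h⟩) (fun h => e4 h.symm) (fun h => n3 ⟨xa, hxa, h⟩)
    have E : ∀ v ∈ M₁, nr v ∨ L₁ v ∨ L₂ v → ∀ w ∈ S, G.Adj v w → nr w ∨ L₁ w ∨ L₂ w := by
      intro v hv h w hw e
      by_cases h0 : nr v
      · exact Or.inr (Or.inl ⟨v, hv, h0, e⟩)
      by_cases h1 : L₁ v
      · exact Or.inr (Or.inr ⟨v, hv, h1, e⟩)
      obtain ⟨a, ha, ⟨d, hd', h2, e1⟩, e2⟩ := (h.resolve_left h0).resolve_left h1
      by_contra hw'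
      exact K d (g.s₁ hd') h2 a (g.s₁ ha) v (g.s₁ hv) w hw e1 e2 e
        (fun h => hw' (Or.inr (Or.inl ⟨d, hd', h2, h⟩))) (fun h => h1 ⟨a, ha, h, e2⟩) h0
        fun h => hw' (Or.inl h)
    have n2 : ∀ u ∈ M₂, ¬ nr u := fun u hu ⟨t, ht, e⟩ => an hu (hT1 ht) e
    have hTC : T ⊆ M₁.filter fun v => nr v ∨ L₁ v ∨ L₂ v := fun t ht =>
      mem_filter.2 ⟨hT1 ht, Or.inl (hi t ht)⟩
    obtain ⟨c, hc, e⟩ := hb.touch hz hzM hm (C := M₁.filter fun v => nr v ∨ L₁ v ∨ L₂ v)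
      ((filter_subset _ _).trans subset_union_left) (hne.mono hTC)
      (fun c hc m hm e => mem_filter.2 ⟨g.cl₁ c (mem_filter.1 hc).1 m hm e,
        E c (mem_filter.1 hc).1 (mem_filter.1 hc).2 m (g.sub hm) e⟩) (Or.inl hTC)
    have h1 : ¬ L₁ z := fun ⟨d, hd', h2, e1⟩ => K d (g.s₁ hd') h2 z hz y₂ (g.s₂ hy₂) x₂ (g.s₂ hx₂)
      e1 e₂ f₂ (g.anti _ hd' _ hx₂) hzn (n2 _ hy₂) (n2 _ hx₂)
    obtain ⟨a, ha, ⟨d, hd', h2, e1⟩, e2⟩ := ((E c (mem_filter.1 hc).1 (mem_filter.1 hc).2 z hz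
      e.symm).resolve_left hzn).resolve_left h1
    exact K d (g.s₁ hd') h2 a (g.s₁ ha) z hz y₂ (g.s₂ hy₂) e1 e2 e₂ (g.anti _ hd' _ hy₂)
      (fun h => h1 ⟨a, ha, h, e2⟩) hzn (n2 _ hy₂)

theorem gp_pair (hT : T ⊆ S) (hne : T.Nonempty) (hi : ∀ t ∈ T, ∃ t' ∈ T, G.Adj t t') {z z' : V}
    (hz : z ∈ S) (hz' : z' ∈ S) (hzT : z ∉ T) (hzT' : z' ∉ T) (e : G.Adj z z')
    (h : ∀ t ∈ T, ¬ G.Adj z t) (h' : ∀ t ∈ T, ¬ G.Adj z' t) : GP G S T T {z, z'} := by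
  refine ⟨union_subset hT (insert_subset hz (singleton_subset_iff.2 hz')),
    disjoint_insert_right.2 ⟨hzT, disjoint_singleton_right.2 hzT'⟩, Subset.rfl, hne,
    insert_nonempty _ _, fun x hx y hy e' => ?_, fun x hx => ?_⟩
  · rcases mem_insert.1 hy with rfl | hy
    · exact h x hx e'.symm
    · exact h' x hx (mem_singleton.1 hy ▸ e'.symm)
  · rcases mem_union.1 hx with hx | hx
    · obtain ⟨t, h1, h2⟩ := hi x hx
      exact ⟨t, mem_union_left _ h1, h2⟩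
    · rcases mem_insert.1 hx with rfl | hx
      · exact ⟨z', by simp, e⟩
      · exact ⟨z, by simp, mem_singleton.1 hx ▸ e.symm⟩

theorem split_of_bim [Fintype V] (hd : Dual s S G G') (hS : NoS G S) (hT : T ⊆ S)
    (hne : T.Nonempty) (hTS : T ≠ S) (hTb : Bim G s S T) (hi : ∀ t ∈ T, ∃ t' ∈ T, G.Adj t t')
    (hi' : ∀ t ∈ T, ∃ t' ∈ T, G'.Adj t t') : Split G s S := by
  by_cases h : ∃ N₁ N₂, GP G S T N₁ N₂ ∨ GP G' S T N₁ N₂
  · obtain ⟨M₁, M₂, hb | hb⟩ := exists_best h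
    · exact hb.split_bim hd hS hne hTb hi hi'
    · exact (hb.split_bim hd.symm (hS.dual hd.symm) hne (hTb.dual hd hT) hi' hi).dual hd
  have hcomp : ∀ d ∈ S, d ∉ T → (∃ t ∈ T, G.Adj d t) → ∀ t ∈ T, s d ≠ s t → G.Adj d t := by
    rintro d hdS hdT ⟨t, ht, e⟩ t' ht' h
    exact hTb d hdS hdT t ht t' ht' (bne3 (hd.l d hdS t (hT ht) e).symm h) e
  refine split_of hT hne hTS hcomp (fun z hz hzT z' hz' hzT' h1 h2 e => ?_)
    fun z hz hzT z' hz' hzT' h1 h2 hs => ?_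
  · push Not at h1 h2
    exact h ⟨_, _, Or.inl (gp_pair hT hne hi hz hz' hzT hzT' e h1 h2)⟩
  · by_contra e
    exact h ⟨_, _, Or.inr (gp_pair hT hne hi' hz hz' hzT hzT' (hd.co hz hz' hs e)
      (fun t ht e => hd.non hz (hT ht) (hcomp z hz hzT h1 t ht (hd.r z hz t (hT ht) e)) e)
      fun t ht e => hd.non hz' (hT ht) (hcomp z' hz' hzT' h2 t ht (hd.r z' hz' t (hT ht) e)) e)⟩

theorem Best.swap (hb : Best G G' S ∅ M₁ M₂) : Best G G' S ∅ M₂ M₁ :=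
  ⟨⟨union_comm M₁ M₂ ▸ hb.1.sub, hb.1.disj.symm, empty_subset _, hb.1.ne₂, hb.1.ne₁,
    fun x hx y hy e => hb.1.anti y hy x hx e.symm, union_comm M₁ M₂ ▸ hb.1.iso⟩,
    union_comm M₁ M₂ ▸ hb.2⟩

theorem Best.p7 (hd : Dual s S G G') (hS : NoS G S) (hb : Best G G' S ∅ M₁ M₂) {z : V}
    (hz : z ∈ S) (hzM : z ∉ M₁ ∪ M₂) (hm : ∃ m ∈ M₁ ∪ M₂, G.Adj z m) {m : V} (hm1 : m ∈ M₁)
    (hs : s z ≠ s m) (hn : ¬ G.Adj z m) : HasP7 G S := by
  classical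
  by_contra hP
  have g := hb.1
  have hB : Bim G s S ∅ := fun _ _ _ t ht => absurd ht (notMem_empty t)
  have hE : ∀ t ∈ (∅ : Finset V), ∃ t' ∈ (∅ : Finset V), G.Adj t t' :=
    fun t ht => absurd ht (notMem_empty t)
  have an : ∀ {u v : V}, u ∈ M₂ → v ∈ M₁ → ¬ G.Adj u v := fun hu hv e => g.anti _ hv _ hu e.symm
  obtain ⟨y, hy, x, hx, y', hy', e1, e2, e3, e4⟩ := hb.path hd hB hE hz hzM hm
    subset_union_left g.cl₁ (Or.inl (empty_subset _)) hm1 hs hn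
  obtain ⟨y₂, hy₂, e₂⟩ := hb.touch hz hzM hm subset_union_right g.ne₂ g.cl₂
    (Or.inl (empty_subset _))
  obtain ⟨x₂, hx₂, f₂⟩ := g.iso₂ hy₂
  have hz2 : ∀ m ∈ M₂, s z ≠ s m → G.Adj z m := by
    intro m hm2 hs
    by_contra hn
    obtain ⟨u, hu, v, hv, u', hu', f1, f2, f3, f4⟩ := hb.path hd hB hE hz hzM hm
      subset_union_right g.cl₂ (Or.inl (empty_subset _)) hm2 hs hn
    exact hP ⟨y', g.s₁ hy', x, g.s₁ hx, y, g.s₁ hy, z, hz, u, g.s₂ hu, v, g.s₂ hv, u', g.s₂ hu',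
      e3.symm, e2.symm, e1.symm, f1, f2, f3, fun h => e4 h.symm, g.anti _ hy' _ hv,
      g.anti _ hx _ hu, g.anti _ hx _ hu', g.anti _ hy _ hv, f4⟩
  have hK2 : ∀ a ∈ M₂, ∀ b ∈ M₂, s a = s z → s a ≠ s b → G.Adj a b := by
    intro a ha b hb' h1 h2
    by_contra hn
    obtain ⟨b', h3, e⟩ := g.iso₂ ha
    exact hS z hz b (g.s₂ hb') b' (g.s₂ h3) a (g.s₂ ha) y (g.s₁ hy) x (g.s₁ hx) y' (g.s₁ hy')
      (hz2 b hb' (h1 ▸ h2)) (hz2 b' h3 (h1 ▸ hd.l _ (g.s₂ ha) _ (g.s₂ h3) e)) e.symm e1 e2 e3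
      (fun h => hn h.symm) (an hb' hx) (an h3 hx) (g.anti _ hy _ ha) (fun h => e4 h.symm)
      (g.anti _ hy' _ ha)
  have tw : ∀ u ∈ M₁, ∀ u' ∈ M₁, ∀ v ∈ M₁, G.Adj z u → ¬ G.Adj z u' → G.Adj u v → G.Adj v u' →
      ∀ w ∈ M₁, G.Adj u w ↔ G.Adj u' w := by
    intro u hu u' hu' v hv f1 f2 f3 f4 w hw
    constructor
    · intro h
      by_contra hn
      exact hS u (g.s₁ hu) w (g.s₁ hw) v (g.s₁ hv) u' (g.s₁ hu') z hz y₂ (g.s₂ hy₂) x₂ (g.s₂ hx₂)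
        h f3 f4 f1.symm e₂ f₂ (fun h => hn h.symm) (g.anti _ hw _ hy₂) (g.anti _ hv _ hy₂) f2
        (an hx₂ hu) (an hx₂ hu')
    · intro h
      by_contra hn
      exact hP ⟨x₂, g.s₂ hx₂, y₂, g.s₂ hy₂, z, hz, u, g.s₁ hu, v, g.s₁ hv, u', g.s₁ hu', w,
        g.s₁ hw, f₂.symm, e₂.symm, f1, f3, f4, h, an hx₂ hu, an hx₂ hu', an hy₂ hv, an hy₂ hw,
        f2, hn⟩
  have t0 := tw y hy y' hy' x hx e1 e4 e2 e3
  have tw2 : ∀ u ∈ M₁, ∀ v ∈ M₁, G.Adj y v → G.Adj u v → ∀ w ∈ M₁, G.Adj u w ↔ G.Adj y w := by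
    intro u hu v hv f1 f2 w hw
    by_cases h : G.Adj z u
    · rw [tw u hu y' hy' v hv h e4 f2 ((t0 v hv).1 f1).symm w hw, t0 w hw]
    · exact (tw y hy u hu v hv e1 h f1 f2.symm w hw).symm
  have hC : ∀ v ∈ M₁, G.Adj y v ∨ ∃ w ∈ M₁, G.Adj y w ∧ G.Adj v w := by
    by_contra hno
    let C := M₁.filter fun v => ¬ (G.Adj y v ∨ ∃ w ∈ M₁, G.Adj y w ∧ G.Adj v w)
    obtain ⟨c, hc, e⟩ := hb.touch hz hzM hm (C := C) ((filter_subset _ _).trans subset_union_left)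
      (by
        push Not at hno
        obtain ⟨v, hv, h⟩ := hno
        exact ⟨v, mem_filter.2 ⟨hv, by push Not; exact h⟩⟩)
      (by
        intro c hc m hm e
        rw [mem_filter] at hc
        have hm1 := g.cl₁ c hc.1 m hm e
        refine mem_filter.2 ⟨hm1, ?_⟩
        rintro (h | ⟨w, hw, h1, h2⟩)
        · exact hc.2 (Or.inr ⟨m, hm1, h, e⟩)
        · exact hc.2 (Or.inl ((tw2 m hm1 w hw h1 h2 c hc.1).1 e.symm)))
      (Or.inl (empty_subset _))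
    rw [mem_filter] at hc
    exact hS z hz c (g.s₁ hc.1) y₂ (g.s₂ hy₂) x₂ (g.s₂ hx₂) y (g.s₁ hy) x (g.s₁ hx) y' (g.s₁ hy')
      e e₂ f₂ e1 e2 e3 (g.anti _ hc.1 _ hx₂) (fun h => hc.2 (Or.inr ⟨x, hx, e2, h⟩)) (an hy₂ hx)
      (g.anti _ hy _ hx₂) (fun h => e4 h.symm) (g.anti _ hy' _ hx₂)
  have sy := hd.l _ hz _ (g.s₁ hy) e1
  have hK1 : ∀ a ∈ M₁, ∀ b ∈ M₁, s a = s z → s a ≠ s b → G.Adj a b := by
    intro a ha b hb' h1 h2
    have side : ∀ v ∈ M₁, ∀ w ∈ M₁, G.Adj y w → G.Adj v w → s v = s y := fun v hv w hw f1 f2 =>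
      bne3 (hd.l _ (g.s₁ hv) _ (g.s₁ hw) f2) (hd.l _ (g.s₁ hy) _ (g.s₁ hw) f1).symm
    rcases hC a ha with h3 | ⟨w, hw, f1, f2⟩
    · rcases hC b hb' with h4 | ⟨w, hw, f1, f2⟩
      · exact (h2 (bne3 (hd.l _ (g.s₁ hy) _ (g.s₁ ha) h3).symm
          (hd.l _ (g.s₁ hy) _ (g.s₁ hb') h4))).elim
      · exact ((tw2 b hb' w hw f1 f2 a ha).2 h3).symm
    · exact (sy (h1.symm.trans (side a ha w hw f1 f2))).elim
  let D := (M₁ ∪ M₂).filter fun v => (v ∈ M₁ ↔ s v = s z)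
  have hD : ∀ v, v ∈ D ↔ v ∈ M₁ ∪ M₂ ∧ (v ∈ M₁ ↔ s v = s z) := fun v => mem_filter
  have eD : D ∪ insert z ((M₁ ∪ M₂) \ D) = insert z (M₁ ∪ M₂) := by
    rw [union_insert, union_sdiff_of_subset (filter_subset _ _)]
  have sx : s x = s z := (bne3 sy (hd.l _ (g.s₁ hy) _ (g.s₁ hx) e2)).symm
  have := hb.2 D (insert z ((M₁ ∪ M₂) \ D)) (Or.inr ⟨eD ▸ insert_subset hz g.sub,
    disjoint_insert_right.2 ⟨fun h => hzM ((hD z).1 h).1, disjoint_sdiff⟩, empty_subset _,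
    ⟨x, (hD x).2 ⟨mem_union_left _ hx, iff_of_true hx sx⟩⟩, insert_nonempty _ _, ?_, ?_⟩)
  · rw [eD, card_insert_of_notMem hzM] at this
    omega
  · intro u hu v hv e
    obtain ⟨h1, h2⟩ := (hD u).1 hu
    have huS := g.sub h1
    rcases mem_insert.1 hv with rfl | hv
    · have h3 := hd.r _ huS _ hz e
      exact hd.non hz huS (hz2 u ((mem_union.1 h1).resolve_left fun h => h3 (h2.1 h)) h3.symm)
        e.symm
    · obtain ⟨h3, h4⟩ := mem_sdiff.1 hv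
      have h5 := hd.r _ huS _ (g.sub h3) e
      have h6 : ¬ (v ∈ M₁ ↔ s v = s z) := fun h => h4 ((hD v).2 ⟨h3, h⟩)
      by_cases h7 : u ∈ M₁
      · have h8 := h2.1 h7
        have h9 : v ∈ M₁ := by
          by_contra h
          exact h6 (iff_of_false h fun h' => h5 (h8.trans h'.symm))
        exact hd.non huS (g.sub h3) (hK1 u h7 v h9 h8 h5) e
      · have h8 : s v = s z := bne3 h5.symm fun h => h7 (h2.2 h)
        have h9 : v ∉ M₁ := fun h => h6 (iff_of_true h h8)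
        exact hd.non (g.sub h3) huS (hK2 v ((mem_union.1 h3).resolve_left h9) u
          ((mem_union.1 h1).resolve_left h7) h8 h5.symm) e.symm
  · rw [eD]
    intro u hu
    rcases mem_insert.1 hu with rfl | hu
    · exact ⟨m, mem_insert_of_mem (mem_union_left _ hm1), hd.co hz (g.s₁ hm1) hs hn⟩
    · obtain ⟨v, h1, h2⟩ := g.coiso hd u hu
      exact ⟨v, mem_insert_of_mem h1, h2⟩

theorem Best.split_or_p7 (hd : Dual s S G G') (hS : NoS G S) (hb : Best G G' S ∅ M₁ M₂) :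
    Split G s S ∨ HasP7 G S := by
  rw [or_iff_not_imp_right]
  intro hP
  refine hb.split hd fun z hz hzM hm m hmM hs => ?_
  by_contra hn
  rcases mem_union.1 hmM with h | h
  · exact hP (hb.p7 hd hS hz hzM hm h hs hn)
  · exact hP (hb.swap.p7 hd hS hz (union_comm M₁ M₂ ▸ hzM) (union_comm M₁ M₂ ▸ hm) h hs hn)

theorem split_or_p7 [Fintype V] (hd : Dual s S G G') (hS : NoS G S) (hc : 1 < S.card) :
    Split G s S ∨ HasP7 G S := by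
  classical
  by_cases h : ∃ N₁ N₂, GP G S ∅ N₁ N₂ ∨ GP G' S ∅ N₁ N₂
  · obtain ⟨M₁, M₂, hb | hb⟩ := exists_best h
    · exact hb.split_or_p7 hd hS
    · exact (hb.split_or_p7 hd.symm (hS.dual hd.symm)).imp (Split.dual hd) (HasP7.dual hd.symm)
  left
  have hone : ∀ v ∈ S, ∀ ρ : Prop, (∀ y ∈ S, s v ≠ s y → (G.Adj v y ↔ ρ)) → Split G s S := by
    intro v hv ρ h
    refine split_sub (singleton_subset_iff.2 hv) (singleton_nonempty v) ?_ (fun _ => ρ) ?_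
    · rintro rfl
      simp at hc
    · intro x hx y hy _ e
      rw [mem_singleton.1 hx] at e ⊢
      exact h y hy e
  obtain ⟨x, hx, hmax⟩ := exists_max_image S (fun v => (S.filter (G.Adj v)).card)
    (card_pos.1 (by omega))
  by_contra hno
  have h1 : ∃ y ∈ S, s x ≠ s y ∧ ¬ G.Adj x y := by
    by_contra h'
    push Not at h'
    exact hno (hone x hx True fun y hy e => iff_of_true (h' y hy e) trivial)
  obtain ⟨y, hy, hs, hn⟩ := h1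
  have h2 : ∃ x' ∈ S, G.Adj y x' := by
    by_contra h'
    push Not at h'
    exact hno (hone y hy False fun x' hx' _ => iff_of_false (h' x' hx') id)
  obtain ⟨x', hx', e⟩ := h2
  have h3 : ∃ y' ∈ S, G.Adj x y' ∧ ¬ G.Adj x' y' := by
    by_contra h'
    push Not at h'
    refine not_lt.2 (hmax x' hx') (card_lt_card ⟨fun v hv => ?_, fun h'' => ?_⟩)
    · rw [mem_filter] at hv ⊢
      exact ⟨hv.1, h' v hv.1 hv.2⟩
    · exact hn (mem_filter.1 (h'' (mem_filter.2 ⟨hy, e.symm⟩))).2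
  obtain ⟨y', hy', e', hn'⟩ := h3
  have s1 := hd.l _ hy _ hx' e
  have s2 := hd.l _ hx _ hy' e'
  have s3 := bne3 hs s1
  have s4 := bne3 hs.symm s2
  have := gp_pair (G := G) (S := S) (T := {x, y'})
    (insert_subset hx (singleton_subset_iff.2 hy')) (insert_nonempty _ _)
    (by simp [e', e'.symm]) hy hx'
    (by
      simp only [mem_insert, mem_singleton, not_or]
      exact ⟨fun h => hs (h ▸ rfl), fun h => hn (h ▸ e')⟩)
    (by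
      simp only [mem_insert, mem_singleton, not_or]
      exact ⟨fun h => hn (h ▸ e.symm), fun h => s2 (h ▸ s3)⟩) e
    (by
      simp only [mem_insert, mem_singleton, forall_eq_or_imp, forall_eq]
      exact ⟨fun h => hn h.symm, fun h => hd.l _ hy _ hy' h s4⟩)
    (by
      simp only [mem_insert, mem_singleton, forall_eq_or_imp, forall_eq]
      exact ⟨fun h => hd.l _ hx' _ hx h s3.symm, hn'⟩)
  exact h ⟨_, _, Or.inl ⟨this.sub, this.disj, empty_subset _, this.ne₁, this.ne₂, this.anti,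
    this.iso⟩⟩

end Pool.Agent.Lib.MP_042ec1_co
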