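import Mathlib
import Pool.Agent.Lib.MP_042ec1_co.DataSmall2

/-!
Families of induced paths on eight vertices.
-/

namespace Pool.Agent.Lib.MP_042ec1_co

open Finset

set_option synthInstance.maxSize 4000

variable {V : Type} {G : SimpleGraph V} {W : Finset V} {a b q : ℕ → V} {x z : V}

theorem cls_eq {A : SG} {X : ℕ} (hX : X < 2 ^ A.n)
    (h : ∀ i < A.n, (G.Adj x (a i) ↔ X.testBit i = true)) : cls G A a x = X := by
  refine Nat.eq_of_testBit_eq fun i => ?_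
  by_cases hi : i < A.n
  · rw [Bool.eq_iff_iff, testBit_cls hi, h i hi]
  · have : 2 ^ A.n ≤ 2 ^ i := Nat.pow_le_pow_right (by omega) (by omega)
    rw [Nat.testBit_lt_two_pow ((cls_lt x).trans_le this), Nat.testBit_lt_two_pow (hX.trans_le this)]

/-- An induced path on eight vertices. -/
structure IsP (G : SimpleGraph V) (W : Finset V) (a : ℕ → V) : Prop where
  mem : ∀ i < 8, a i ∈ W
  inj : ∀ i < 8, ∀ j < 8, a i = a j → i = j
  adj : ∀ i < 8, ∀ j < 8, (G.Adj (a i) (a j) ↔ i + 1 = j ∨ j + 1 = i)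

theorem IsP.real (h : IsP G W a) : Real G W gP8 a := by
  have e : ∀ i < 8, ∀ j < i, (gP8.adj i j = true ↔ i + 1 = j ∨ j + 1 = i) := by decide
  intro i hi
  change i < 8 at hi
  exact ⟨h.mem i hi, fun j hj => ⟨fun e => by have := h.inj i hi j (by omega) e; omega,
    by rw [e i hi j hj, h.adj i hi j (by omega)]⟩⟩

theorem Real.isP (h : Real G W gP8 a) : IsP G W a := by
  have e : ∀ i < 8, ∀ j < 8, (gP8.sym i j = true ↔ i + 1 = j ∨ j + 1 = i) := by decide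
  refine ⟨fun i hi => (h i hi).1, fun i hi j hj e => ?_, fun i hi j hj => ?_⟩
  · by_contra hne
    exact (h.sym hi hj hne).1 e
  · by_cases hij : i = j
    · subst hij
      exact iff_of_false G.irrefl (by omega)
    · rw [(h.sym hi hj hij).2, e i hi j hj]

/-- All but one of the vertices of `a` lie on `b`. -/
def Near (a b : ℕ → V) : Prop := ∃ j, ∀ i < 8, i ≠ j → ∃ i' < 8, b i' = a i

/-- A move to a neighbouring path. -/
def Mv (G : SimpleGraph V) (W : Finset V) (a b : ℕ → V) : Prop := IsP G W b ∧ Near a b ∧ Near b a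

/-- Paths reachable by moves. -/
def Fam (G : SimpleGraph V) (W : Finset V) (a b : ℕ → V) : Prop :=
  Relation.ReflTransGen (Mv G W) a b

theorem Fam.isP (ha : IsP G W a) (h : Fam G W a q) : IsP G W q := by
  induction h with
  | refl => exact ha
  | tail _ h _ => exact h.1

/-- `z` sees every second vertex of the path. -/
def AB (G : SimpleGraph V) (z : V) (a : ℕ → V) : Prop :=
  ∃ e < 2, ∀ i < 8, i % 2 = e → G.Adj z (a i)

theorem ab_of_cls (h : cls G gP8 a z = 85 ∨ cls G gP8 a z = 170) : AB G z a := by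
  rcases h with h | h
  · refine ⟨0, by omega, fun i hi e => (testBit_cls (A := gP8) hi).1 ?_⟩
    rw [h]
    revert i
    decide
  · refine ⟨1, by omega, fun i hi e => (testBit_cls (A := gP8) hi).1 ?_⟩
    rw [h]
    revert i
    decide

theorem out_or (hz : z ∈ W) (A : SG) (a : ℕ → V) : (∃ j < A.n, z = a j) ∨ Out W A a z := by
  by_cases h : ∃ j < A.n, z = a j
  · exact Or.inl h
  · exact Or.inr ⟨hz, fun i hi e => h ⟨i, hi, e⟩⟩

theorem ab_near (hF : Free G W fP8) (ha : IsP G W a) (hb : IsP G W b) (hn : Near a b)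
    (hz : z ∈ W) (h : AB G z a) : AB G z b := by
  obtain ⟨j, hn⟩ := hn
  obtain ⟨e, he, h⟩ := h
  have h3 : ∃ i₁ < 8, ∃ i₂ < 8, ∃ i₃ < 8, i₁ ≠ i₂ ∧ i₁ ≠ i₃ ∧ i₂ ≠ i₃ ∧ (i₁ ≠ j ∧ i₁ % 2 = e) ∧
      (i₂ ≠ j ∧ i₂ % 2 = e) ∧ (i₃ ≠ j ∧ i₃ % 2 = e) :=
    ⟨if e = j then e + 6 else e, by split_ifs <;> omega, if e + 2 = j then e + 6 else e + 2,
      by split_ifs <;> omega, if e + 4 = j then e + 6 else e + 4, by split_ifs <;> omega,
      by split_ifs <;> omega⟩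
  obtain ⟨i₁, h1, i₂, h2, i₃, h3, n1, n2, n3, g1, g2, g3⟩ := h3
  obtain ⟨k₁, l1, e1⟩ := hn i₁ h1 g1.1
  obtain ⟨k₂, l2, e2⟩ := hn i₂ h2 g2.1
  obtain ⟨k₃, l3, e3⟩ := hn i₃ h3 g3.1
  have a1 := e1 ▸ h i₁ h1 g1.2
  have a2 := e2 ▸ h i₂ h2 g2.2
  have a3 := e3 ▸ h i₃ h3 g3.2
  have m1 : k₁ ≠ k₂ := fun e => n1 (ha.inj _ h1 _ h2 (by rw [← e1, ← e2, e]))
  have m2 : k₁ ≠ k₃ := fun e => n2 (ha.inj _ h1 _ h3 (by rw [← e1, ← e3, e]))
  have m3 : k₂ ≠ k₃ := fun e => n3 (ha.inj _ h2 _ h3 (by rw [← e2, ← e3, e]))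
  rcases out_or hz gP8 b with ⟨m, hm, rfl⟩ | ho
  · rw [hb.adj m hm _ l1] at a1
    rw [hb.adj m hm _ l2] at a2
    rw [hb.adj m hm _ l3] at a3
    omega
  · have key : ∀ X ∈ jP8, ∀ k₁ < 8, X.testBit k₁ = true → ∀ k₂ < 8, X.testBit k₂ = true →
        ∀ k₃ < 8, X.testBit k₃ = true → k₁ ≠ k₂ → k₁ ≠ k₃ → k₂ ≠ k₃ → X = 85 ∨ X = 170 := by
      decide +kernel
    exact ab_of_cls (key _ (cls_mem hF hb.real clsP8 ho) _ l1 ((testBit_cls (A := gP8) l1).2 a1) _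
      l2 ((testBit_cls (A := gP8) l2).2 a2) _ l3 ((testBit_cls (A := gP8) l3).2 a3) m1 m2 m3)

theorem Fam.ab (hF : Free G W fP8) (ha : IsP G W a) (h : Fam G W a q) (hz : z ∈ W) :
    AB G z q ↔ AB G z a := by
  induction h with
  | refl => rfl
  | tail h1 h2 ih =>
    rw [← ih]
    exact ⟨ab_near hF h2.1 (Fam.isP ha h1) h2.2.2 hz, ab_near hF (Fam.isP ha h1) h2.1 h2.2.1 hz⟩

theorem IsP.not_ab (h : IsP G W a) {i : ℕ} (hi : i < 8) : ¬ AB G (a i) a := by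
  rintro ⟨e, he, h'⟩
  have h1 := (h.adj i hi _ (by omega)).1 (h' e (by omega) (by omega))
  have h2 := (h.adj i hi _ (by omega)).1 (h' (e + 4) (by omega) (by omega))
  omega

/-- Data for a move. -/
def Good (σ : ℕ → ℕ) (j X : ℕ) : Prop :=
  (∀ i < 8, i ≠ j → σ i < 8 ∧ (X.testBit (σ i) = true ↔ j + 1 = i ∨ i + 1 = j) ∧
    ∀ i' < 8, i' ≠ j → (σ i = σ i' → i = i') ∧
      (σ i + 1 = σ i' ∨ σ i' + 1 = σ i ↔ i + 1 = i' ∨ i' + 1 = i)) ∧
  ∃ j' < 8, ∀ i < 8, i ≠ j' → ∃ i' < 8, i' ≠ j ∧ σ i' = i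

instance (σ : ℕ → ℕ) (j X : ℕ) : Decidable (Good σ j X) := by
  unfold Good
  infer_instance

theorem mv_ext (ha : IsP G W a) {σ : ℕ → ℕ} {j X : ℕ} (hz : In G W gP8 a z X) (hg : Good σ j X) :
    Mv G W a fun i => if i = j then z else a (σ i) := by
  obtain ⟨g1, j', -, g2⟩ := hg
  have hb : ∀ i < 8, i ≠ j → (G.Adj z (a (σ i)) ↔ j + 1 = i ∨ i + 1 = j) := fun i hi hij => by
    rw [← (g1 i hi hij).2.1, ← hz.2, testBit_cls (A := gP8) (g1 i hi hij).1]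
  refine ⟨⟨fun i hi => ?_, fun i hi i' hi' => ?_, fun i hi i' hi' => ?_⟩, ⟨j', fun i hi hij => ?_⟩,
    j, fun i hi hij => ⟨σ i, (g1 i hi hij).1, (if_neg hij).symm⟩⟩
  · split_ifs with h
    · exact hz.1.1
    · exact ha.mem _ (g1 i hi h).1
  · split_ifs with h h' h'
    · omega
    · exact fun e => (hz.1.2 _ (g1 i' hi' h').1 e).elim
    · exact fun e => (hz.1.2 _ (g1 i hi h).1 e.symm).elim
    · exact fun e => ((g1 i hi h).2.2 i' hi' h').1 (ha.inj _ (g1 i hi h).1 _ (g1 i' hi' h').1 e)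
  · split_ifs with h h' h'
    · exact iff_of_false G.irrefl (by omega)
    · rw [hb i' hi' h', h]
    · rw [G.adj_comm, hb i hi h, h', or_comm]
    · rw [ha.adj _ (g1 i hi h).1 _ (g1 i' hi' h').1, ((g1 i hi h).2.2 i' hi' h').2]
  · obtain ⟨i', h1, h2, h3⟩ := g2 i hi hij
    exact ⟨i', h1, by simp only [if_neg h2, h3]⟩

theorem good_role : ∀ j < 8, Good id j (role j) := by decide +kernel

theorem good_left : ∀ X ∈ [1, 129], Good (fun i => i - 1) 0 X := by decide +kernel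

theorem good_right : ∀ X ∈ [128, 129], Good (fun i => i + 1) 7 X := by decide +kernel

theorem nbr_cases (hF : Free G W fP8) (hq : IsP G W q) (hz : z ∈ W) (hn : ¬ AB G z q) {i : ℕ}
    (hi : i < 8) (e : G.Adj z (q i)) :
    (∃ j < 8, (j + 1 = i ∨ i + 1 = j) ∧ (z = q j ∨ In G W gP8 q z (role j))) ∨
      (i = 0 ∧ ∃ X ∈ [1, 129], In G W gP8 q z X) ∨ (i = 7 ∧ ∃ X ∈ [128, 129], In G W gP8 q z X) := by
  rcases out_or hz gP8 q with ⟨m, hm, rfl⟩ | ho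
  · exact Or.inl ⟨m, hm, (hq.adj m hm i hi).1 e, Or.inl rfl⟩
  have key : ∀ X ∈ jP8, ∀ i < 8, X.testBit i = true → (X = 85 ∨ X = 170) ∨
      (∃ j < 8, (j + 1 = i ∨ i + 1 = j) ∧ X = role j) ∨ (i = 0 ∧ X ∈ [1, 129]) ∨
      (i = 7 ∧ X ∈ [128, 129]) := by decide +kernel
  rcases key _ (cls_mem hF hq.real clsP8 ho) i hi ((testBit_cls (A := gP8) hi).2 e) with
    h | ⟨j, h1, h2, h3⟩ | h | h
  · exact (hn (ab_of_cls h)).elim
  · exact Or.inl ⟨j, h1, h2, Or.inr ⟨ho, h3⟩⟩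
  · exact Or.inr (Or.inl ⟨h.1, _, h.2, ho, rfl⟩)
  · exact Or.inr (Or.inr ⟨h.1, _, h.2, ho, rfl⟩)

theorem role_bit : ∀ j < 8, role j < 2 ^ 8 ∧
    ∀ i < 8, ((role j).testBit i = true ↔ i + 1 = j ∨ j + 1 = i) := by decide +kernel

theorem twin_one (hF : Free G W fP8) (hq : IsP G W q) {j : ℕ} (hj : j < 8)
    (hx : In G W gP8 q x (role j)) (hz : z ∈ W) (hn : ¬ AB G z q) (e : G.Adj z x) :
    G.Adj z (q j) := by
  rcases out_or hz gP8 q with ⟨m, hm, rfl⟩ | ho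
  · rw [hq.adj m hm j hj, ← (role_bit j hj).2 m hm, ← hx.2, testBit_cls (A := gP8) hm]
    exact e.symm
  by_contra hc
  rw [← testBit_cls (A := gP8) hj] at hc
  obtain ⟨c, hc⟩ := chk_sound twP8 (j, cls G gP8 q z) (List.mem_filter.2
    ⟨List.pair_mem_product.2 ⟨List.mem_range.2 hj, cls_mem hF hq.real clsP8 ho⟩, by
      have h1 : cls G gP8 q z ≠ 85 := fun h => hn (ab_of_cls (Or.inl h))
      have h2 : cls G gP8 q z ≠ 170 := fun h => hn (ab_of_cls (Or.inr h))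
      simpa [h1, h2] using hc⟩)
  exact no2 hF hq.real hc hx ⟨ho, rfl⟩ (Ed.adj e rfl)

theorem twin_role (hF : Free G W fP8) (ha : IsP G W a) (hno : ∀ z ∈ W, ¬ AB G z a)
    (hq : Fam G W a q) {j : ℕ} (hj : j < 8) (hx : In G W gP8 q x (role j)) (hz : z ∈ W) :
    G.Adj z x ↔ G.Adj z (q j) := by
  have hq' := Fam.isP ha hq
  refine ⟨twin_one hF hq' hj hx hz fun h => hno z hz ((hq.ab hF ha hz).1 h), fun e => ?_⟩
  have hm := mv_ext hq' hx (good_role j hj)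
  have := twin_one hF hm.1 hj (x := q j) ⟨⟨hq'.mem j hj, fun i hi => ?_⟩,
    cls_eq (role_bit j hj).1 fun i hi => ?_⟩ hz
    (fun h => hno z hz ((Fam.ab hF ha (Relation.ReflTransGen.tail hq hm) hz).1 h)) e
  · simpa using this
  · beta_reduce
    split_ifs with h
    · exact (hx.1.2 j hj).symm
    · exact fun e => h (hq'.inj j hj i hi e).symm
  · rw [(role_bit j hj).2 i hi]
    split_ifs with h
    · rw [G.adj_comm, ← testBit_cls (A := gP8) hj, hx.2, (role_bit j hj).2 j hj, h]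
    · rw [id, hq'.adj j hj i hi, or_comm]

open Classical in
/-- The vertices on reachable paths. -/
noncomputable def Tset (G : SimpleGraph V) (W : Finset V) (a : ℕ → V) : Finset V :=
  W.filter fun v => ∃ q, Fam G W a q ∧ ∃ i < 8, q i = v

theorem Tset_sub : Tset G W a ⊆ W := by
  classical
  exact filter_subset _ _

theorem mem_Tset (ha : IsP G W a) {v : V} :
    v ∈ Tset G W a ↔ ∃ q, Fam G W a q ∧ ∃ i < 8, q i = v := by
  classical
  unfold Tset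
  rw [mem_filter]
  refine ⟨fun h => h.2, fun h => ⟨?_, h⟩⟩
  obtain ⟨q, h1, i, hi, rfl⟩ := h
  exact (Fam.isP ha h1).mem i hi

theorem not_ab_of_mem (hF : Free G W fP8) (ha : IsP G W a) (hz : z ∈ Tset G W a) : ¬ AB G z a := by
  obtain ⟨q, h1, i, hi, rfl⟩ := (mem_Tset ha).1 hz
  rw [← h1.ab hF ha (Tset_sub hz)]
  exact (Fam.isP ha h1).not_ab hi

theorem mem_of_adj (hF : Free G W fP8) (ha : IsP G W a) (hz : z ∈ W) (hn : ¬ AB G z a) {t : V}
    (ht : t ∈ Tset G W a) (e : G.Adj z t) : z ∈ Tset G W a := by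
  obtain ⟨q, hq, i, hi, rfl⟩ := (mem_Tset ha).1 ht
  have hq' := Fam.isP ha hq
  rw [mem_Tset ha]
  rcases nbr_cases hF hq' hz (fun h => hn ((hq.ab hF ha hz).1 h)) hi e with
    ⟨j, hj, -, rfl | h⟩ | ⟨-, X, hX, h⟩ | ⟨-, X, hX, h⟩
  · exact ⟨q, hq, j, hj, rfl⟩
  · exact ⟨_, hq.tail (mv_ext hq' h (good_role j hj)), j, hj, if_pos rfl⟩
  · exact ⟨_, hq.tail (mv_ext hq' h (good_left X hX)), 0, by omega, if_pos rfl⟩
  · exact ⟨_, hq.tail (mv_ext hq' h (good_right X hX)), 7, by omega, if_pos rfl⟩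

theorem wd_Tset [DecidableEq V] (hF : Free G W fP8) (ha : IsP G W a)
    (hno : ∀ z ∈ W, ¬ AB G z a) : Wd G (Tset G W a) 3 := by
  refine wd_twin_deg fun v hv => ?_
  have key : ∀ q, Fam G W a q → ∀ i < 8, (i = 0 → ¬ ∃ z, ∃ X ∈ [1, 129], In G W gP8 q z X) →
      (i = 7 → ¬ ∃ z, ∃ X ∈ [128, 129], In G W gP8 q z X) → ∃ u₁ u₂ : V, ∀ x ∈ Tset G W a,
      G.Adj (q i) x → (∀ z ∈ Tset G W a, G.Adj z x ↔ G.Adj z u₁) ∨
        (∀ z ∈ Tset G W a, G.Adj z x ↔ G.Adj z u₂) := by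
    intro q hq i hi h0 h7
    refine ⟨q (i - 1), q (i + 1), fun x hx e => ?_⟩
    have hxW := Tset_sub hx
    rcases nbr_cases hF (Fam.isP ha hq) hxW (fun h => hno x hxW ((hq.ab hF ha hxW).1 h)) hi e.symm
      with ⟨j, hj, h1, h2⟩ | h | h
    · have : ∀ z ∈ Tset G W a, G.Adj z x ↔ G.Adj z (q j) := by
        intro z hz
        rcases h2 with rfl | h2
        · rfl
        · exact twin_role hF ha hno hq hj h2 (Tset_sub hz)
      rcases h1 with rfl | rfl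
      · exact Or.inl this
      · exact Or.inr this
    · exact (h0 h.1 ⟨x, h.2⟩).elim
    · exact (h7 h.1 ⟨x, h.2⟩).elim
  obtain ⟨q, hq, i, hi, rfl⟩ := (mem_Tset ha).1 hv
  have hq' := Fam.isP ha hq
  by_cases h0 : i = 0 ∧ ∃ z, ∃ X ∈ [1, 129], In G W gP8 q z X
  · obtain ⟨rfl, z, X, hX, h⟩ := h0
    exact key _ (hq.tail (mv_ext hq' h (good_left X hX))) 1 (by omega) (by omega) (by omega)
  by_cases h7 : i = 7 ∧ ∃ z, ∃ X ∈ [128, 129], In G W gP8 q z X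
  · obtain ⟨rfl, z, X, hX, h⟩ := h7
    exact key _ (hq.tail (mv_ext hq' h (good_right X hX))) 6 (by omega) (by omega) (by omega)
  exact key q hq i hi (fun h h' => h0 ⟨h, h'⟩) fun h h' => h7 ⟨h, h'⟩

end Pool.Agent.Lib.MP_042ec1_co
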