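import Mathlib
import Pool.Agent.Lib.MP_042ec1_co.PathFam
import Pool.Agent.Lib.MP_042ec1_co.Canon2

/-!
Bipartite graphs without an induced `S₁,₂,₃` have bounded width.
-/

namespace Pool.Agent.Lib.MP_042ec1_co

open Finset

set_option synthInstance.maxSize 4000

variable {V : Type} {G G' : SimpleGraph V} {s : V → Bool} {S T W : Finset V} {a f : ℕ → V}

theorem Dual.mono (h : Dual s S G G') (hT : T ⊆ S) : Dual s T G G' :=
  ⟨fun x hx y hy => h.l x (hT hx) y (hT hy), fun x hx y hy => h.r x (hT hx) y (hT hy),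
    fun x hx y hy => h.c x (hT hx) y (hT hy)⟩

theorem NoS.mono (h : NoS G S) (hT : T ⊆ S) : NoS G T :=
  fun c hc a ha b₁ hb₁ b₂ hb₂ d₁ hd₁ d₂ hd₂ d₃ hd₃ =>
    h c (hT hc) a (hT ha) b₁ (hT hb₁) b₂ (hT hb₂) d₁ (hT hd₁) d₂ (hT hd₂) d₃ (hT hd₃)

theorem side_path (hl : ∀ x ∈ S, ∀ y ∈ S, G.Adj x y → s x ≠ s y) {n : ℕ}
    (hm : ∀ i < n, a i ∈ S) (he : ∀ i, i + 1 < n → G.Adj (a (i + 1)) (a i)) :
    ∀ i < n, ∀ j < n, (s (a i) = s (a j) ↔ i % 2 = j % 2) := by
  have key : ∀ i < n, (s (a i) = s (a 0) ↔ i % 2 = 0) := by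
    intro i
    induction i with
    | zero => simp
    | succ i ih =>
      intro hi
      have h1 := ih (by omega)
      have h2 := hl _ (hm _ hi) _ (hm i (by omega)) (he i hi)
      constructor
      · intro h
        have : ¬ i % 2 = 0 := fun h' => h2 (h.trans (h1.2 h').symm)
        omega
      · intro h
        exact bne3 h2 fun h' => by
          have := h1.1 h'
          omega
  intro i hi j hj
  have h1 := key i hi
  have h2 := key j hj
  constructor
  · intro h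
    rw [h, h2] at h1
    omega
  · intro h
    rw [h, ← h2] at h1
    revert h1
    cases s (a i) <;> cases s (a j) <;> cases s (a 0) <;> simp

theorem no_odd (hl : ∀ x ∈ S, ∀ y ∈ S, G.Adj x y → s x ≠ s y) {H : SG}
    (h : (∀ i < H.n, 0 < i → H.adj i (i - 1) = true) ∧ H.n % 2 = 1 ∧ H.adj (H.n - 1) 0 = true ∧
      1 < H.n) : ¬ Real G S H f := by
  intro hf
  obtain ⟨h1, h2, h3, h4⟩ := h
  have := side_path hl (fun i hi => (hf i hi).1)
    (fun i hi => ((hf _ hi).2 i (by omega)).2.2 (h1 _ hi (by omega))) (H.n - 1) (by omega) 0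
    (by omega)
  exact hl _ (hf _ (by omega)).1 _ (hf 0 (by omega)).1
    (((hf (H.n - 1) (by omega)).2 0 (by omega)).2.2 h3) (this.2 (by omega))

theorem free_of_bip (hl : ∀ x ∈ S, ∀ y ∈ S, G.Adj x y → s x ≠ s y) (hS : NoS G S) :
    Free G S fP8 := by
  intro T hT f hf
  simp only [fP8, List.mem_cons, List.not_mem_nil, or_false] at hT
  rcases hT with rfl | rfl | rfl | rfl
  · exact no_odd hl (by decide) hf
  · exact no_odd hl (by decide) hf
  · exact no_odd hl (by decide) hf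
  · have m : ∀ i < 7, f i ∈ S := fun i hi => (hf i hi).1
    have e : ∀ i j, i < 7 ∧ j < 7 ∧ i ≠ j ∧ gS123.sym i j = true → G.Adj (f i) (f j) :=
      fun i j h => (hf.sym h.1 h.2.1 h.2.2.1).2.2 h.2.2.2
    have n : ∀ i j, i < 7 ∧ j < 7 ∧ i ≠ j ∧ ¬ gS123.sym i j = true → ¬ G.Adj (f i) (f j) :=
      fun i j h h' => h.2.2.2 ((hf.sym h.1 h.2.1 h.2.2.1).2.1 h')
    exact hS _ (m 0 (by omega)) _ (m 1 (by omega)) _ (m 2 (by omega)) _ (m 3 (by omega)) _
      (m 4 (by omega)) _ (m 5 (by omega)) _ (m 6 (by omega)) (e _ _ (by decide))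
      (e _ _ (by decide)) (e _ _ (by decide)) (e _ _ (by decide)) (e _ _ (by decide))
      (e _ _ (by decide)) (n _ _ (by decide)) (n _ _ (by decide)) (n _ _ (by decide))
      (n _ _ (by decide)) (n _ _ (by decide)) (n _ _ (by decide))

theorem ne_of_adj {x y z : V} (h : G.Adj x z) (h' : ¬ G.Adj y z) : x ≠ y := fun e => h' (e ▸ h)

theorem nos_of_free (hl : ∀ x ∈ S, ∀ y ∈ S, G.Adj x y → s x ≠ s y)
    (hF : ∀ f, ¬ Real G S gS123 f) : NoS G S := by
  intro c hc a ha b₁ hb₁ b₂ hb₂ d₁ hd₁ d₂ hd₂ d₃ hd₃ e1 e2 e3 e4 e5 e6 n1 n2 n3 n4 n5 n6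
  have s1 := hl _ hc _ ha e1
  have s2 := hl _ hc _ hb₁ e2
  have s3 := bne3 s2 (hl _ hb₁ _ hb₂ e3)
  have s4 := hl _ hc _ hd₁ e4
  have s5 := bne3 s4 (hl _ hd₁ _ hd₂ e5)
  have s6 : s c ≠ s d₃ := s5 ▸ hl _ hd₂ _ hd₃ e6
  have same : ∀ {x y : V}, x ∈ S → y ∈ S → s x = s y → x ≠ y → Ed G x y false :=
    fun hx hy h hne => Ed.non hne (fun e => hl _ hx _ hy e h) rfl
  have diff : ∀ {x y : V}, s x ≠ s y → ¬ G.Adj x y → Ed G x y false :=
    fun h hn => Ed.non (fun e => h (e ▸ rfl)) hn rfl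
  refine hF (fun e => [c, a, b₁, b₂, d₁, d₂, d₃].getD e c) fun i hi => ?_
  change i < 7 at hi
  have e10 : Ed G a c true := Ed.adj e1.symm rfl
  have e20 : Ed G b₁ c true := Ed.adj e2.symm rfl
  have e21 : Ed G b₁ a false := same hb₁ ha (bne3 s2.symm s1) (ne_of_adj e3 n1)
  have e30 : Ed G b₂ c false :=
    same hb₂ hc s3.symm (ne_of_adj e4 fun h => n4 h.symm).symm
  have e31 : Ed G b₂ a false := diff (s3 ▸ s1) fun h => n1 h.symm
  have e32 : Ed G b₂ b₁ true := Ed.adj e3.symm rfl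
  have e40 : Ed G d₁ c true := Ed.adj e4.symm rfl
  have e41 : Ed G d₁ a false := same hd₁ ha (bne3 s4.symm s1) (ne_of_adj e5 n2)
  have e42 : Ed G d₁ b₁ false := same hd₁ hb₁ (bne3 s4.symm s2) (ne_of_adj e5 n3)
  have e43 : Ed G d₁ b₂ false := diff (s3 ▸ s4.symm) n4
  have e50 : Ed G d₂ c false :=
    same hd₂ hc s5.symm (ne_of_adj e1 fun h => n2 h.symm).symm
  have e51 : Ed G d₂ a false := diff (s5 ▸ s1) fun h => n2 h.symm
  have e52 : Ed G d₂ b₁ false := diff (s5 ▸ s2) fun h => n3 h.symm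
  have e53 : Ed G d₂ b₂ false :=
    same hd₂ hb₂ (s5.symm.trans s3) (ne_of_adj e3.symm fun h => n3 h.symm).symm
  have e54 : Ed G d₂ d₁ true := Ed.adj e5.symm rfl
  have e60 : Ed G d₃ c false := diff s6.symm n5
  have e61 : Ed G d₃ a false := same hd₃ ha (bne3 s6.symm s1) (ne_of_adj e1.symm n5).symm
  have e62 : Ed G d₃ b₁ false := same hd₃ hb₁ (bne3 s6.symm s2) (ne_of_adj e2.symm n5).symm
  have e63 : Ed G d₃ b₂ false := diff (s3 ▸ s6.symm) n6
  have e64 : Ed G d₃ d₁ false := same hd₃ hd₁ (bne3 s6.symm s4) (ne_of_adj e4.symm n5).symm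
  have e65 : Ed G d₃ d₂ true := Ed.adj e6.symm rfl
  interval_cases i <;> refine ⟨by assumption, fun e' he' => ?_⟩ <;> interval_cases e' <;> assumption

theorem HasP7.real (hl : ∀ x ∈ S, ∀ y ∈ S, G.Adj x y → s x ≠ s y) (h : HasP7 G S) :
    ∃ a, Real G S gP7 a := by
  obtain ⟨p0, h0, p1, h1, p2, h2, p3, h3, p4, h4, p5, h5, p6, h6, e1, e2, e3, e4, e5, e6, n1, n2,
    n3, n4, n5, n6⟩ := h
  have s1 := hl _ h0 _ h1 e1
  have s2 := hl _ h1 _ h2 e2
  have s3 := hl _ h2 _ h3 e3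
  have s4 := hl _ h3 _ h4 e4
  have s5 := hl _ h4 _ h5 e5
  have s6 := hl _ h5 _ h6 e6
  have t2 := bne3 s1 s2
  have t3 := bne3 s2 s3
  have t4 := bne3 s3 s4
  have t5 := bne3 s4 s5
  have t6 := bne3 s5 s6
  have same : ∀ {x y z : V}, x ∈ S → y ∈ S → s y = s x → G.Adj x z → ¬ G.Adj y z →
      Ed G x y false :=
    fun hx hy h e n => Ed.non (ne_of_adj e n) (fun e => hl _ hx _ hy e h.symm) rfl
  have diff : ∀ {x y : V}, s y ≠ s x → ¬ G.Adj y x → Ed G x y false :=
    fun h hn => Ed.non (fun e => h (e ▸ rfl)) (fun e => hn e.symm) rfl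
  refine ⟨fun e => [p0, p1, p2, p3, p4, p5, p6].getD e p0, fun i hi => ?_⟩
  change i < 7 at hi
  have e10 : Ed G p1 p0 true := Ed.adj e1.symm rfl
  have e20 : Ed G p2 p0 false := same h2 h0 t2 e3 n1
  have e21 : Ed G p2 p1 true := Ed.adj e2.symm rfl
  have e30 : Ed G p3 p0 false := diff (t2 ▸ s3) n1
  have e31 : Ed G p3 p1 false := same h3 h1 t3 e4 n3
  have e32 : Ed G p3 p2 true := Ed.adj e3.symm rfl
  have e40 : Ed G p4 p0 false := same h4 h0 (t2.trans t4) e5 n2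
  have e41 : Ed G p4 p1 false := diff (t3 ▸ s4) n3
  have e42 : Ed G p4 p2 false := same h4 h2 t4 e5 n5
  have e43 : Ed G p4 p3 true := Ed.adj e4.symm rfl
  have e50 : Ed G p5 p0 false := diff (t2 ▸ t4 ▸ s5) n2
  have e51 : Ed G p5 p1 false := same h5 h1 (t3.trans t5) e6 n4
  have e52 : Ed G p5 p2 false := diff (t4 ▸ s5) n5
  have e53 : Ed G p5 p3 false := same h5 h3 t5 e6 n6
  have e54 : Ed G p5 p4 true := Ed.adj e5.symm rfl
  have e60 : Ed G p6 p0 false := same h6 h0 (t2.trans (t4.trans t6)) e6.symm n2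
  have e61 : Ed G p6 p1 false := diff (t3 ▸ t5 ▸ s6) n4
  have e62 : Ed G p6 p2 false := same h6 h2 (t4.trans t6) e6.symm n5
  have e63 : Ed G p6 p3 false := diff (t5 ▸ s6) n6
  have e64 : Ed G p6 p4 false :=
    Ed.non (ne_of_adj e4.symm fun h => n6 h.symm).symm (fun e => hl _ h6 _ h4 e t6.symm) rfl
  have e65 : Ed G p6 p5 true := Ed.adj e6.symm rfl
  interval_cases i <;> refine ⟨by assumption, fun e' he' => ?_⟩ <;> interval_cases e' <;> assumption

theorem real_co (hd : Dual s S G G') (hf : Real G S gcoP8 f) : Real G' S gP8 f := by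
  have k1 : ∀ i < 7, 3 * (i + 1) % 8 ≠ 3 * i % 8 ∧
      gcoP8.sym (3 * (i + 1) % 8) (3 * i % 8) = true := by decide
  have k2 : ∀ i < 8, ∀ j < i, (gP8.adj i j = true ↔ i % 2 ≠ j % 2 ∧ ¬ gcoP8.adj i j = true) := by
    decide
  have hs := side_path (a := fun i => f (3 * i % 8)) (n := 8) hd.l
    (fun i _ => (hf _ (Nat.mod_lt _ (by decide))).1) fun i hi =>
      (hf.sym (Nat.mod_lt _ (by decide)) (Nat.mod_lt _ (by decide)) (k1 i (by omega)).1).2.2
        (k1 i (by omega)).2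
  intro i hi
  change i < 8 at hi
  refine ⟨(hf i hi).1, fun j hj => ⟨((hf i hi).2 j hj).1, ?_⟩⟩
  have h1 := hs (3 * i % 8) (by omega) (3 * j % 8) (by omega)
  have e1 : 3 * (3 * i % 8) % 8 = i := by omega
  have e2 : 3 * (3 * j % 8) % 8 = j := by omega
  have e3 : 3 * i % 8 % 2 = 3 * j % 8 % 2 ↔ i % 2 = j % 2 := by omega
  simp only [e1, e2, e3] at h1
  have hj' := (hf j (hj.trans hi)).1
  rw [k2 i hi j hj, ← ((hf i hi).2 j hj).2, ne_eq, ← h1]
  exact ⟨fun h => ⟨hd.r _ (hf i hi).1 _ hj' h, hd.symm.non (hf i hi).1 hj' h⟩,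
    fun h => hd.co (hf i hi).1 hj' h.1 h.2⟩

variable [DecidableEq V]

open Classical in
theorem wd_out {A : SG} {K : ℕ} (hA : Real G W A a) (hK : 1 ≤ K)
    (h : Wd G (W.filter (Out W A a)) K) : Wd G W (2 ^ A.n * K) := by
  have := wd_anchor hK h fun v hv => (mem_filter.1 hv).2
  have e : (range A.n).image a ∪ W.filter (Out W A a) = W := by
    ext x
    simp only [mem_union, mem_image, mem_range, mem_filter]
    constructor
    · rintro (⟨i, hi, rfl⟩ | h)
      · exact (hA i hi).1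
      · exact h.1
    · intro hx
      rcases out_or hx A a with ⟨i, hi, rfl⟩ | h
      · exact Or.inl ⟨i, hi, rfl⟩
      · exact Or.inr ⟨hx, h⟩
  rwa [e] at this

variable [Fintype V]

theorem wd_P8 (hd : Dual s S G G') (hS : NoS G S) (hns : ¬ Split G s S) (ha : IsP G S a) :
    Wd G S 3 := by
  have hF := free_of_bip hd.l hS
  have side : ∀ q, Fam G S a q → ∀ i < 8, ∀ j < 8, (s (q i) = s (q j) ↔ i % 2 = j % 2) :=
    fun q hq => side_path hd.l (hq.isP ha).mem fun i hi =>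
      ((hq.isP ha).adj _ hi _ (by omega)).2 (Or.inr rfl)
  have hT : Tset G S a = S := by
    by_contra hne
    refine hns (split_of_bim hd hS Tset_sub
      ⟨a 0, (mem_Tset ha).2 ⟨a, Relation.ReflTransGen.refl, 0, by omega, rfl⟩⟩ hne ?_ ?_ ?_)
    · intro z hz hzT t ht t' ht' h e
      have h1 : AB G z a := by
        by_contra hn
        exact hzT (mem_of_adj hF ha hz hn ht e)
      have h2 := hd.l z hz t (Tset_sub ht) e
      obtain ⟨q, hq, i, hi, rfl⟩ := (mem_Tset ha).1 ht'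
      obtain ⟨m, hm, h3⟩ := (hq.ab hF ha hz).2 h1
      have h4 := hd.l z hz _ ((hq.isP ha).mem m (by omega)) (h3 m (by omega) (by omega))
      have h5 := (side q hq i hi m (by omega)).1 (h ▸ bne3 h2.symm h4)
      exact h3 i hi (by omega)
    · intro t ht
      obtain ⟨q, hq, i, hi, rfl⟩ := (mem_Tset ha).1 ht
      have hj : (if i < 7 then i + 1 else 6) < 8 := by split_ifs <;> omega
      exact ⟨_, (mem_Tset ha).2 ⟨q, hq, _, hj, rfl⟩,
        ((hq.isP ha).adj i hi _ hj).2 (by split_ifs <;> omega)⟩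
    · intro t ht
      obtain ⟨q, hq, i, hi, rfl⟩ := (mem_Tset ha).1 ht
      have hj : (if i < 5 then i + 3 else i - 3) < 8 := by split_ifs <;> omega
      refine ⟨_, (mem_Tset ha).2 ⟨q, hq, _, hj, rfl⟩, hd.co ((hq.isP ha).mem i hi)
        ((hq.isP ha).mem _ hj) ?_ ?_⟩
      · rw [ne_eq, side q hq i hi _ hj]
        split_ifs <;> omega
      · rw [(hq.isP ha).adj i hi _ hj]
        split_ifs <;> omega
  have := wd_Tset hF ha fun z hz => not_ab_of_mem hF ha (hT.symm ▸ hz)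
  rwa [hT] at this

theorem wd_P7 (hd : Dual s S G G') (hS : NoS G S) (hns : ¬ Split G s S) (hF : Free G S fP7)
    (hA : Real G S gP7 a) : Wd G S (2 ^ 7 * 2 ^ 7) := by
  classical
  have hK : gK3 ∈ fP7 := by simp [fP7]
  have hm : ∀ i < 7, a i ∈ S := fun i hi => (hA i hi).1
  have k1 : ∀ i < 7, ∀ j < 7, i ≠ j → (gP7.sym i j = true ↔ i + 1 = j ∨ j + 1 = i) := by decide
  have hadj : ∀ i < 7, ∀ j < 7, i ≠ j → (G.Adj (a i) (a j) ↔ i + 1 = j ∨ j + 1 = i) :=
    fun i hi j hj h => by rw [(hA.sym hi hj h).2, k1 i hi j hj h]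
  have side := side_path hd.l hm fun i hi =>
    (hadj _ hi _ (by omega) (by omega)).2 (Or.inr rfl)
  have bit : ∀ {z : V} {i : ℕ}, i < 7 → ((cls G gP7 a z).testBit i = true ↔ G.Adj z (a i)) :=
    fun hi => testBit_cls (A := gP7) hi
  let T := S.filter fun v => ¬ (Out S gP7 a v ∧ cls G gP7 a v ∈ [0, 42, 85])
  have hTa : ∀ i < 7, a i ∈ T := fun i hi => mem_filter.2 ⟨hm i hi, fun h => h.1.2 i hi rfl⟩
  have hT1 : ∀ t ∈ T, (∃ i < 7, t = a i) ∨ (Out S gP7 a t ∧ cls G gP7 a t ∈ jMx) := by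
    intro t ht
    rw [mem_filter] at ht
    refine (out_or ht.1 gP7 a).imp_right fun h => ⟨h, ?_⟩
    have key : ∀ X ∈ jP7, X ∈ [0, 42, 85] ∨ X ∈ jMx := by decide
    exact (key _ (cls_mem hF hA clsP7 h)).resolve_left fun h' => ht.2 ⟨h, h'⟩
  have hT : T = S := by
    by_contra hne
    refine hns (split_of_bim hd hS (filter_subset _ _) ⟨_, hTa 0 (by omega)⟩ hne ?_ ?_ ?_)
    · intro z hz hzT t ht t' ht' h e
      have h1 : Out S gP7 a z ∧ cls G gP7 a z ∈ [0, 42, 85] := by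
        by_contra hc
        exact hzT (mem_filter.2 ⟨hz, hc⟩)
      have h2 : s z ≠ s t' := h ▸ hd.l z hz t (mem_filter.1 ht).1 e
      rcases List.mem_cons.1 h1.2 with h0 | h0
      · exfalso
        rcases hT1 t ht with ⟨i, hi, rfl⟩ | h3
        · exact not_adj_zero h0 hi e
        · exact ok2_non hF hA p7U h3.1 h1.1 (List.pair_mem_product.2 ⟨h3.2, by simp [h0]⟩) e.symm
      rcases hT1 t' ht' with ⟨i, hi, rfl⟩ | h3
      · have key : ∀ Y ∈ [42, 85], ∀ i < 7, Y.testBit i = true ∨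
            ∃ k < 7, Y.testBit k = true ∧ ¬ k % 2 = i % 2 := by decide
        rcases key _ h0 i hi with h4 | ⟨k, hk, h4, h5⟩
        · exact (bit hi).1 h4
        · rw [← side k hk i hi] at h5
          exact (h2 (bne3 (hd.l z hz _ (hm k hk) ((bit hk).1 h4)) h5)).elim
      · have key : ∀ X ∈ jMx, ∀ Y ∈ [42, 85], (X &&& Y == 0) = true ∨
            ∃ k < 7, X.testBit k = true ∧ Y.testBit k = true := by decide
        rcases key _ h3.2 _ h0 with h4 | ⟨k, hk, h4, h5⟩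
        · exact (ok2_adj hF hA p7C h3.1 h1.1
            (List.mem_filter.2 ⟨List.pair_mem_product.2 ⟨h3.2, h0⟩, h4⟩)
            fun h => h2 (h ▸ rfl)).symm
        · exact (h2 (bne3 (hd.l z hz _ (hm k hk) ((bit hk).1 h5))
            (hd.l t' h3.1.1 _ (hm k hk) ((bit hk).1 h4)).symm)).elim
    · intro t ht
      rcases hT1 t ht with ⟨i, hi, rfl⟩ | h3
      · have hj : (if i < 6 then i + 1 else 5) < 7 := by split_ifs <;> omega
        exact ⟨_, hTa _ hj, (hadj i hi _ hj (by split_ifs <;> omega)).2 (by split_ifs <;> omega)⟩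
      · have key : ∀ X ∈ jMx, ∃ k < 7, X.testBit k = true := by decide
        obtain ⟨k, hk, h4⟩ := key _ h3.2
        exact ⟨_, hTa k hk, (bit hk).1 h4⟩
    · intro t ht
      rcases hT1 t ht with ⟨i, hi, rfl⟩ | h3
      · have hj : (if i < 4 then i + 3 else i - 3) < 7 := by split_ifs <;> omega
        refine ⟨_, hTa _ hj, hd.co (hm i hi) (hm _ hj) ?_ ?_⟩
        · rw [ne_eq, side i hi _ hj]
          split_ifs <;> omega
        · rw [hadj i hi _ hj (by split_ifs <;> omega)]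
          split_ifs <;> omega
      · have key : ∀ X ∈ jMx, ∃ k < 7, ∃ i < 7, X.testBit k = true ∧ ¬ X.testBit i = true ∧
            k % 2 = i % 2 := by decide
        obtain ⟨k, hk, i, hi, h4, h5, h6⟩ := key _ h3.2
        rw [← side k hk i hi] at h6
        exact ⟨_, hTa i hi, hd.co h3.1.1 (hm i hi)
          (h6 ▸ hd.l t h3.1.1 _ (hm k hk) ((bit hk).1 h4)) fun h => h5 ((bit hi).2 h)⟩
  have hJ : ∀ v, Out S gP7 a v → cls G gP7 a v ∈ jMx := by
    intro v hv
    rcases hT1 v (hT.symm ▸ hv.1) with ⟨i, hi, e⟩ | h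
    · exact (hv.2 i hi e).elim
    · exact h.2
  have hind : ∀ x y, Out S gP7 a x → Out S gP7 a y → cls G gP7 a x = cls G gP7 a y →
      ¬ G.Adj x y := fun x y hx hy e => ind_ne_zero hF hK hA hx.1 hy.1 e fun h0 =>
    absurd (h0 ▸ hJ x hx) (by decide)
  have one : ∀ x y z, Out S gP7 a x → Out S gP7 a y → Out S gP7 a z →
      cls G gP7 a x = cls G gP7 a y → y ≠ z → G.Adj x z → G.Adj y z := by
    intro x y z hx hy hz e hne h
    by_contra hn
    have h1 : cls G gP7 a x ≠ cls G gP7 a z := fun h' => hind x z hx hz h' h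
    refine ok3_no hF hA p7T hx hy hz (List.mem_map.2 ⟨(cls G gP7 a x, cls G gP7 a z),
      List.mem_filter.2 ⟨List.pair_mem_product.2 ⟨hJ x hx, hJ z hz⟩, by simpa using h1⟩,
      by rw [← e]⟩) (Ed.non (ne_of_adj h hn).symm (hind y x hy hx e.symm) rfl)
      (Ed.adj h.symm rfl) (Ed.non hne.symm (fun h => hn h.symm) rfl)
  have := wd_group (G := G) (W := S.filter (Out S gP7 a)) le_rfl
    (fun x => (⟨cls G gP7 a x, cls_lt x⟩ : Fin (2 ^ gP7.n))) id
    (fun x hx y hy z hz e h1 h2 => by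
      rw [mem_filter] at hx hy hz
      have e' := congrArg Fin.val e
      exact ⟨one x y z hx.2 hy.2 hz.2 e' h2, one y x z hy.2 hx.2 hz.2 e'.symm h1⟩)
    (fun γ => dec_of_card_le_one (card_le_one.2 fun a ha b hb =>
      (mem_filter.1 ha).2.trans (mem_filter.1 hb).2.symm))
  rw [Fintype.card_fin, one_mul] at this
  exact wd_out hA (by decide) this

theorem wd_indec (hd : Dual s S G G') (hS : NoS G S) (hns : ¬ Split G s S) :
    Wd G S (2 ^ 7 * 2 ^ 7) := by
  by_cases hc : S.card ≤ 1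
  · exact dec_of_card_le_one hc
  obtain ⟨a, hA⟩ := ((split_or_p7 hd hS (by omega)).resolve_left hns).real hd.l
  by_cases h1 : ∃ f, Real G S gP8 f
  · obtain ⟨f, hf⟩ := h1
    exact (wd_P8 hd hS hns hf.isP).mono (by omega)
  by_cases h2 : ∃ f, Real G' S gP8 f
  · obtain ⟨f, hf⟩ := h2
    have := Dec.transfer (G' := G) (W' := S)
      (wd_P8 hd.symm (hS.dual hd.symm) (fun h => hns (h.dual hd)) hf.isP) s
      (fun x hx y hy e z hz _ h => by
        by_cases h3 : s x = s z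
        · exact iff_of_false (fun h => hd.l x hx z hz h h3) fun h => hd.l y hy z hz h (e ▸ h3)
        · rw [hd.c x hx z hz h3, hd.c y hy z hz (e ▸ h3), h])
      fun _ _ _ _ _ _ h h' => (h' h).elim
    exact Dec.mono this (by simp)
  refine wd_P7 hd hS hns (fun T hT => ?_) hA
  have hF := free_of_bip hd.l hS
  simp only [fP7, List.mem_cons, List.not_mem_nil, or_false] at hT
  rcases hT with rfl | rfl | rfl | rfl | rfl | rfl
  · exact hF _ (by simp [fP8])
  · exact hF _ (by simp [fP8])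
  · exact hF _ (by simp [fP8])
  · exact hF _ (by simp [fP8])
  · exact fun f hf => h1 ⟨f, hf⟩
  · exact fun f hf => h2 ⟨f, real_co hd hf⟩

theorem thmB (hF : ∀ f, ¬ Real G W gS123 f) : BipOK G W (2 ^ 7 * 2 ^ 7 * 2) := by
  intro W' hW' s hl
  let G' : SimpleGraph V :=
    { Adj := fun u v => s u ≠ s v ∧ ¬ G.Adj u v
      symm := ⟨fun u v h => ⟨h.1.symm, fun h' => h.2 h'.symm⟩⟩
      loopless := ⟨fun u h => h.1 rfl⟩ }
  have hd : Dual s W' G G' := ⟨hl, fun x _ y _ h => h.1, fun x _ y _ h =>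
    ⟨fun e e' => e'.2 e, fun e => by_contra fun e' => e ⟨h, e'⟩⟩⟩
  have hS : NoS G W' := nos_of_free hl fun f hf => hF f (hf.mono hW')
  have key : ∀ S : Finset V, S ⊆ W' →
      (∀ x ∈ S, ∀ y ∈ S, s x = s y → ∀ z ∈ W', z ∉ S → (G.Adj x z ↔ G.Adj y z)) →
      Dec G W' (2 ^ 7 * 2 ^ 7 * 2) S := by
    intro S
    induction S using Finset.strongInduction with
    | H S ih =>
    intro hSW hb
    by_cases hsp : Split G s S
    · obtain ⟨S₁, S₂, h1, rfl, h3, h4, ρ, h5⟩ := hsp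
      have hS1 : S₁ ⊆ W' := subset_union_left.trans hSW
      have hS2 : S₂ ⊆ W' := subset_union_right.trans hSW
      refine Dec.union _ _ h1 (ih S₁ ?_ hS1 fun x hx y hy e z hz hz' => ?_)
        (ih S₂ ?_ hS2 fun x hx y hy e z hz hz' => ?_) ⟨Bool, inferInstance, s, by simp, hb⟩
      · obtain ⟨v, hv⟩ := h4
        exact ⟨subset_union_left, fun h => disjoint_left.1 h1 (h (mem_union_right _ hv)) hv⟩
      · by_cases h6 : z ∈ S₂
        · by_cases h7 : s x = s z
          · exact iff_of_false (fun h => hl x (hS1 hx) z hz h h7)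
              fun h => hl y (hS1 hy) z hz h (e ▸ h7)
          · rw [h5 x hx z h6 h7, h5 y hy z h6 (e ▸ h7), e]
        · exact hb x (mem_union_left _ hx) y (mem_union_left _ hy) e z hz (by simp [hz', h6])
      · obtain ⟨v, hv⟩ := h3
        exact ⟨subset_union_right, fun h => disjoint_left.1 h1 hv (h (mem_union_left _ hv))⟩
      · by_cases h6 : z ∈ S₁
        · by_cases h7 : s z = s x
          · exact iff_of_false (fun h => hl x (hS2 hx) z hz h h7.symm)
              fun h => hl y (hS2 hy) z hz h (e ▸ h7.symm)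
          · rw [G.adj_comm x, G.adj_comm y, h5 z h6 x hx h7, h5 z h6 y hy (e ▸ h7)]
        · exact hb x (mem_union_right _ hx) y (mem_union_right _ hy) e z hz (by simp [hz', h6])
    · have := Dec.transfer (G' := G) (W' := W') (wd_indec (hd.mono hSW) (hS.mono hSW) hsp) s
        (fun _ _ _ _ _ _ _ _ h => h) hb
      rwa [Fintype.card_bool] at this
  exact key W' Subset.rfl fun _ _ _ _ _ _ h h' => (h' h).elim

end Pool.Agent.Lib.MP_042ec1_co
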