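import Mathlib
import Pool.Agent.Lib.MP_042ec1_co.Width

/-!
Ramsey extraction of homogeneous patterns, and the splitting argument.
-/

namespace Pool.Agent.Lib.MP_042ec1_co

open Finset

theorem ramsey_aux {C : Type} [Fintype C] [DecidableEq C] (n : ℕ) :
    ∀ t : C → ℕ, ∑ κ, t κ = n → ∃ N : ℕ, ∀ (α : Type) (χ : α → α → C) (l : List α),
      N ≤ l.length → ∃ κ, ∃ l' : List α, l'.Sublist l ∧ l'.length = t κ ∧
        l'.Pairwise fun a b => χ a b = κ := by
  induction n using Nat.strong_induction_on with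
  | _ n ih =>
    intro t ht
    by_cases h0 : ∃ κ, t κ = 0
    · obtain ⟨κ, hκ⟩ := h0
      exact ⟨0, fun α χ l _ => ⟨κ, [], List.nil_sublist _, hκ.symm, List.Pairwise.nil⟩⟩
    push Not at h0
    have hex : ∀ κ, ∃ N : ℕ, ∀ (α : Type) (χ : α → α → C) (l : List α),
        N ≤ l.length → ∃ κ', ∃ l' : List α, l'.Sublist l ∧
          l'.length = Function.update t κ (t κ - 1) κ' ∧ l'.Pairwise fun a b => χ a b = κ' := by
      intro κ
      refine ih _ ?_ _ rfl
      rw [← ht]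
      apply sum_lt_sum
      · intro i _
        by_cases h : i = κ
        · subst h
          simp
        · simp [Function.update_of_ne h]
      · refine ⟨κ, mem_univ _, ?_⟩
        have := h0 κ
        simp only [Function.update_self]
        omega
    choose N hN using hex
    refine ⟨∑ κ, N κ + 2, fun α χ l hl => ?_⟩
    match l, hl with
    | a :: l, hl =>
      have hsum : ∑ κ, (l.filter fun b => χ a b = κ).length = l.length := by
        clear hl
        induction l with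
        | nil => simp
        | cons b l ihl =>
          simp only [List.filter_cons, decide_eq_true_eq, List.length_cons]
          rw [← ihl]
          have : ∀ κ, (if χ a b = κ then b :: l.filter fun b => χ a b = κ
              else l.filter fun b => χ a b = κ).length
              = (l.filter fun b => χ a b = κ).length + if χ a b = κ then 1 else 0 := by
            intro κ
            split_ifs <;> simp
          simp only [this, sum_add_distrib, sum_ite_eq, mem_univ, if_true]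
      have hκ : ∃ κ, N κ ≤ (l.filter fun b => χ a b = κ).length := by
        by_contra hc
        push Not at hc
        have := sum_le_sum fun κ (_ : κ ∈ univ) => (hc κ).le
        simp only [List.length_cons] at hl
        omega
      obtain ⟨κ, hκ⟩ := hκ
      obtain ⟨κ', l', h1, h2, h3⟩ := hN κ α χ _ hκ
      by_cases h : κ' = κ
      · subst h
        refine ⟨κ', a :: l', (h1.trans List.filter_sublist).cons_cons a, ?_, ?_⟩
        · have := h0 κ'
          simp only [Function.update_self] at h2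
          simp only [List.length_cons]
          omega
        · refine List.Pairwise.cons (fun b hb => ?_) h3
          have := List.mem_filter.1 (h1.subset hb)
          simpa using this.2
      · rw [Function.update_of_ne h] at h2
        exact ⟨κ', l', (h1.trans List.filter_sublist).cons a, h2, h3⟩

theorem ramsey (C : Type) [Fintype C] [DecidableEq C] (k : ℕ) :
    ∃ N : ℕ, ∀ (α : Type) (χ : α → α → C) (l : List α),
      N ≤ l.length → ∃ κ, ∃ l' : List α, l'.Sublist l ∧ l'.length = k ∧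
        l'.Pairwise fun a b => χ a b = κ :=
  ramsey_aux _ (fun _ => k) rfl

theorem extract (m : ℕ) : ∃ N : ℕ, ∀ (α V : Type) (r : α → V → Prop) (Y : V → Prop)
    (A : Finset α), N ≤ A.card → (∀ a ∈ A, ∀ b ∈ A, a ≠ b → ∃ y, Y y ∧ ¬ (r a y ↔ r b y)) →
      ∃ l : List (α × V), l.length = m ∧ (∀ p ∈ l, p.1 ∈ A ∧ Y p.2) ∧
        l.Pairwise fun p q => ¬ (r q.1 p.2 ↔ r p.1 p.2) := by
  classical
  induction m with
  | zero => exact ⟨0, fun _ _ _ _ _ _ _ => ⟨[], rfl, by simp, List.Pairwise.nil⟩⟩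
  | succ m ih =>
    obtain ⟨N, hN⟩ := ih
    refine ⟨2 * N + 2, fun α V r Y A hA h => ?_⟩
    obtain ⟨a, ha, b, hb, hab⟩ := one_lt_card.1 (show 1 < A.card by omega)
    obtain ⟨y, hy, hne⟩ := h a ha b hb hab
    have hsplit := card_filter_add_card_filter_not (s := A) (fun x => r x y)
    have key : ∃ x ∈ A, N ≤ (A.filter fun x' => ¬ (r x' y ↔ r x y)).card := by
      have e1 : ∀ x, r x y → (A.filter fun x' => ¬ (r x' y ↔ r x y)) =
          A.filter fun x' => ¬ r x' y := fun x hx => filter_congr fun x' _ => by tauto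
      have e2 : ∀ x, ¬ r x y → (A.filter fun x' => ¬ (r x' y ↔ r x y)) =
          A.filter fun x' => r x' y := fun x hx => filter_congr fun x' _ => by tauto
      by_cases hra : r a y
      · have hrb : ¬ r b y := by tauto
        by_cases hc : N ≤ (A.filter fun x' => ¬ r x' y).card
        · exact ⟨a, ha, by rwa [e1 a hra]⟩
        · exact ⟨b, hb, by rw [e2 b hrb]; omega⟩
      · have hrb : r b y := by tauto
        by_cases hc : N ≤ (A.filter fun x' => ¬ r x' y).card
        · exact ⟨b, hb, by rwa [e1 b hrb]⟩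
        · exact ⟨a, ha, by rw [e2 a hra]; omega⟩
    obtain ⟨x, hx, hc⟩ := key
    obtain ⟨l, h1, h2, h3⟩ := hN α V r Y _ hc fun a ha b hb =>
      h a (mem_filter.1 ha).1 b (mem_filter.1 hb).1
    refine ⟨(x, y) :: l, by simp [h1], ?_, List.Pairwise.cons (fun q hq => ?_) h3⟩
    · intro p hp
      rcases List.mem_cons.1 hp with rfl | hp
      · exact ⟨hx, hy⟩
      · exact ⟨(mem_filter.1 (h2 p hp).1).1, (h2 p hp).2⟩
    · exact (mem_filter.1 (h2 q hq).1).2

/-- A pattern: adjacency for a smaller, an equal and a larger first index. -/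
abbrev Pat := Bool × Bool × Bool

/-- The adjacency prescribed by a pattern. -/
def rel (p : Pat) (i j : ℕ) : Bool := if i < j then p.1 else if i = j then p.2.1 else p.2.2

/-- A pattern that is not constant. -/
def nc (p : Pat) : Bool := (p.1 != p.2.1) || (p.2.2 != p.2.1)

/-- Three sequences of length four with homogeneous adjacencies. -/
def HasPat {V : Type} (G : SimpleGraph V) (PX PY PZ : V → Prop) : Prop :=
  ∃ (x y z : ℕ → V) (p q r : Pat), nc p = true ∧ nc q = true ∧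
    (∀ i < 4, PX (x i) ∧ PY (y i) ∧ PZ (z i)) ∧
    ∀ i < 4, ∀ j < 4, (G.Adj (x i) (y j) ↔ rel p i j = true) ∧
      (G.Adj (x i) (z j) ↔ rel q i j = true) ∧ (G.Adj (y i) (z j) ↔ rel r i j = true)

theorem exists_pat : ∃ N : ℕ, ∀ (V : Type) (G : SimpleGraph V) (A : Finset V) (PY PZ : V → Prop),
    N ≤ A.card → (∀ a ∈ A, ∀ b ∈ A, a ≠ b → ∃ y, PY y ∧ ¬ (G.Adj a y ↔ G.Adj b y)) →
      (∀ a ∈ A, ∀ b ∈ A, a ≠ b → ∃ z, PZ z ∧ ¬ (G.Adj a z ↔ G.Adj b z)) →
        HasPat G (· ∈ A) PY PZ := by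
  classical
  obtain ⟨N₃, h₃⟩ := ramsey ((Pat × Pat × Pat) × Bool × Bool × Bool) 4
  obtain ⟨N₂, h₂⟩ := extract N₃
  obtain ⟨N₁, h₁⟩ := extract N₂
  refine ⟨N₁, fun V G A PY PZ hA hY hZ => ?_⟩
  obtain ⟨l₁, e₁, m₁, p₁⟩ := h₁ V V G.Adj PY A hA hY
  have hnd : l₁.Nodup := p₁.imp fun {p q} h e => h (by rw [e])
  let D : V × V → V × V → Prop := fun p q =>
    ¬ (G.Adj q.1 p.2 ↔ G.Adj p.1 p.2) ∨ ¬ (G.Adj p.1 q.2 ↔ G.Adj q.1 q.2)
  have hD : ∀ p ∈ l₁, ∀ q ∈ l₁, p ≠ q → D p q := by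
    have : l₁.Pairwise D := p₁.imp fun h => Or.inl h
    intro p hp q hq hne
    have hs : Std.Symm D := ⟨fun _ _ h => Or.symm h⟩
    exact this.forall hp hq hne
  obtain ⟨l₂, e₂, m₂, p₂⟩ := h₂ (V × V) V (fun p z => G.Adj p.1 z) PZ l₁.toFinset
    (by rw [List.toFinset_card_of_nodup hnd, e₁]) (by
      intro p hp q hq hne
      rw [List.mem_toFinset] at hp hq
      refine hZ _ (m₁ p hp).1 _ (m₁ q hq).1 fun e => ?_
      have := hD p hp q hq hne
      simp [D, e] at this)
  let b : V → V → Bool := fun u v => decide (G.Adj u v)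
  obtain ⟨κ, l₃, s₃, e₃, p₃⟩ := h₃ ((V × V) × V) (fun s t =>
    (((b s.1.1 t.1.2, b s.1.1 s.1.2, b t.1.1 s.1.2), (b s.1.1 t.2, b s.1.1 s.2, b t.1.1 s.2),
      (b s.1.2 t.2, b s.1.2 s.2, b t.1.2 s.2)), b t.1.1 t.1.2, b t.1.1 t.2, b t.1.2 t.2)) l₂ e₂.ge
  have p₃' := p₂.sublist s₃
  have hm : ∀ t ∈ l₃, t.1 ∈ l₁ ∧ PZ t.2 := fun t ht =>
    ⟨List.mem_toFinset.1 (m₂ t (s₃.subset ht)).1, (m₂ t (s₃.subset ht)).2⟩
  match l₃, e₃, p₃, p₃', hm with
  | [t0, t1, t2, t3], _, p₃, p₃', hm =>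
    simp only [List.pairwise_cons, List.mem_cons, List.not_mem_nil, or_false, forall_eq_or_imp,
      forall_eq] at p₃ p₃' hm
    obtain ⟨⟨c01, c02, c03⟩, ⟨c12, c13⟩, c23, -⟩ := p₃
    obtain ⟨⟨⟨p1, p2, p3⟩, ⟨q1, q2, q3⟩, ⟨r1, r2, r3⟩⟩, d1, d2, d3⟩ := κ
    simp only [Prod.mk.injEq] at c01 c02 c03 c12 c13 c23
    let t : ℕ → (V × V) × V := fun i => [t0, t1, t2, t3].getD i t0
    have hb : ∀ u v c, b u v = c → (G.Adj u v ↔ c = true) := by
      rintro u v c rfl
      simp [b]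
    have hd1 : d1 = p2 := c01.2.1.symm.trans c12.1.1.2.1
    have hd2 : d2 = q2 := c01.2.2.1.symm.trans c12.1.2.1.2.1
    have hd3 : d3 = r2 := c01.2.2.2.symm.trans c12.1.2.2.2.1
    subst hd1 hd2 hd3
    refine ⟨fun i => (t i).1.1, fun i => (t i).1.2, fun i => (t i).2, (p1, d1, p3), (q1, d2, q3),
      (r1, d3, r3), ?_, ?_, ?_, ?_⟩
    · have hne : t0.1 ≠ t1.1 := fun e => p₃'.1.1 (by rw [e])
      have := hD _ hm.1.1 _ hm.2.1.1 hne
      simp only [D, hb _ _ _ c01.1.1.1, hb _ _ _ c01.1.1.2.1, hb _ _ _ c01.1.1.2.2,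
        hb _ _ _ c01.2.1] at this
      revert this
      cases p1 <;> cases d1 <;> cases p3 <;> simp [nc]
    · have := p₃'.1.1
      simp only [hb _ _ _ c01.1.2.1.2.1, hb _ _ _ c01.1.2.1.2.2] at this
      revert this
      cases q1 <;> cases d2 <;> cases q3 <;> simp [nc]
    · intro i hi
      interval_cases i
      · exact ⟨(m₁ _ hm.1.1).1, (m₁ _ hm.1.1).2, hm.1.2⟩
      · exact ⟨(m₁ _ hm.2.1.1).1, (m₁ _ hm.2.1.1).2, hm.2.1.2⟩
      · exact ⟨(m₁ _ hm.2.2.1.1).1, (m₁ _ hm.2.2.1.1).2, hm.2.2.1.2⟩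
      · exact ⟨(m₁ _ hm.2.2.2.1).1, (m₁ _ hm.2.2.2.1).2, hm.2.2.2.2⟩
    · intro i hi j hj
      refine ⟨hb _ _ _ ?_, hb _ _ _ ?_, hb _ _ _ ?_⟩ <;> interval_cases i <;> interval_cases j <;>
        simp only [t, rel, List.getD_cons_zero, List.getD_cons_succ] <;> simp [*]

theorem machine (ι : Type) [Fintype ι] [LinearOrder ι] (Λ : Type) [Countable Λ] [DecidableEq Λ]
    (k₀ : ℕ) (hk : 1 ≤ k₀) :
    ∃ K : ℕ, ∀ (V : Type) [DecidableEq V] [Fintype V] (G : SimpleGraph V) (W : Finset V)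
      (cls : V → ι) (line : ι → ι → Λ), (∀ X Y, line X Y = line Y X) →
      (∀ x ∈ W, ∀ y ∈ W, cls x = cls y → ¬ G.Adj x y) →
      (∀ X Y Z, X ≠ Y → X ≠ Z → Y < Z → line X Y ≠ line X Z →
        ¬ HasPat G (fun v => v ∈ W ∧ cls v = X) (fun v => v ∈ W ∧ cls v = Y)
          (fun v => v ∈ W ∧ cls v = Z)) →
      (∀ γ, ∀ W' ⊆ W, (∀ x ∈ W', ∃ y ∈ W, cls y ≠ cls x ∧ line (cls x) (cls y) = γ) →
        Wd G W' k₀) → Wd G W K := by
  classical
  obtain ⟨N, hN⟩ := exists_pat
  set B := Fintype.card (ι × ι × ι) * N with hB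
  refine ⟨k₀ * (Fintype.card ι * (2 ^ B * (B + 1) ^ Fintype.card ι)), ?_⟩
  intro V _ _ G W cls line hsymm hind hsplit hline
  let same : ι → V → V → Prop := fun Y a x => ∀ y ∈ W, cls y = Y → (G.Adj a y ↔ G.Adj x y)
  have hrep : ∀ τ : ι × ι × ι, ∃ A : Finset V, A.card ≤ N ∧ (τ.1 ≠ τ.2.1 → τ.1 ≠ τ.2.2 →
      τ.2.1 < τ.2.2 → line τ.1 τ.2.1 ≠ line τ.1 τ.2.2 →
      ∀ x ∈ W, cls x = τ.1 → ∃ a ∈ A, same τ.2.1 a x ∨ same τ.2.2 a x) := by
    rintro ⟨X, Y, Z⟩
    by_cases hc : X ≠ Y ∧ X ≠ Z ∧ Y < Z ∧ line X Y ≠ line X Z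
    swap
    · exact ⟨∅, by simp, fun h1 h2 h3 h4 => (hc ⟨h1, h2, h3, h4⟩).elim⟩
    let 𝒜 := (W.filter fun x => cls x = X).powerset.filter fun A =>
      ∀ a ∈ A, ∀ b ∈ A, a ≠ b → ¬ same Y a b ∧ ¬ same Z a b
    have h𝒜 : ∀ A, A ∈ 𝒜 ↔ A ⊆ (W.filter fun x => cls x = X) ∧
        ∀ a ∈ A, ∀ b ∈ A, a ≠ b → ¬ same Y a b ∧ ¬ same Z a b := by
      intro A
      simp only [𝒜, mem_filter, mem_powerset]
    obtain ⟨A, hA, hmax⟩ := exists_max_image 𝒜 card ⟨∅, by simp [𝒜]⟩
    obtain ⟨hA1, hA2⟩ := (h𝒜 A).1 hA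
    refine ⟨A, ?_, fun _ _ _ _ x hx hxX => ?_⟩
    · by_contra hlt
      apply hsplit X Y Z hc.1 hc.2.1 hc.2.2.1 hc.2.2.2
      obtain ⟨x, y, z, p, q, r, h1, h2, h3, h4⟩ := hN V G A (fun v => v ∈ W ∧ cls v = Y)
        (fun v => v ∈ W ∧ cls v = Z) (not_le.1 hlt).le
        (fun a ha b hb hab => by
          have := (hA2 a ha b hb hab).1
          simp only [same, not_forall] at this
          obtain ⟨y, h1, h2, h3⟩ := this
          exact ⟨y, ⟨h1, h2⟩, h3⟩)
        (fun a ha b hb hab => by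
          have := (hA2 a ha b hb hab).2
          simp only [same, not_forall] at this
          obtain ⟨y, h1, h2, h3⟩ := this
          exact ⟨y, ⟨h1, h2⟩, h3⟩)
      exact ⟨x, y, z, p, q, r, h1, h2,
        fun i hi => ⟨mem_filter.1 (hA1 (h3 i hi).1), (h3 i hi).2⟩, h4⟩
    · by_contra hno
      push Not at hno
      have hxA : x ∉ A := fun h => (hno x h).1 fun _ _ _ => Iff.rfl
      have hsy : ∀ Y a b, same Y a b → same Y b a := fun Y a b h y hy hc => (h y hy hc).symm
      have hins : insert x A ∈ 𝒜 := by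
        refine (h𝒜 _).2 ⟨insert_subset (mem_filter.2 ⟨hx, hxX⟩) hA1, ?_⟩
        intro a ha b hb hab
        rcases mem_insert.1 ha with rfl | ha' <;> rcases mem_insert.1 hb with rfl | hb'
        · exact (hab rfl).elim
        · exact ⟨fun h => (hno b hb').1 (hsy _ _ _ h), fun h => (hno b hb').2 (hsy _ _ _ h)⟩
        · exact hno a ha'
        · exact hA2 a ha' b hb' hab
      have := hmax _ hins
      rw [card_insert_of_notMem hxA] at this
      omega
  choose A hAc hA using hrep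
  let R : Finset V := univ.biUnion A
  have hR : R.card ≤ B := by
    refine card_biUnion_le.trans ?_
    rw [hB, ← card_univ, ← smul_eq_mul, ← sum_const]
    exact sum_le_sum fun τ _ => hAc τ
  let σ : V → ι → Option R := fun x Y => if h : ∃ a : R, same Y a x then some h.choose else none
  have hσ : ∀ x Y a, σ x Y = some a → same Y a x := by
    intro x Y a h
    simp only [σ] at h
    split_ifs at h with h'
    rw [← Option.some.inj h]
    exact h'.choose_spec
  have hσ' : ∀ x Y, σ x Y = none → ∀ a ∈ R, ¬ same Y a x := by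
    intro x Y h a ha hs
    simp only [σ, dif_pos (⟨⟨a, ha⟩, hs⟩ : ∃ a : R, same Y a x), reduceCtorEq] at h
  let g : V → ι ⊕ Λ := fun x =>
    if h : ∃ y ∈ W, cls y ≠ cls x ∧ σ x (cls y) = none then
      Sum.inr (line (cls x) (cls h.choose)) else Sum.inl (cls x)
  have hlt : ∀ x ∈ W, ∀ Y Z, cls x ≠ Y → cls x ≠ Z → Y < Z → σ x Y = none → σ x Z = none →
      line (cls x) Y = line (cls x) Z := by
    intro x hx Y Z h1 h2 h3 h4 h5
    by_contra hne
    obtain ⟨a, ha, hs⟩ := hA (cls x, Y, Z) h1 h2 h3 hne x hx rfl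
    have haR : a ∈ R := mem_biUnion.2 ⟨_, mem_univ _, ha⟩
    rcases hs with hs | hs
    · exact hσ' x Y h4 a haR hs
    · exact hσ' x Z h5 a haR hs
  have hg : ∀ x ∈ W, ∀ y ∈ W, cls y ≠ cls x → σ x (cls y) = none →
      g x = Sum.inr (line (cls x) (cls y)) := by
    intro x hx y hy h1 h2
    have hex : ∃ y ∈ W, cls y ≠ cls x ∧ σ x (cls y) = none := ⟨y, hy, h1, h2⟩
    simp only [g, dif_pos hex]
    obtain ⟨-, e1, e2⟩ := hex.choose_spec
    congr 1
    rcases lt_trichotomy (cls hex.choose) (cls y) with h | h | h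
    · exact hlt x hx _ _ e1.symm h1.symm h e2 h2
    · rw [h]
    · exact (hlt x hx _ _ h1.symm e1.symm h h2 e2).symm
  have := wd_group (G := G) (W := W) hk
    (fun x => (cls x, (fun a : R => decide (G.Adj a x)), σ x)) g ?_ ?_
  · refine this.mono (Nat.mul_le_mul_left _ ?_)
    simp only [Fintype.card_prod, Fintype.card_fun, Fintype.card_bool, Fintype.card_coe,
      Fintype.card_option]
    exact Nat.mul_le_mul_left _ (Nat.mul_le_mul (Nat.pow_le_pow_right (by norm_num) hR)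
      (Nat.pow_le_pow_left (by omega) _))
  · intro x hx y hy z hz hxy hxz _
    simp only [Prod.mk.injEq] at hxy
    obtain ⟨e1, e2, e3⟩ := hxy
    by_cases hc : cls x = cls z
    · exact iff_of_false (hind x hx z hz hc) (hind y hy z hz (e1 ▸ hc))
    rcases h1 : σ x (cls z) with _ | a
    · rcases h2 : σ z (cls x) with _ | a
      · exfalso
        apply hxz
        rw [hg x hx z hz (Ne.symm hc) h1, hg z hz x hx hc h2, hsymm]
      · have s := hσ _ _ _ h2
        have e := congrFun e2 a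
        simp only [decide_eq_decide] at e
        rw [G.adj_comm x z, G.adj_comm y z, ← s x hx rfl, ← s y hy e1.symm, e]
    · have s := hσ _ _ _ h1
      have s' := hσ _ _ _ (e3 ▸ h1)
      rw [← s z hz rfl, ← s' z hz rfl]
  · rintro (X | γ)
    · refine (wd_indep fun x hx y hy => ?_).mono hk
      rw [mem_filter] at hx hy
      have e : ∀ v, g v = Sum.inl X → cls v = X := by
        intro v hv
        simp only [g] at hv
        split_ifs at hv
        exact Sum.inl.inj hv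
      exact hind x hx.1 y hy.1 ((e x hx.2).trans (e y hy.2).symm)
    · refine hline γ _ (filter_subset _ _) fun x hx => ?_
      have hv := (mem_filter.1 hx).2
      simp only [g] at hv
      split_ifs at hv with h
      exact ⟨h.choose, h.choose_spec.1, h.choose_spec.2.1, Sum.inr.inj hv⟩

end Pool.Agent.Lib.MP_042ec1_co
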