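import Mathlib
import Pool.Agent.Lib.MP_042ec1_co.Bip
import Pool.Agent.Lib.MP_042ec1_co.Machine

/-!
Small graphs, configurations around an anchor, and certificate checking.
-/

namespace Pool.Agent.Lib.MP_042ec1_co

open Finset

/-- A small graph on `0, …, n - 1`; `adj i j` is only read for `j < i`. -/
structure SG where
  n : ℕ
  adj : ℕ → ℕ → Bool

/-- A small graph from a bit table. -/
def ofCode (n code : ℕ) : SG := ⟨n, fun i j => code.testBit (8 * i + j)⟩

/-- Symmetric adjacency. -/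
def SG.sym (H : SG) (u v : ℕ) : Bool := bif Nat.blt v u then H.adj u v else H.adj v u

theorem blt_true {i j : ℕ} (h : i < j) : Nat.blt i j = true := by
  rw [Nat.blt_eq]
  exact h

theorem blt_false {i j : ℕ} (h : ¬ i < j) : Nat.blt i j = false := by
  rw [Bool.eq_false_iff, ne_eq, Nat.blt_eq]
  exact h

variable {V : Type} {G : SimpleGraph V} {W : Finset V} {F : List SG} {A H : SG} {a : ℕ → V}

/-- `f` realises `H` as an induced subgraph inside `W`. -/
def Real (G : SimpleGraph V) (W : Finset V) (H : SG) (f : ℕ → V) : Prop :=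
  ∀ i < H.n, f i ∈ W ∧ ∀ j < i, f i ≠ f j ∧ (G.Adj (f i) (f j) ↔ H.adj i j = true)

/-- No member of `F` is an induced subgraph inside `W`. -/
def Free (G : SimpleGraph V) (W : Finset V) (F : List SG) : Prop := ∀ T ∈ F, ∀ f, ¬ Real G W T f

theorem Real.mono {W' : Finset V} {f : ℕ → V} (h : Real G W H f) (hW : W ⊆ W') : Real G W' H f :=
  fun i hi => ⟨hW (h i hi).1, (h i hi).2⟩

theorem Free.mono {W' : Finset V} (h : Free G W F) (hW : W' ⊆ W) : Free G W' F :=
  fun T hT f hf => h T hT f (hf.mono hW)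

theorem Real.sym {f : ℕ → V} (h : Real G W H f) {u v : ℕ} (hu : u < H.n) (hv : v < H.n)
    (huv : u ≠ v) : f u ≠ f v ∧ (G.Adj (f u) (f v) ↔ H.sym u v = true) := by
  unfold SG.sym
  rcases lt_or_gt_of_ne huv with hlt | hlt
  · rw [blt_false hlt.not_gt, cond_false, G.adj_comm]
    exact ⟨((h v hv).2 u hlt).1.symm, ((h v hv).2 u hlt).2⟩
  · rw [blt_true hlt, cond_true]
    exact (h u hu).2 v hlt

/-- Base-32 digits. -/
def dig (c i : ℕ) : ℕ := (c >>> (5 * i)) % 32

/-- The digits of `c` describe an induced copy of `T` in `H`. -/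
def embOK (T H : SG) (c : ℕ) : Bool :=
  (List.range T.n).all fun i => Nat.blt (dig c i) H.n && (List.range i).all fun j =>
    !Nat.beq (dig c i) (dig c j) && (T.adj i j == H.sym (dig c i) (dig c j))

/-- The certificate `c` shows that `H` contains a member of `F`. -/
def certOK (F : List SG) (H : SG) (c : ℕ) : Bool :=
  match F[c % 32]? with
  | some T => embOK T H (c / 32)
  | none => false

theorem certOK_sound {c : ℕ} (h : certOK F H c = true) (hF : Free G W F) (f : ℕ → V) :
    ¬ Real G W H f := by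
  intro hf
  unfold certOK at h
  split at h
  · rename_i T hT
    refine hF T (List.mem_of_getElem? hT) (fun i => f (dig (c / 32) i)) fun i hi => ?_
    simp only [embOK, List.all_eq_true, List.mem_range, Bool.and_eq_true, Nat.blt_eq,
      Bool.not_eq_true', beq_iff_eq] at h
    refine ⟨(hf _ (h i hi).1).1, fun j hj => ?_⟩
    obtain ⟨h1, h2⟩ := (h i hi).2 j hj
    have hne : dig (c / 32) i ≠ dig (c / 32) j := Nat.ne_of_beq_eq_false h1
    rw [h2]
    exact hf.sym (h i hi).1 (h j (hj.trans hi)).1 hne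
  · cases h

/-- Consumes a stream of certificates, forty-five bits each. -/
def chk {τ : Type} (ok : τ → ℕ → Bool) : List τ → ℕ → Bool
  | [], _ => true
  | t :: ts, c => ok t (c % 35184372088832) && chk ok ts (c / 35184372088832)

theorem chk_sound {τ : Type} {ok : τ → ℕ → Bool} :
    ∀ {ts : List τ} {c : ℕ}, chk ok ts c = true → ∀ t ∈ ts, ∃ c, ok t c = true
  | [], _, _, _, h => by cases h
  | t :: ts, c, h, t', ht => by
    rw [chk, Bool.and_eq_true] at h
    rcases List.mem_cons.1 ht with rfl | ht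
    · exact ⟨_, h.1⟩
    · exact chk_sound h.2 t' ht

/-- The anchor `A` together with `m` further vertices. -/
def cfg (A : SG) (masks : ℕ → ℕ) (m : ℕ) (ext : ℕ → ℕ → Bool) : SG where
  n := A.n + m
  adj i j := bif Nat.blt i A.n then A.adj i j else
    bif Nat.blt j A.n then (masks (i - A.n)).testBit j else ext (i - A.n) (j - A.n)

open Classical in
/-- The neighbourhood in the anchor, as a number. -/
noncomputable def cls (G : SimpleGraph V) (A : SG) (a : ℕ → V) (x : V) : ℕ :=
  Nat.ofBits fun i : Fin A.n => decide (G.Adj x (a i))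

theorem cls_lt (x : V) : cls G A a x < 2 ^ A.n := Nat.ofBits_lt_two_pow _

theorem testBit_cls {x : V} {i : ℕ} (hi : i < A.n) :
    (cls G A a x).testBit i = true ↔ G.Adj x (a i) := by
  unfold cls
  rw [Nat.testBit_ofBits_lt _ _ hi]
  simp

/-- Vertices of `W` outside the anchor. -/
def Out (W : Finset V) (A : SG) (a : ℕ → V) (x : V) : Prop := x ∈ W ∧ ∀ i < A.n, x ≠ a i

theorem real_cfg (hA : Real G W A a) {masks : ℕ → ℕ} {m : ℕ} {ext : ℕ → ℕ → Bool} (x : ℕ → V)
    (hx : ∀ e < m, (Out W A a (x e) ∧ cls G A a (x e) = masks e) ∧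
      ∀ e' < e, x e ≠ x e' ∧ (G.Adj (x e) (x e') ↔ ext e e' = true)) :
    Real G W (cfg A masks m ext) fun i => if i < A.n then a i else x (i - A.n) := by
  intro i hi
  by_cases h1 : i < A.n
  · refine ⟨by simpa [h1] using (hA i h1).1, fun j hj => ?_⟩
    have h2 : j < A.n := hj.trans h1
    simp only [cfg, if_pos h1, if_pos h2, blt_true h1, cond_true]
    exact (hA i h1).2 j hj
  · have hi' : i - A.n < m := by
      simp only [cfg] at hi
      omega
    obtain ⟨⟨h3, h4⟩, h5⟩ := hx _ hi'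
    refine ⟨by simpa [h1] using h3.1, fun j hj => ?_⟩
    by_cases h2 : j < A.n
    · simp only [cfg, if_neg h1, if_pos h2, blt_false h1, blt_true h2, cond_true, cond_false]
      refine ⟨h3.2 j h2, ?_⟩
      rw [← h4, testBit_cls h2]
    · simp only [cfg, if_neg h1, if_neg h2, blt_false h1, blt_false h2, cond_false]
      exact h5 _ (by omega)

/-- A configuration given by a list of classes and a bit table. -/
def cfgL (A : SG) (l : List ℕ) (code : ℕ) : SG :=
  cfg A (fun e => l.getD e 0) l.length fun i j => code.testBit (8 * i + j)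

theorem no_cfgL (hF : Free G W F) (hA : Real G W A a) {l : List ℕ} {code c : ℕ}
    (h : certOK F (cfgL A l code) c = true) (x : ℕ → V)
    (hx : ∀ e < l.length, (Out W A a (x e) ∧ cls G A a (x e) = l.getD e 0) ∧
      ∀ e' < e, x e ≠ x e' ∧ (G.Adj (x e) (x e') ↔ code.testBit (8 * e + e') = true)) : False :=
  certOK_sound h hF _ (real_cfg hA x hx)

/-- Fast version of `rel`. -/
def relB (p : Pat) (i j : ℕ) : Bool :=
  bif Nat.blt i j then p.1 else bif Nat.beq i j then p.2.1 else p.2.2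

theorem relB_eq (p : Pat) (i j : ℕ) : relB p i j = rel p i j := by
  unfold relB rel
  by_cases h : i < j
  · simp [h, blt_true h]
  · by_cases h' : i = j
    · subst h'
      simp [blt_false h]
    · have : Nat.beq i j = false := by
        rw [Bool.eq_false_iff, ne_eq, Nat.beq_eq]
        exact h'
      simp [h, h', blt_false h, this]

/-- The anchor with two (`m = 8`) or three (`m = 12`) homogeneous sequences. -/
def cfgP (A : SG) (m X Y Z : ℕ) (p q r : Pat) : SG :=
  cfg A (fun e => bif Nat.blt e 4 then X else bif Nat.blt e 8 then Y else Z) m fun e e' =>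
    bif Nat.blt e 4 then false else bif Nat.blt e 8 then (Nat.blt e' 4 && relB p e' (e - 4)) else
      bif Nat.blt e' 4 then relB q e' (e - 8) else (Nat.blt e' 8 && relB r (e' - 4) (e - 8))

/-- An injective sequence of length four in class `X`. -/
def Sq (G : SimpleGraph V) (A : SG) (a : ℕ → V) (W' : Finset V) (X : ℕ) (x : ℕ → V) : Prop :=
  ∀ i < 4, (x i ∈ W' ∧ cls G A a (x i) = X) ∧ ∀ j < i, x i ≠ x j

/-- Two sequences follow a pattern. -/
def Fol (G : SimpleGraph V) (x y : ℕ → V) (p : Pat) : Prop :=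
  ∀ i < 4, ∀ j < 4, (G.Adj (x i) (y j) ↔ rel p i j = true)

/-- Classes are independent sets in `W'`. -/
def Ind (G : SimpleGraph V) (A : SG) (a : ℕ → V) (W' : Finset V) : Prop :=
  ∀ x ∈ W', ∀ y ∈ W', cls G A a x = cls G A a y → ¬ G.Adj x y

theorem no_cfgP (hF : Free G W F) (hA : Real G W A a) {W' : Finset V}
    (hW' : ∀ v ∈ W', Out W A a v) (hind : Ind G A a W') {m X Y Z c : ℕ} {p q r : Pat}
    (hm : m ≤ 12) (h : certOK F (cfgP A m X Y Z p q r) c = true) {x y z : ℕ → V}
    (hx : Sq G A a W' X x) (hy : Sq G A a W' Y y) (hXY : X ≠ Y) (hp : Fol G x y p)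
    (hz : 8 < m → Sq G A a W' Z z ∧ X ≠ Z ∧ Y ≠ Z ∧ Fol G x z q ∧ Fol G y z r) : False := by
  refine certOK_sound h hF _ (real_cfg hA
    (fun e => if e < 4 then x e else if e < 8 then y (e - 4) else z (e - 8)) fun e he => ?_)
  have hne : ∀ {u v : V} {U U' : ℕ}, cls G A a u = U → cls G A a v = U' → U ≠ U' → u ≠ v := by
    rintro u v _ _ rfl rfl h rfl
    exact h rfl
  by_cases h1 : e < 4
  · simp only [if_pos h1, blt_true h1, cond_true]
    refine ⟨⟨hW' _ (hx e h1).1.1, (hx e h1).1.2⟩, fun e' he' => ?_⟩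
    have h2 : e' < 4 := by omega
    rw [if_pos h2]
    exact ⟨(hx e h1).2 e' he', iff_of_false (hind _ (hx e h1).1.1 _ (hx e' h2).1.1
      ((hx e h1).1.2.trans (hx e' h2).1.2.symm)) (by simp)⟩
  by_cases h2 : e < 8
  · have h3 : e - 4 < 4 := by omega
    simp only [if_neg h1, if_pos h2, blt_false h1, blt_true h2, cond_true, cond_false]
    refine ⟨⟨hW' _ (hy _ h3).1.1, (hy _ h3).1.2⟩, fun e' he' => ?_⟩
    by_cases h4 : e' < 4
    · rw [if_pos h4, blt_true h4, Bool.true_and, relB_eq, G.adj_comm]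
      exact ⟨hne (hy _ h3).1.2 (hx _ h4).1.2 hXY.symm, hp _ h4 _ h3⟩
    · have h5 : e' < 8 := by omega
      have h6 : e' - 4 < 4 := by omega
      rw [if_neg h4, if_pos h5, blt_false h4, Bool.false_and]
      exact ⟨(hy _ h3).2 _ (by omega), iff_of_false (hind _ (hy _ h3).1.1 _ (hy _ h6).1.1
        ((hy _ h3).1.2.trans (hy _ h6).1.2.symm)) (by simp)⟩
  · obtain ⟨hz, hXZ, hYZ, hq, hr⟩ := hz (by omega)
    have h3 : e - 8 < 4 := by omega
    simp only [if_neg h1, if_neg h2, blt_false h1, blt_false h2, cond_false]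
    refine ⟨⟨hW' _ (hz _ h3).1.1, (hz _ h3).1.2⟩, fun e' he' => ?_⟩
    by_cases h4 : e' < 4
    · rw [if_pos h4, blt_true h4, cond_true, relB_eq, G.adj_comm]
      exact ⟨hne (hz _ h3).1.2 (hx _ h4).1.2 hXZ.symm, hq _ h4 _ h3⟩
    by_cases h5 : e' < 8
    · have h6 : e' - 4 < 4 := by omega
      rw [if_neg h4, if_pos h5, blt_false h4, cond_false, blt_true h5, Bool.true_and, relB_eq,
        G.adj_comm]
      exact ⟨hne (hz _ h3).1.2 (hy _ h6).1.2 hYZ.symm, hr _ h6 _ h3⟩
    · have h6 : e' - 8 < 4 := by omega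
      rw [if_neg h4, if_neg h5, blt_false h4, cond_false, blt_false h5, Bool.false_and]
      exact ⟨(hz _ h3).2 _ (by omega), iff_of_false (hind _ (hz _ h3).1.1 _ (hz _ h6).1.1
        ((hz _ h3).1.2.trans (hz _ h6).1.2.symm)) (by simp)⟩

theorem Fol.inj {x y : ℕ → V} {p : Pat} (h : Fol G x y p) (hp : nc p = true) :
    ∀ i < 4, ∀ j < i, x i ≠ x j ∧ y i ≠ y j := by
  intro i hi j hj
  have hj' : j < 4 := by omega
  have e1 := h i hi i hi
  have e2 := h j hj' j hj'
  have e3 := h i hi j hj'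
  have e4 := h j hj' i hi
  simp only [rel, lt_irrefl, if_false, if_true, hj, hj.not_gt, hj.ne'] at e1 e2 e3 e4
  obtain ⟨p1, p2, p3⟩ := p
  constructor
  · intro e
    rw [e] at e1 e3
    revert hp
    cases p1 <;> cases p2 <;> cases p3 <;> simp_all [nc]
  · intro e
    rw [e] at e1 e4
    revert hp
    cases p1 <;> cases p2 <;> cases p3 <;> simp_all [nc]

/-- All patterns. -/
def pats : List Pat := [(false, false, false), (false, false, true), (false, true, false),
  (false, true, true), (true, false, false), (true, false, true), (true, true, false),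
  (true, true, true)]

theorem mem_pats (p : Pat) : p ∈ pats := by
  obtain ⟨p1, p2, p3⟩ := p
  cases p1 <;> cases p2 <;> cases p3 <;> simp [pats]

/-- Table of patterns that are not excluded. -/
def alw (tab X Y : ℕ) (p : Pat) : Bool :=
  tab.testBit ((X * 256 + Y) * 8 + (cond p.1 4 0 + cond p.2.1 2 0 + cond p.2.2 1 0))

/-- The line through two classes. -/
def line (tr : List (List ℕ)) (X Y : ℕ) : List ℕ :=
  match tr.find? fun t => t.contains X && t.contains Y with
  | some t => t
  | none => [min X Y, max X Y]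

theorem line_comm (tr : List (List ℕ)) (X Y : ℕ) : line tr X Y = line tr Y X := by
  simp only [line, Bool.and_comm, min_comm, max_comm]

theorem line_spec (tr : List (List ℕ)) (X Y : ℕ) :
    X ∈ line tr X Y ∧ (line tr X Y ∈ tr ∨ line tr X Y = [min X Y, max X Y]) := by
  unfold line
  split
  · rename_i t ht
    have := List.find?_some ht
    simp only [Bool.and_eq_true, List.contains_iff_mem] at this
    exact ⟨this.1, Or.inl (List.mem_of_find?_eq_some ht)⟩
  · refine ⟨?_, Or.inr rfl⟩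
    rcases le_total X Y with h | h <;> simp [h]

/-- Excluded patterns between `X` and another class. -/
def tasks2 (J : List ℕ) (tab X : ℕ) : List (ℕ × Pat) :=
  J.flatMap fun Y => (pats.filter fun p => !Nat.beq Y X && !alw tab X Y p).map fun p => (Y, p)

/-- Nonconstant patterns between `X` and another class that are not excluded. -/
def nbrs (J : List ℕ) (tab X : ℕ) : List (ℕ × Pat) :=
  J.flatMap fun Y =>
    (pats.filter fun p => !Nat.beq Y X && nc p && alw tab X Y p).map fun p => (Y, p)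

/-- Triples of patterns to be excluded. -/
def tasks3 (J : List ℕ) (tab : ℕ) (tr : List (List ℕ)) (X : ℕ) :
    List ((ℕ × Pat) × (ℕ × Pat) × Pat) :=
  (nbrs J tab X).flatMap fun s =>
    ((nbrs J tab X).filter fun t =>
      Nat.blt s.1 t.1 && (line tr X s.1 != line tr X t.1)).flatMap fun t =>
        (pats.filter fun r => alw tab s.1 t.1 r).map fun r => (s, t, r)

/-- The check for class `X`. -/
def okX (F : List SG) (A : SG) (J : List ℕ) (tab : ℕ) (tr : List (List ℕ)) (X c₂ c₃ : ℕ) : Bool :=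
  chk (fun t c => certOK F (cfgP A 8 X t.1 0 t.2 t.2 t.2) c) (tasks2 J tab X) c₂ &&
    chk (fun t c => certOK F (cfgP A 12 X t.1.1 t.2.1.1 t.1.2 t.2.1.2 t.2.2) c)
      (tasks3 J tab tr X) c₃

/-- All checks for the splitting argument succeed. -/
def SplitOK (F : List SG) (A : SG) (J : List ℕ) (tr : List (List ℕ)) : Prop :=
  ∃ tab, ∀ X ∈ J, ∃ c₂ c₃, okX F A J tab tr X c₂ c₃ = true

theorem no_pat (hF : Free G W F) (hA : Real G W A a) {W' : Finset V} {J : List ℕ}
    {tr : List (List ℕ)} (hS : SplitOK F A J tr)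
    (hW' : ∀ v ∈ W', Out W A a v ∧ cls G A a v ∈ J) (hind : Ind G A a W') {X Y Z : ℕ}
    (hXY : X ≠ Y) (hXZ : X ≠ Z) (hYZ : Y < Z) (hl : line tr X Y ≠ line tr X Z) :
    ¬ HasPat G (fun v => v ∈ W' ∧ cls G A a v = X) (fun v => v ∈ W' ∧ cls G A a v = Y)
      (fun v => v ∈ W' ∧ cls G A a v = Z) := by
  rintro ⟨x, y, z, p, q, r, hp, hq, hm, hadj⟩
  obtain ⟨tab, hS⟩ := hS
  have fp : Fol G x y p := fun i hi j hj => (hadj i hi j hj).1
  have fq : Fol G x z q := fun i hi j hj => (hadj i hi j hj).2.1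
  have fr : Fol G y z r := fun i hi j hj => (hadj i hi j hj).2.2
  have sx : Sq G A a W' X x := fun i hi => ⟨(hm i hi).1, fun j hj => (fp.inj hp i hi j hj).1⟩
  have sy : Sq G A a W' Y y := fun i hi => ⟨(hm i hi).2.1, fun j hj => (fp.inj hp i hi j hj).2⟩
  have sz : Sq G A a W' Z z := fun i hi => ⟨(hm i hi).2.2, fun j hj => (fq.inj hq i hi j hj).2⟩
  have hJ : ∀ {U : ℕ} {u : ℕ → V}, Sq G A a W' U u → U ∈ J := fun {U u} h =>
    (h 0 (by omega)).1.2 ▸ (hW' _ (h 0 (by omega)).1.1).2
  have hout : ∀ v ∈ W', Out W A a v := fun v hv => (hW' v hv).1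
  have hb : ∀ {U U' : ℕ}, U ≠ U' → Nat.beq U' U = false := fun {U U'} h => by
    rw [Bool.eq_false_iff, ne_eq, Nat.beq_eq]
    exact h.symm
  have hal : ∀ {U U' : ℕ} {u u' : ℕ → V} {s : Pat}, Sq G A a W' U u → Sq G A a W' U' u' →
      U ≠ U' → Fol G u u' s → alw tab U U' s = true := by
    intro U U' u u' s h1 h2 h3 h4
    by_contra hc
    obtain ⟨c₂, c₃, h⟩ := hS U (hJ h1)
    rw [okX, Bool.and_eq_true] at h
    obtain ⟨c, hc⟩ := chk_sound h.1 (U', s) (by
      simp only [tasks2, List.mem_flatMap, List.mem_map, List.mem_filter]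
      exact ⟨U', hJ h2, s, ⟨mem_pats s, by simp [hb h3, hc]⟩, rfl⟩)
    exact no_cfgP (z := u) hF hA hout hind (by omega) hc h1 h2 h3 h4 fun h => by omega
  obtain ⟨c₂, c₃, h⟩ := hS X (hJ sx)
  rw [okX, Bool.and_eq_true] at h
  have hn : ∀ {U' : ℕ} {u' : ℕ → V} {s : Pat}, Sq G A a W' U' u' →
      X ≠ U' → Fol G x u' s → nc s = true → (U', s) ∈ nbrs J tab X := by
    intro U' u' s h2 h3 h4 h5
    simp only [nbrs, List.mem_flatMap, List.mem_map, List.mem_filter]
    exact ⟨U', hJ h2, s, ⟨mem_pats s, by simp [hb h3, h5, hal sx h2 h3 h4]⟩, rfl⟩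
  obtain ⟨c, hc⟩ := chk_sound h.2 ((Y, p), (Z, q), r) (by
    simp only [tasks3, List.mem_flatMap, List.mem_map, List.mem_filter]
    exact ⟨(Y, p), hn sy hXY fp hp, (Z, q), ⟨hn sz hXZ fq hq, by simp [blt_true hYZ, hl]⟩, r,
      ⟨mem_pats r, hal sy sz hYZ.ne fr⟩, rfl⟩)
  exact no_cfgP hF hA hout hind le_rfl hc sx sy hXY fp fun _ => ⟨sz, hXZ, hYZ.ne, fq, fr⟩

/-- Every subset of `W'` whose classes lie in `γ` has width at most `k`. -/
def ListOK [DecidableEq V] (G : SimpleGraph V) (A : SG) (a : ℕ → V) (W' : Finset V) (γ : List ℕ)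
    (k : ℕ) : Prop :=
  ∀ S ⊆ W', (∀ x ∈ S, cls G A a x ∈ γ) → Wd G S k

theorem anchored (A : SG) (k₀ : ℕ) (hk : 1 ≤ k₀) : ∃ K : ℕ, 1 ≤ K ∧ ∀ (F : List SG) (J : List ℕ)
    (tr : List (List ℕ)), SplitOK F A J tr → ∀ (V : Type) [DecidableEq V] [Fintype V]
    (G : SimpleGraph V) (W W' : Finset V) (a : ℕ → V), Free G W F → Real G W A a →
    (∀ v ∈ W', Out W A a v ∧ cls G A a v ∈ J) → Ind G A a W' →
    (∀ X ∈ J, ∀ Y ∈ J, X < Y → ListOK G A a W' [X, Y] k₀) → (∀ γ ∈ tr, ListOK G A a W' γ k₀) →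
    Wd G W' K := by
  obtain ⟨K, hK⟩ := machine (Fin (2 ^ A.n)) (List ℕ) k₀ hk
  refine ⟨max K 1, le_max_right _ _, ?_⟩
  intro F J tr hS V _ _ G W W' a hF hA hW' hind hpair htr
  refine (hK V G W' (fun v => ⟨cls G A a v, cls_lt v⟩) (fun X Y => line tr X Y)
    (fun X Y => line_comm _ _ _) (fun x hx y hy h => hind x hx y hy (congrArg Fin.val h)) ?_
    ?_).mono (le_max_left _ _)
  · intro X Y Z h1 h2 h3 h4
    simp only [Fin.ext_iff]
    exact no_pat hF hA hS hW' hind (Fin.val_ne_of_ne h1) (Fin.val_ne_of_ne h2) h3 h4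
  · intro γ S hS h
    have hmem : ∀ x ∈ S, cls G A a x ∈ γ := by
      intro x hx
      obtain ⟨y, -, -, rfl⟩ := h x hx
      exact (line_spec _ _ _).1
    rcases S.eq_empty_or_nonempty with rfl | ⟨x, hx⟩
    · exact Dec.empty
    obtain ⟨y, hy, hne, e⟩ := h x hx
    have hne' : cls G A a y ≠ cls G A a x := fun h => hne (Fin.ext h)
    have h1 := (hW' x (hS hx)).2
    have h2 := (hW' y hy).2
    rcases (line_spec tr (cls G A a x) (cls G A a y)).2 with h3 | h3
    · exact htr γ (e ▸ h3) S hS hmem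
    · have e' : γ = [min (cls G A a x) (cls G A a y), max (cls G A a x) (cls G A a y)] :=
        e.symm.trans h3
      rw [e'] at hmem
      refine hpair _ ?_ _ ?_ (by omega) S hS hmem
      · rcases min_choice (cls G A a x) (cls G A a y) with h | h <;> rwa [h]
      · rcases max_choice (cls G A a x) (cls G A a y) with h | h <;> rwa [h]

end Pool.Agent.Lib.MP_042ec1_co
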