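import Mathlib
import Pool.Agent.Lib.MP_042ec1_co.DataSmall2

/-!
The circular structure around a five-cycle.
-/

namespace Pool.Agent.Lib.MP_042ec1_co

open Finset

set_option synthInstance.maxSize 4000

variable {V : Type} [DecidableEq V] {G : SimpleGraph V} {W W' : Finset V} {a : ℕ → V} {k : ℕ}

theorem BipOK.le {k' : ℕ} (h : BipOK G W k) (hk : k ≤ k') : BipOK G W k' :=
  fun S hS s hs => (h S hS s hs).mono hk

theorem wd_quad (hk : 1 ≤ k) (r : V → Fin 5)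
    (hX : ∀ x ∈ W, ∀ y ∈ W, r x = 0 → r y = 0 ∨ r y = 4 → ¬ G.Adj x y)
    (hY : ∀ x ∈ W, ∀ y ∈ W, r x = 1 → r y = 1 ∨ r y = 4 → ¬ G.Adj x y)
    (hK : ∀ x ∈ W, ∀ y ∈ W, ∀ z ∈ W, G.Adj x y → G.Adj y z → G.Adj x z → False)
    (hI : ∀ x ∈ W, ∀ y ∈ W, ∀ z ∈ W, r x = 0 → r y = 1 → r z = 2 ∨ r z = 3 →
      G.Adj x y ∨ G.Adj y z ∨ G.Adj x z)
    (hB : BipOK G W k)
    (h : ∀ W' ⊆ W, (∀ x ∈ W', r x = 0 → (∀ p ∈ W, r p = 2 → G.Adj x p) →
      (∀ q ∈ W, r q = 3 → ¬ G.Adj x q) → False) → Wd G W' k) : Wd G W (k * 10) := by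
  classical
  let Up : V → Prop := fun v => (r v = 0 → ∀ p ∈ W, r p = 2 → G.Adj v p) ∧
    (r v = 1 → ∀ p ∈ W, r p = 2 → ¬ G.Adj v p)
  let Dn : V → Prop := fun v => (r v = 0 → ∀ q ∈ W, r q = 3 → ¬ G.Adj v q) ∧
    (r v = 1 → ∀ q ∈ W, r q = 3 → G.Adj v q)
  let L := W.filter fun v => (r v = 0 ∨ r v = 1) ∧ Up v ∧ Dn v
  have hL : ∀ v, v ∈ L ↔ v ∈ W ∧ (r v = 0 ∨ r v = 1) ∧ Up v ∧ Dn v := fun v => mem_filter
  have h01 : ∀ {v : V} {P : Prop}, r v = 0 → r v = 1 → P := fun h h' => by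
    rw [h] at h'
    exact absurd h' (by decide)
  have := wd_split (G := G) (W := W) hk (L := L) (filter_subset _ _)
    (fun v => (r v, decide (Up v)))
    (fun s t => (s.1 = 0 ∧ (t.1 = 2 ∨ (t.1 = 1 ∧ t.2 = true))) ∨
      (s.1 = 1 ∧ (t.1 = 3 ∨ (t.1 = 0 ∧ ¬ t.2 = true)))) ?_ ?_ ?_
  · simpa using this
  · intro l hl z hz hzL
    obtain ⟨h1, h2, hu, hd⟩ := (hL l).1 hl
    rw [hL] at hzL
    have h5 : r z = 0 ∨ r z = 1 ∨ r z = 2 ∨ r z = 3 ∨ r z = 4 := by omega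
    simp only [decide_eq_true_eq]
    rcases h2 with h2 | h2
    · rcases h5 with h5 | h5 | h5 | h5 | h5
      · exact iff_of_false (hX l h1 z hz h2 (Or.inl h5)) (by simp [h2, h5])
      · have e1 : G.Adj l z → Up z := fun e =>
          ⟨fun h => h01 h h5, fun _ p hp h e' => hK l h1 z hz p hp e e' (hu.1 h2 p hp h)⟩
        have e2 : ¬ G.Adj l z → Dn z := fun e => ⟨fun h => h01 h h5, fun _ q hq h =>
          ((hI l h1 z hz q hq h2 h5 (Or.inr h)).resolve_left e).resolve_right (hd.1 h2 q hq h)⟩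
        have : G.Adj l z ↔ Up z :=
          ⟨e1, fun h => by_contra fun e => hzL ⟨hz, Or.inr h5, h, e2 e⟩⟩
        simpa [h2, h5] using this
      · exact iff_of_true (hu.1 h2 z hz h5) (by simp [h2, h5])
      · exact iff_of_false (hd.1 h2 z hz h5) (by simp [h2, h5])
      · exact iff_of_false (hX l h1 z hz h2 (Or.inr h5)) (by simp [h2, h5])
    · rcases h5 with h5 | h5 | h5 | h5 | h5
      · have e1 : G.Adj l z → Dn z := fun e =>
          ⟨fun _ q hq h e' => hK l h1 z hz q hq e e' (hd.2 h2 q hq h), fun h => h01 h5 h⟩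
        have e2 : ¬ G.Adj l z → Up z := fun e => ⟨fun _ p hp h =>
          ((hI z hz l h1 p hp h5 h2 (Or.inl h)).resolve_left fun h => e h.symm).resolve_left
            (hu.2 h2 p hp h), fun h => h01 h5 h⟩
        have : G.Adj l z ↔ ¬ Up z :=
          ⟨fun e h => hzL ⟨hz, Or.inl h5, h, e1 e⟩, fun h => by_contra fun e => h (e2 e)⟩
        simpa [h2, h5] using this
      · exact iff_of_false (hY l h1 z hz h2 (Or.inl h5)) (by simp [h2, h5])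
      · exact iff_of_false (hu.2 h2 z hz h5) (by simp [h2, h5])
      · exact iff_of_true (hd.2 h2 z hz h5) (by simp [h2, h5])
      · exact iff_of_false (hY l h1 z hz h2 (Or.inr h5)) (by simp [h2, h5])
  · refine hB L (filter_subset _ _) (fun v => decide (r v = 0)) fun x hx y hy e h' => ?_
    rw [decide_eq_decide] at h'
    rw [hL] at hx hy
    rcases hx.2.1 with h1 | h1
    · exact hX x hx.1 y hy.1 h1 (Or.inl (h'.1 h1)) e
    · exact hY x hx.1 y hy.1 h1 (Or.inl (hy.2.1.resolve_left fun h2 => h01 (h'.2 h2) h1)) e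
  · refine h _ sdiff_subset fun x hx h0 h1 h2 => ?_
    rw [mem_sdiff, hL] at hx
    exact hx.2 ⟨hx.1, Or.inl h0, ⟨fun _ => h1, fun h => h01 h0 h⟩, fun _ => h2, fun h => h01 h0 h⟩

/-- Roles of the classes. -/
def rho (X Y P Q : List ℕ) (t : ℕ) : Fin 5 :=
  if t ∈ X then 0 else if t ∈ Y then 1 else if t ∈ P then 2 else if t ∈ Q then 3 else 4

/-- Two classes share a neighbour on the five-cycle. -/
def Sh (X Y : ℕ) : Prop := ∃ i < 5, X.testBit i = true ∧ Y.testBit i = true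

instance (X Y : ℕ) : Decidable (Sh X Y) := by
  unfold Sh
  infer_instance

omit [DecidableEq V] in
theorem Sh.non (hF : Free G W fCir) (hA : Real G W gC5 a) {x y : V} (hx : x ∈ W) (hy : y ∈ W)
    (h : Sh (cls G gC5 a x) (cls G gC5 a y)) : ¬ G.Adj x y := by
  obtain ⟨i, hi, h1, h2⟩ := h
  exact share hF (by simp [fCir]) hA hx hy hi h1 h2

theorem quad_cls (hF : Free G W fCir) (hA : Real G W gC5 a)
    (hW' : ∀ v ∈ W', Out W gC5 a v ∧ cls G gC5 a v ∈ jC5) (hk : 1 ≤ k) (hB : BipOK G W' k)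
    (ρ : ℕ → Fin 5) {L₁ L₂ : List (ℕ × ℕ × ℕ)} {c₁ c₂ : ℕ} (h₁ : ok3 fCir gC5 0 L₁ c₁ = true)
    (h₂ : ok3 fCir gC5 0 L₂ c₂ = true)
    (hs : ∀ X ∈ jC5, ∀ Y ∈ jC5, ((ρ X = 0 ∧ (ρ Y = 0 ∨ ρ Y = 4)) ∨ (ρ X = 1 ∧ (ρ Y = 1 ∨ ρ Y = 4)) →
      Sh X Y) ∧ ∀ Z ∈ jC5, ρ X = 0 → ρ Y = 1 → (ρ Z = 2 → (X, Y, Z) ∈ L₁) ∧
        (ρ Z = 3 → (X, Y, Z) ∈ L₂))
    (h : ∀ W'' ⊆ W', (∀ x ∈ W'', ρ (cls G gC5 a x) = 0 →
      (∀ p ∈ W', ρ (cls G gC5 a p) = 2 → G.Adj x p) →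
      (∀ q ∈ W', ρ (cls G gC5 a q) = 3 → ¬ G.Adj x q) → False) → Wd G W'' k) :
    Wd G W' (k * 10) := by
  have hne : ∀ {u v : V} {i j : Fin 5}, ρ (cls G gC5 a u) = i → ρ (cls G gC5 a v) = j → i ≠ j →
      u ≠ v := by
    rintro u v _ _ rfl rfl h rfl
    exact h rfl
  refine wd_quad hk (fun v => ρ (cls G gC5 a v))
    (fun x hx y hy h1 h2 => Sh.non hF hA (hW' x hx).1.1 (hW' y hy).1.1
      ((hs _ (hW' x hx).2 _ (hW' y hy).2).1 (Or.inl ⟨h1, h2⟩)))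
    (fun x hx y hy h1 h2 => Sh.non hF hA (hW' x hx).1.1 (hW' y hy).1.1
      ((hs _ (hW' x hx).2 _ (hW' y hy).2).1 (Or.inr ⟨h1, h2⟩)))
    (fun x hx y hy z hz => no_tri hF (by simp [fCir]) x (hW' x hx).1.1 y (hW' y hy).1.1 z
      (hW' z hz).1.1) (fun x hx y hy z hz e0 e1 e2 => ?_) hB h
  have := (hs _ (hW' x hx).2 _ (hW' y hy).2).2 _ (hW' z hz).2 e0 e1
  rcases e2 with e2 | e2
  · exact ok3_adj hF hA h₁ (hW' x hx).1 (hW' y hy).1 (hW' z hz).1 (this.1 e2)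
      (hne e0 e1 (by decide)) (hne e1 e2 (by decide)) (hne e0 e2 (by decide))
  · exact ok3_adj hF hA h₂ (hW' x hx).1 (hW' y hy).1 (hW' z hz).1 (this.2 e2)
      (hne e0 e1 (by decide)) (hne e1 e2 (by decide)) (hne e0 e2 (by decide))

theorem wd_cir [Fintype V] (hF : Free G W fCir) (hA : Real G W gC5 a)
    (hW' : ∀ v ∈ W', Out W gC5 a v ∧ cls G gC5 a v ∈ jC5) (hk : 1 ≤ k) (hB : BipOK G W' k) :
    Wd G W' (k * 3 * 10 * 10) := by
  classical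
  refine quad_cls hF hA hW' (by omega) (hB.le (by omega)) (rho [18, 16] [5, 4] [9, 1] [8, 10, 2])
    cirP cirQ (by decide +kernel) fun W₁ hW₁ H₁ => ?_
  refine quad_cls hF hA (fun v hv => hW' v (hW₁ hv)) (by omega) ((hB.mono hW₁).le (by omega))
    (rho [18, 2] [9, 8] [5, 1] [4, 20, 16]) cirP2 cirQ2 (by decide +kernel) fun R hR H₂ => ?_
  have hRW : R ⊆ W' := hR.trans hW₁
  have hK := fun x (hx : x ∈ W') y (hy : y ∈ W') z (hz : z ∈ W') =>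
    no_tri hF (by simp [fCir]) x (hW' x hx).1.1 y (hW' y hy).1.1 z (hW' z hz).1.1
  have sh : ∀ x ∈ W', ∀ y ∈ W', Sh (cls G gC5 a x) (cls G gC5 a y) → ¬ G.Adj x y :=
    fun x hx y hy => Sh.non hF hA (hW' x hx).1.1 (hW' y hy).1.1
  have cp : ∀ x ∈ W', ∀ y ∈ W', ∀ X Y, cls G gC5 a x = X → cls G gC5 a y = Y →
      (X, Y) ∈ [(16, 9), (16, 1), (4, 8), (4, 10), (4, 2), (2, 5), (2, 1), (8, 20), (8, 16),
        (18, 1)] ∧ X ≠ Y → G.Adj x y := by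
    rintro x hx y hy _ _ rfl rfl h
    exact ok2_adj hF hA cirC (hW' x hx).1 (hW' y hy).1 h.1 (ne_of_cls h.2)
  have vv : ∀ x ∈ W', ∀ y ∈ W', ∀ z ∈ W', cls G gC5 a x = 18 → cls G gC5 a y = 9 →
      cls G gC5 a z = 5 → G.Adj x y ∨ G.Adj x z := by
    intro x hx y hy z hz e1 e2 e3
    rcases ok3_adj hF hA cirV (hW' y hy).1 (hW' x hx).1 (hW' z hz).1 (by rw [e1, e2, e3]; decide)
      (ne_of_cls (by rw [e1, e2]; decide)) (ne_of_cls (by rw [e1, e3]; decide))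
      (ne_of_cls (by rw [e2, e3]; decide)) with h | h | h
    · exact Or.inl h.symm
    · exact Or.inr h
    · exact (sh y hy z hz (by rw [e2, e3]; decide) h).elim
  have r1 : ∀ X ∈ jC5, (rho [18, 16] [5, 4] [9, 1] [8, 10, 2] X = 2 → X = 9 ∨ X = 1) ∧
      (rho [18, 16] [5, 4] [9, 1] [8, 10, 2] X = 3 → X = 8 ∨ X = 10 ∨ X = 2) := by decide
  have r2 : ∀ X ∈ jC5, (rho [18, 2] [9, 8] [5, 1] [4, 20, 16] X = 2 → X = 5 ∨ X = 1) ∧
      (rho [18, 2] [9, 8] [5, 1] [4, 20, 16] X = 3 → X = 4 ∨ X = 20 ∨ X = 16) := by decide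
  have f1 : ∀ x ∈ R, ∀ y ∈ R, cls G gC5 a y = 4 → G.Adj x y → cls G gC5 a x = 16 ∨
      (cls G gC5 a x = 18 ∧ ∃ z ∈ R, cls G gC5 a z = 5 ∧ ¬ G.Adj x z) → False := by
    intro x hx y hy e1 e h
    refine H₁ x (hR hx) (by rcases h with h | ⟨h, -⟩ <;> rw [h] <;> decide) (fun p hp h' => ?_)
      fun q hq h' e' => hK x (hRW hx) y (hRW hy) q hq e ?_ e'
    · rcases h with h | ⟨h, z, hz, h1, h2⟩ <;> rcases (r1 _ (hW' p hp).2).1 h' with h' | h'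
      · exact cp x (hRW hx) p hp _ _ h h' (by decide)
      · exact cp x (hRW hx) p hp _ _ h h' (by decide)
      · exact (vv x (hRW hx) p hp z (hRW hz) h h' h1).resolve_right h2
      · exact cp x (hRW hx) p hp _ _ h h' (by decide)
    · rcases (r1 _ (hW' q hq).2).2 h' with h' | h' | h' <;>
        exact cp y (hRW hy) q hq _ _ e1 h' (by decide)
  have f2 : ∀ x ∈ R, ∀ y ∈ R, cls G gC5 a y = 8 → G.Adj x y → cls G gC5 a x = 2 ∨
      (cls G gC5 a x = 18 ∧ ∃ z ∈ R, cls G gC5 a z = 9 ∧ ¬ G.Adj x z) → False := by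
    intro x hx y hy e1 e h
    refine H₂ x hx (by rcases h with h | ⟨h, -⟩ <;> rw [h] <;> decide) (fun p hp h' => ?_)
      fun q hq h' e' => hK x (hRW hx) y (hRW hy) q (hW₁ hq) e ?_ e'
    · rcases h with h | ⟨h, z, hz, h1, h2⟩ <;> rcases (r2 _ (hW' p (hW₁ hp)).2).1 h' with h' | h'
      · exact cp x (hRW hx) p (hW₁ hp) _ _ h h' (by decide)
      · exact cp x (hRW hx) p (hW₁ hp) _ _ h h' (by decide)
      · exact (vv x (hRW hx) z (hRW hz) p (hW₁ hp) h h1 h').resolve_left h2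
      · exact cp x (hRW hx) p (hW₁ hp) _ _ h h' (by decide)
    · rcases (r2 _ (hW' q (hW₁ hq)).2).2 h' with h' | h' | h'
      · exact (cp q (hW₁ hq) y (hRW hy) _ _ h' e1 (by decide)).symm
      · exact cp y (hRW hy) q (hW₁ hq) _ _ e1 h' (by decide)
      · exact cp y (hRW hy) q (hW₁ hq) _ _ e1 h' (by decide)
  let pl : V → Prop := fun v => (∃ z ∈ R, cls G gC5 a z = 5 ∧ ¬ G.Adj v z) ∨
    ∃ z ∈ R, cls G gC5 a z = 8 ∧ G.Adj v z
  let col : V → Fin 3 := fun v =>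
    if cls G gC5 a v ∈ [16, 20, 4] ∨ (cls G gC5 a v = 18 ∧ pl v) then 0
    else if cls G gC5 a v ∈ [5, 1, 9] then 1 else 2
  have hc : ∀ v ∈ R, (col v = 0 → cls G gC5 a v ∈ [16, 20, 4, 18] ∧ (cls G gC5 a v = 18 → pl v)) ∧
      (col v = 1 → cls G gC5 a v ∈ [5, 1, 9]) ∧
      (col v = 2 → cls G gC5 a v ∈ [8, 10, 2, 18] ∧ (cls G gC5 a v = 18 → ¬ pl v)) := by
    intro v hv
    have h1 := (hW' v (hRW hv)).2
    simp only [col]
    simp only [jC5, List.mem_cons, List.not_mem_nil, or_false] at h1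
    by_cases hP : pl v <;> rcases h1 with h | h | h | h | h | h | h | h | h | h <;> simp [hP, h]
  have g1 : ∀ x ∈ R, ∀ y ∈ R, col x = 0 → cls G gC5 a x = 16 ∨ cls G gC5 a x = 18 →
      cls G gC5 a y = 4 → ¬ G.Adj x y := by
    intro x hx y hy h0 h1 h2 e
    rcases h1 with h1 | h1
    · exact f1 x hx y hy h2 e (Or.inl h1)
    · rcases ((hc x hx).1 h0).2 h1 with h | ⟨z, hz, h3, h4⟩
      · exact f1 x hx y hy h2 e (Or.inr ⟨h1, h⟩)
      · exact hK x (hRW hx) y (hRW hy) z (hRW hz) e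
          (cp y (hRW hy) z (hRW hz) _ _ h2 h3 (by decide)) h4
  have g2 : ∀ x ∈ R, ∀ y ∈ R, col x = 2 → cls G gC5 a x = 2 ∨ cls G gC5 a x = 18 →
      cls G gC5 a y = 8 → ¬ G.Adj x y := by
    intro x hx y hy h0 h1 h2 e
    rcases h1 with h1 | h1
    · exact f2 x hx y hy h2 e (Or.inl h1)
    · exact ((hc x hx).2.2 h0).2 h1 (Or.inr ⟨y, hy, h2, e⟩)
  have hind : ∀ x ∈ R, ∀ y ∈ R, col x = col y → ¬ G.Adj x y := by
    intro x hx y hy e
    have h3 : col x = 0 ∨ col x = 1 ∨ col x = 2 := by omega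
    rcases h3 with h | h | h
    · have key : ∀ X ∈ [16, 20, 4, 18], ∀ Y ∈ [16, 20, 4, 18], Sh X Y ∨
          ((X = 16 ∨ X = 18) ∧ Y = 4) ∨ ((Y = 16 ∨ Y = 18) ∧ X = 4) := by decide
      rcases key _ ((hc x hx).1 h).1 _ ((hc y hy).1 (e ▸ h)).1 with h' | h' | h'
      · exact sh x (hRW hx) y (hRW hy) h'
      · exact g1 x hx y hy h h'.1 h'.2
      · exact fun e' => g1 y hy x hx (e ▸ h) h'.1 h'.2 e'.symm
    · have key : ∀ X ∈ [5, 1, 9], ∀ Y ∈ [5, 1, 9], Sh X Y := by decide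
      exact sh x (hRW hx) y (hRW hy) (key _ ((hc x hx).2.1 h) _ ((hc y hy).2.1 (e ▸ h)))
    · have key : ∀ X ∈ [8, 10, 2, 18], ∀ Y ∈ [8, 10, 2, 18], Sh X Y ∨
          ((X = 2 ∨ X = 18) ∧ Y = 8) ∨ ((Y = 2 ∨ Y = 18) ∧ X = 8) := by decide
      rcases key _ ((hc x hx).2.2 h).1 _ ((hc y hy).2.2 (e ▸ h)).1 with h' | h' | h'
      · exact sh x (hRW hx) y (hRW hy) h'
      · exact g2 x hx y hy h h'.1 h'.2
      · exact fun e' => g2 y hy x hx (e ▸ h) h'.1 h'.2 e'.symm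
  have hne : ∀ {u v : V} {i j : Fin 3}, col u = i → col v = j → i ≠ j → u ≠ v := by
    rintro u v _ _ rfl rfl h rfl
    exact h rfl
  refine wd_tournament hk col hind (fun x hx y hy z hz => hK x (hRW hx) y (hRW hy) z (hRW hz))
    (fun x hx y hy z hz e0 e1 e2 => ?_) fun S hS i hi => ?_
  · by_cases h1 : cls G gC5 a x = 18 ∧ cls G gC5 a y = 9
    · left
      rcases ((hc x hx).1 e0).2 h1.1 with ⟨w, hw, h2, h3⟩ | ⟨w, hw, h2, h3⟩
      · exact (vv x (hRW hx) y (hRW hy) w (hRW hw) h1.1 h1.2 h2).resolve_right h3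
      · by_contra hn
        exact f2 x hx w hw h2 h3 (Or.inr ⟨h1.1, y, hy, h1.2, hn⟩)
    by_cases h2 : cls G gC5 a y = 5 ∧ cls G gC5 a z = 18
    · right
      left
      by_contra hn
      exact ((hc z hz).2.2 e2).2 h2.2 (Or.inl ⟨y, hy, h2.1, fun h => hn h.symm⟩)
    refine ok3_adj hF hA cirR (hW' x (hRW hx)).1 (hW' y (hRW hy)).1 (hW' z (hRW hz)).1
      (List.mem_filter.2 ⟨List.pair_mem_product.2 ⟨((hc x hx).1 e0).1,
        List.pair_mem_product.2 ⟨(hc y hy).2.1 e1, ((hc z hz).2.2 e2).1⟩⟩, ?_⟩)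
      (hne e0 e1 (by decide)) (hne e1 e2 (by decide)) (hne e0 e2 (by decide))
    simp only [Bool.not_eq_true', Bool.or_eq_false_iff, Bool.and_eq_false_imp, beq_iff_eq,
      beq_eq_false_iff_ne]
    exact ⟨fun h h' => h1 ⟨h, h'⟩, fun h h' => h2 ⟨h, h'⟩⟩
  · refine hB S (hS.trans hRW) (fun v => decide (col v = i + 1)) fun x hx y hy e h => ?_
    rw [decide_eq_decide] at h
    have key : ∀ i u v : Fin 3, u ≠ i → v ≠ i → (u = i + 1 ↔ v = i + 1) → u = v := by decide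
    exact hind x (hS hx) y (hS hy) (key i _ _ (hi x hx) (hi y hy) h) e

end Pool.Agent.Lib.MP_042ec1_co
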