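import Mathlib

/-!
Clique-width expressions and the graph `P₁ + S₁,₁,₃`.
-/

namespace Pool.Agent.Lib.MP_042ec1_co

/-- Clique-width expressions with labels in `Fin k`: create one vertex with label `i`; disjoint
union; add all edges between labels `i ≠ j`; relabel `i` to `j`. -/
inductive CWExpr (k : ℕ) : Type
  | vertex (i : Fin k) : CWExpr k
  | union (a b : CWExpr k) : CWExpr k
  | join (i j : Fin k) (h : i ≠ j) (a : CWExpr k) : CWExpr k
  | relabel (i j : Fin k) (a : CWExpr k) : CWExpr k

/-- The vertex set of the graph built by an expression. -/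
def CWExpr.Vtx {k : ℕ} : CWExpr k → Type
  | .vertex _ => Unit
  | .union a b => a.Vtx ⊕ b.Vtx
  | .join _ _ _ a => a.Vtx
  | .relabel _ _ a => a.Vtx

/-- The final labels of the vertices. -/
def CWExpr.label {k : ℕ} : (e : CWExpr k) → e.Vtx → Fin k
  | .vertex i => fun _ => i
  | .union a b => Sum.elim a.label b.label
  | .join _ _ _ a => a.label
  | .relabel i j a => fun v => if a.label v = i then j else a.label v

/-- The graph built by an expression. -/
def CWExpr.graph {k : ℕ} : (e : CWExpr k) → SimpleGraph e.Vtx
  | .vertex _ => ⊥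
  | .union a b => SimpleGraph.sum a.graph b.graph
  | .join i j _ a => a.graph ⊔ SimpleGraph.fromRel fun x y => a.label x = i ∧ a.label y = j
  | .relabel _ _ a => a.graph

/-- `G` has clique-width at most `k`: it is isomorphic to the graph built by an expression with
`k` labels. -/
def CliqueWidthLE {V : Type} (G : SimpleGraph V) (k : ℕ) : Prop :=
  ∃ e : CWExpr k, Nonempty (G ≃g e.graph)

/-- The graph `P₁ + S₁,₁,₃`: centre `0`, leaves `1` and `2`, the path `0, 3, 4, 5`, and the
isolated vertex `6`. -/
def P1S113 : SimpleGraph (Fin 7) :=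
  SimpleGraph.fromEdgeSet {s(0, 1), s(0, 2), s(0, 3), s(3, 4), s(4, 5)}

end Pool.Agent.Lib.MP_042ec1_co
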