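import Mathlib
import Pool.Agent.Lib.MP_042ec1_co.Defs
import Pool.Agent.Lib.MP_042ec1_co.Width

/-!
From decompositions to clique-width expressions.
-/

namespace Pool.Agent.Lib.MP_042ec1_co

open Finset

variable {V L : Type} {c : ℕ} {φ : L ≃ Fin c} {H H' : SimpleGraph V} {S T : Finset V}
  {l l' : V → L}

/-- The labelled graph induced on `S` is built by an expression. -/
def Built (φ : L ≃ Fin c) (H : SimpleGraph V) (S : Finset V) (l : V → L) : Prop :=
  ∃ (e : CWExpr c) (f : e.Vtx → V), Function.Injective f ∧ (∀ v, v ∈ S ↔ ∃ x, f x = v) ∧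
    (∀ x, e.label x = φ (l (f x))) ∧ ∀ x y, e.graph.Adj x y ↔ H.Adj (f x) (f y)

theorem Built.congr (h : Built φ H S l) (h1 : ∀ x ∈ S, ∀ y ∈ S, H.Adj x y ↔ H'.Adj x y)
    (h2 : ∀ x ∈ S, l x = l' x) : Built φ H' S l' := by
  obtain ⟨e, f, hf, hS, hl, ha⟩ := h
  have hm : ∀ x, f x ∈ S := fun x => (hS _).2 ⟨x, rfl⟩
  exact ⟨e, f, hf, hS, fun x => by rw [hl, h2 _ (hm x)],
    fun x y => by rw [ha, h1 _ (hm x) _ (hm y)]⟩

theorem built_single (v : V) : Built φ H {v} l :=
  ⟨.vertex (φ (l v)), fun _ => v, fun _ _ _ => rfl, fun w => by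
    rw [mem_singleton]
    exact ⟨fun h => ⟨(), h.symm⟩, fun ⟨_, h⟩ => h.symm⟩, fun _ => rfl,
    fun _ _ => iff_of_false (fun h => h) (H.irrefl)⟩

theorem Built.union [DecidableEq V] (hd : Disjoint S T) (h1 : Built φ H S l) (h2 : Built φ H T l)
    (hn : ∀ x ∈ S, ∀ y ∈ T, ¬ H.Adj x y) : Built φ H (S ∪ T) l := by
  obtain ⟨e, f, hf, hS, hl, ha⟩ := h1
  obtain ⟨e', f', hf', hT, hl', ha'⟩ := h2
  have hm : ∀ x, f x ∈ S := fun x => (hS _).2 ⟨x, rfl⟩
  have hm' : ∀ x, f' x ∈ T := fun x => (hT _).2 ⟨x, rfl⟩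
  refine ⟨.union e e', Sum.elim f f', hf.sumElim hf' fun x y h =>
    disjoint_left.1 hd (hm x) (h ▸ hm' y), fun v => ?_, ?_, ?_⟩
  · rw [mem_union, hS, hT]
    exact (Sum.exists (p := fun x => Sum.elim f f' x = v)).symm
  · rintro (x | x)
    · exact hl x
    · exact hl' x
  · rintro (x | x) (y | y)
    · exact ha x y
    · exact iff_of_false Bool.false_ne_true (hn _ (hm x) _ (hm' y))
    · exact iff_of_false Bool.false_ne_true fun h => hn _ (hm y) _ (hm' x) h.symm
    · exact ha' x y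

theorem Built.join (h : Built φ H S l) {i j : L} (hij : i ≠ j) :
    Built φ (H ⊔ SimpleGraph.fromRel fun x y => l x = i ∧ l y = j) S l := by
  obtain ⟨e, f, hf, hS, hl, ha⟩ := h
  refine ⟨.join (φ i) (φ j) (φ.injective.ne hij) e, f, hf, hS, hl, fun x y => ?_⟩
  change (e.graph ⊔ SimpleGraph.fromRel fun x y => e.label x = φ i ∧ e.label y = φ j).Adj x y ↔ _
  simp only [SimpleGraph.sup_adj, SimpleGraph.fromRel_adj, ha, hl, φ.injective.eq_iff, ne_eq,
    hf.eq_iff]

theorem Built.relabel [DecidableEq L] (h : Built φ H S l) (i j : L) :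
    Built φ H S fun v => if l v = i then j else l v := by
  obtain ⟨e, f, hf, hS, hl, ha⟩ := h
  refine ⟨.relabel (φ i) (φ j) e, f, hf, hS, fun x => ?_, ha⟩
  change (if e.label x = φ i then φ j else e.label x) = _
  simp only [hl, φ.injective.eq_iff, apply_ite φ]

theorem Built.joins [DecidableEq L] (h : Built φ H S l) (E : Finset (L × L))
    (hE : ∀ p ∈ E, p.1 ≠ p.2) :
    Built φ (H ⊔ SimpleGraph.fromRel fun x y => (l x, l y) ∈ E) S l := by
  induction E using Finset.induction_on with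
  | empty => exact h.congr (by simp) fun _ _ => rfl
  | insert p E _ ih =>
    refine ((ih fun q hq => hE q (mem_insert_of_mem hq)).join
      (hE p (mem_insert_self _ _))).congr (fun x _ y _ => ?_) fun _ _ => rfl
    simp only [SimpleGraph.sup_adj, SimpleGraph.fromRel_adj, mem_insert, Prod.ext_iff]
    tauto

theorem Built.relabels [DecidableEq L] (h : Built φ H S l) (ψ : L → L) (D : Finset L)
    (hD : ∀ i ∈ D, ψ i ∉ D) : Built φ H S fun v => if l v ∈ D then ψ (l v) else l v := by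
  induction D using Finset.induction_on with
  | empty => exact h.congr (by simp) (by simp)
  | insert i D hi ih =>
    refine ((ih fun j hj h' => hD j (mem_insert_of_mem hj) (mem_insert_of_mem h')).relabel i
      (ψ i)).congr (fun _ _ _ _ => Iff.rfl) fun x _ => ?_
    by_cases h1 : l x ∈ D
    · have : ψ (l x) ≠ i := fun e => hD _ (mem_insert_of_mem h1) (e ▸ mem_insert_self _ _)
      simp [h1, this]
    · by_cases h2 : l x = i
      · simp [h2, hi]
      · simp [h1, h2]

theorem Built.map [Fintype L] [DecidableEq L] (h : Built φ H S l) (ψ : L → L) (p : L → Prop)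
    [DecidablePred p] (h1 : ∀ v ∈ S, p (l v)) (h2 : ∀ i, p i → ¬ p (ψ i)) :
    Built φ H S fun v => ψ (l v) :=
  (h.relabels ψ (univ.filter p) fun i hi hi' =>
    h2 i (mem_filter.1 hi).2 (mem_filter.1 hi').2).congr (fun _ _ _ _ => Iff.rfl)
    fun x hx => by simp [h1 x hx]

theorem built_of_dec [DecidableEq V] {G : SimpleGraph V} {W : Finset V} {k : ℕ} (hk : 1 ≤ k)
    (φ : Fin 3 × Fin k ≃ Fin c) (h : Dec G W k S) (hS : S ⊆ W) (hne : S.Nonempty) :
    ∃ t : V → Fin k, (∀ x ∈ S, ∀ y ∈ S, t x = t y → ∀ z ∈ W, z ∉ S → (G.Adj x z ↔ G.Adj y z)) ∧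
      Built φ G S fun v => (0, t v) := by
  classical
  induction h with
  | empty => exact absurd hne not_nonempty_empty
  | single v =>
    refine ⟨fun _ => ⟨0, hk⟩, fun x hx y hy _ z _ _ => ?_, built_single v⟩
    rw [mem_singleton.1 hx, mem_singleton.1 hy]
  | union S T hd _ _ ht ihS ihT =>
    have hSW : S ⊆ W := subset_union_left.trans hS
    have hTW : T ⊆ W := subset_union_right.trans hS
    rcases S.eq_empty_or_nonempty with rfl | hSn
    · simpa using ihT hTW (by simpa using hne)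
    rcases T.eq_empty_or_nonempty with rfl | hTn
    · simpa using ihS hSW hSn
    obtain ⟨t₁, ht₁, b₁⟩ := ihS hSW hSn
    obtain ⟨t₂, ht₂, b₂⟩ := ihT hTW hTn
    have hdT : ∀ x ∈ T, x ∉ S := fun x hx => disjoint_right.1 hd hx
    have hdS : ∀ x ∈ S, x ∉ T := fun x hx => disjoint_left.1 hd hx
    let l : V → Fin 3 × Fin k := fun v => if v ∈ S then (1, t₁ v) else (2, t₂ v)
    have hlS : ∀ v ∈ S, l v = (1, t₁ v) := fun v hv => if_pos hv
    have hlT : ∀ v ∈ T, l v = (2, t₂ v) := fun v hv => if_neg (hdT v hv)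
    let H₀ : SimpleGraph V :=
      { Adj := fun x y => G.Adj x y ∧ (x ∈ S ↔ y ∈ S)
        symm := ⟨fun x y h => ⟨h.1.symm, h.2.symm⟩⟩
        loopless := ⟨fun x h => h.1.ne rfl⟩ }
    have hH : ∀ x y, H₀.Adj x y ↔ G.Adj x y ∧ (x ∈ S ↔ y ∈ S) := fun _ _ => Iff.rfl
    have c₁ : Built φ H₀ S l :=
      (b₁.map (fun i => (1, i.2)) (fun i => i.1 = 0) (fun _ _ => rfl) (by simp)).congr
        (fun x hx y hy => by simp [hH, hx, hy]) fun x hx => (hlS x hx).symm
    have c₂ : Built φ H₀ T l :=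
      (b₂.map (fun i => (2, i.2)) (fun i => i.1 = 0) (fun _ _ => rfl) (by simp)).congr
        (fun x hx y hy => by simp [hH, hdT x hx, hdT y hy]) fun x hx => (hlT x hx).symm
    have c₃ := c₁.union hd c₂ fun x hx y hy h => hdT y hy (h.2.1 hx)
    let E : Finset ((Fin 3 × Fin k) × (Fin 3 × Fin k)) :=
      univ.filter fun p => ∃ x ∈ S, ∃ y ∈ T, G.Adj x y ∧ p = (l x, l y)
    have hE : ∀ x ∈ S ∪ T, ∀ y ∈ S ∪ T, (l x, l y) ∈ E ↔ x ∈ S ∧ y ∈ T ∧ G.Adj x y := by
      intro x hx y hy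
      simp only [E, mem_filter, mem_univ, true_and, Prod.mk.injEq]
      constructor
      · rintro ⟨x', hx', y', hy', e, e1, e2⟩
        rw [hlS x' hx'] at e1
        rw [hlT y' hy'] at e2
        have hxS : x ∈ S := by
          by_contra h
          simp [l, h] at e1
        have hyS : y ∉ S := by
          intro h
          simp [l, h] at e2
        have hyT : y ∈ T := (mem_union.1 hy).resolve_left hyS
        rw [hlS x hxS] at e1
        rw [hlT y hyT] at e2
        refine ⟨hxS, hyT, ?_⟩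
        rw [ht₁ x hxS x' hx' (Prod.mk.inj e1).2 y (hTW hyT) hyS, G.adj_comm,
          ht₂ y hyT y' hy' (Prod.mk.inj e2).2 x' (hSW hx') (hdS x' hx')]
        exact e.symm
      · rintro ⟨h1, h2, h3⟩
        exact ⟨x, h1, y, h2, h3, rfl, rfl⟩
    have c₄ : Built φ G (S ∪ T) l := by
      refine (c₃.joins E ?_).congr (fun x hx y hy => ?_) fun _ _ => rfl
      · intro p hp
        obtain ⟨x, hx, y, hy, -, rfl⟩ := (mem_filter.1 hp).2
        simp [hlS x hx, hlT y hy]
      · rw [SimpleGraph.sup_adj, SimpleGraph.fromRel_adj, hE x hx y hy, hE y hy x hx, hH]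
        constructor
        · rintro (h | ⟨-, h | h⟩)
          · exact h.1
          · exact h.2.2
          · exact h.2.2.symm
        · intro h
          rcases mem_union.1 hx with h1 | h1 <;> rcases mem_union.1 hy with h2 | h2
          · exact Or.inl ⟨h, iff_of_true h1 h2⟩
          · exact Or.inr ⟨h.ne, Or.inl ⟨h1, h2, h⟩⟩
          · exact Or.inr ⟨h.ne, Or.inr ⟨h2, h1, h.symm⟩⟩
          · exact Or.inl ⟨h, iff_of_false (hdT x h1) (hdT y h2)⟩
    obtain ⟨P, _, d, hP, hd'⟩ := ht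
    obtain ⟨ι⟩ : Nonempty (P ↪ Fin k) :=
      Function.Embedding.nonempty_of_card_le (by rwa [Fintype.card_fin])
    obtain ⟨v₀, -⟩ := hSn
    let rep : Fin 3 × Fin k → V := fun i => if h : ∃ x ∈ S ∪ T, l x = i then h.choose else v₀
    have hrep : ∀ x ∈ S ∪ T, rep (l x) ∈ S ∪ T ∧ l (rep (l x)) = l x := by
      intro x hx
      have h : ∃ y ∈ S ∪ T, l y = l x := ⟨x, hx, rfl⟩
      simp only [rep, dif_pos h]
      exact h.choose_spec
    have hsame : ∀ x ∈ S ∪ T, ∀ y ∈ S ∪ T, l x = l y → ∀ z ∈ W, z ∉ S ∪ T →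
        (G.Adj x z ↔ G.Adj y z) := by
      intro x hx y hy e z hz hz'
      rw [mem_union, not_or] at hz'
      rcases mem_union.1 hx with h1 | h1 <;> rcases mem_union.1 hy with h2 | h2
      · rw [hlS x h1, hlS y h2] at e
        exact ht₁ x h1 y h2 (Prod.mk.inj e).2 z hz hz'.1
      · simp [hlS x h1, hlT y h2] at e
      · simp [hlT x h1, hlS y h2] at e
      · rw [hlT x h1, hlT y h2] at e
        exact ht₂ x h1 y h2 (Prod.mk.inj e).2 z hz hz'.2
    refine ⟨fun v => ι (d (rep (l v))), fun x hx y hy e z hz hz' => ?_, ?_⟩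
    · rw [← hsame _ (hrep x hx).1 x hx (hrep x hx).2 z hz hz',
        ← hsame _ (hrep y hy).1 y hy (hrep y hy).2 z hz hz']
      exact hd' _ (hrep x hx).1 _ (hrep y hy).1 (ι.injective e) z hz hz'
    · refine c₄.map (fun i => (0, ι (d (rep i)))) (fun i => i.1 ≠ 0) (fun v hv => ?_) (by simp)
      by_cases h : v ∈ S <;> simp [l, h]

theorem cliqueWidthLE_of_wd [DecidableEq V] [Fintype V] [Nonempty V] {G : SimpleGraph V} {k : ℕ}
    (hk : 1 ≤ k) (h : Wd G univ k) : CliqueWidthLE G (3 * k) := by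
  obtain ⟨t, -, e, f, hf, hS, -, ha⟩ :=
    built_of_dec hk finProdFinEquiv h Subset.rfl univ_nonempty
  have hb : Function.Bijective f := ⟨hf, fun v => (hS v).1 (mem_univ v)⟩
  exact ⟨e, ⟨RelIso.symm ⟨Equiv.ofBijective f hb, fun {x y} => (ha x y).symm⟩⟩⟩

end Pool.Agent.Lib.MP_042ec1_co
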