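import Mathlib

/-!
The graph `S₁,₂,₃`.
-/

namespace Pool.Agent.Lib.MP_042ec1_co

/-- The subdivided claw `S₁,₂,₃`: centre `0`, and the paths `0, 1` and `0, 2, 3` and
`0, 4, 5, 6`. -/
def S123 : SimpleGraph (Fin 7) :=
  SimpleGraph.fromEdgeSet {s(0, 1), s(0, 2), s(2, 3), s(0, 4), s(4, 5), s(5, 6)}

end Pool.Agent.Lib.MP_042ec1_co
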