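import Mathlib
import Pool.Agent.Lib.MP_042ec1_co.Cert

/-!
The small graphs and class lists that are used.
-/

namespace Pool.Agent.Lib.MP_042ec1_co

/-- The triangle. -/
def gK3 : SG := ofCode 3 196864
/-- The claw with centre `0`. -/
def gClaw : SG := ofCode 4 16843008
/-- The four-cycle. -/
def gC4 : SG := ofCode 4 84017408
/-- The five-cycle. -/
def gC5 : SG := ofCode 5 38721945856
/-- The subdivided claw with edges `01, 02, 03, 34, 45`. -/
def gS : SG := ofCode 6 17626562625792
/-- The same graph with an isolated vertex `6`. -/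
def gT : SG := ofCode 7 17626562625792

/-- Forbidden graphs in the main case. -/
def fMain : List SG := [gK3, gT]
/-- Classes in the main case. -/
def jMain : List ℕ :=
  [1, 2, 4, 6, 8, 10, 12, 14, 16, 17, 18, 20, 22, 32, 33, 34, 36, 38, 40, 42, 44, 46]
/-- Lines with three classes in the main case. -/
def trMain : List (List ℕ) :=
  [[1, 16, 46], [1, 18, 44], [1, 20, 42], [1, 22, 40], [40, 6, 17], [14, 16, 33], [14, 17, 32]]

/-- Forbidden graphs around a five-cycle. -/
def fC5 : List SG := [gK3, gS]
/-- Nonzero classes around a five-cycle. -/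
def jC5 : List ℕ := [1, 2, 4, 5, 8, 9, 10, 16, 18, 20]
/-- Forbidden graphs around a four-cycle. -/
def fC4 : List SG := [gK3, gS, gC5]
/-- Classes around a four-cycle. -/
def jC4 : List ℕ := [0, 1, 2, 4, 5, 8, 10]
/-- Forbidden graphs around a claw. -/
def fClaw : List SG := [gK3, gS, gC5, gC4]
/-- Classes around a claw. -/
def jClaw : List ℕ := [0, 1, 2, 4, 8]

end Pool.Agent.Lib.MP_042ec1_co
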