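import Mathlib
import Pool.Agent.Lib.MP_042ec1_co.Graphs

/-!
Further small graphs and class lists.
-/

namespace Pool.Agent.Lib.MP_042ec1_co

/-- The subdivided claw with edges `01, 02, 23, 04, 45, 56`. -/
def gS123 : SG := ofCode 7 9024795802927360
/-- A five-cycle with a pendant path of length two. -/
def gHb : SG := ofCode 7 9008337488314624
/-- A graph on eight vertices containing a five-cycle. -/
def gG5 : SG := ofCode 8 7494553868131500288
/-- A five-cycle with two pendant vertices at adjacent vertices, in another order. -/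
def gHd : SG := ofCode 7 564088186994944
/-- A five-cycle with two further vertices. -/
def gHc : SG := ofCode 7 5067687814365440
/-- The seven-cycle. -/
def gC7 : SG := ofCode 7 9306300844474624
/-- The path on eight vertices. -/
def gP8 : SG := ofCode 8 4620710844295151872
/-- The path on seven vertices. -/
def gP7 : SG := ofCode 7 9024825867763968
/-- The bipartite complement of the path on eight vertices. -/
def gcoP8 : SG := ofCode 8 1516029730728443904
/-- Forbidden graphs. -/
def fHb : List SG := [gK3, gS123]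
/-- Classes. -/
def jHb : List ℕ := [0, 5, 9, 10, 20, 32, 34, 42, 48, 50, 52, 65, 66, 74, 80, 82, 84]
/-- Long lines. -/
def trHb : List (List ℕ) := []
/-- Forbidden graphs. -/
def fG5 : List SG := [gK3, gS123, gHb]
/-- Classes. -/
def jG5 : List ℕ := [0, 9, 10, 36, 42, 50, 69, 73, 80, 104, 116, 129, 130, 133, 146, 148]
/-- Long lines. -/
def trG5 : List (List ℕ) := [[0, 10, 42, 129, 133], [0, 9, 73, 130, 146]]
/-- Forbidden graphs. -/
def fHd : List SG := [gK3, gS123, gHb, gG5]
/-- Classes. -/
def jHd : List ℕ := [0, 1, 2, 4, 5, 9, 10, 16, 18, 20, 36, 42, 50, 52, 69, 73, 80, 84, 116]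
/-- Long lines. -/
def trHd : List (List ℕ) := [[0, 1, 18, 50], [0, 2, 5, 69], [1, 5, 10, 42], [4, 5, 50], [1, 4, 9, 20, 36, 52], [2, 10, 16, 20, 80, 84], [16, 18, 69], [2, 9, 18, 73]]
/-- Forbidden graphs. -/
def fHc : List SG := [gK3, gS123, gHb, gG5, gHd]
/-- Classes. -/
def jHc : List ℕ := [0, 1, 10, 18, 20, 50, 64, 65, 69, 73, 100, 104]
/-- Long lines. -/
def trHc : List (List ℕ) := [[0, 1, 18, 50, 64, 65]]
/-- Forbidden graphs. -/
def fC7 : List SG := [gK3, gS123, gC5]
/-- Classes. -/
def jC7 : List ℕ := [0, 5, 10, 20, 33, 40, 66, 80]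
/-- Long lines. -/
def trC7 : List (List ℕ) := []
/-- Forbidden graphs. -/
def fCir : List SG := [gK3, gS123, gHb, gHd, gHc]
/-- Classes. -/
def jCir : List ℕ := [0, 1, 2, 4, 5, 8, 9, 10, 16, 18, 20]
/-- Forbidden graphs. -/
def fP8 : List SG := [gK3, gC5, gC7, gS123]
/-- Classes. -/
def jP8 : List ℕ := [0, 1, 2, 5, 10, 20, 40, 64, 80, 85, 128, 129, 160, 170]
/-- Forbidden graphs. -/
def fP7 : List SG := [gK3, gC5, gC7, gS123, gP8, gcoP8]
/-- Classes. -/
def jP7 : List ℕ := [0, 2, 5, 10, 20, 32, 40, 42, 65, 80, 85]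

end Pool.Agent.Lib.MP_042ec1_co
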