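import Mathlib
import Pool.Agent.Lib.MP_042ec1_co.DataSmall
import Pool.Agent.Lib.MP_042ec1_co.DataA
import Pool.Agent.Lib.MP_042ec1_co.DataMain

/-!
Bounded width of the two classes.
-/

namespace Pool.Agent.Lib.MP_042ec1_co

open Finset

section

variable {V : Type} [DecidableEq V] [Fintype V] {G : SimpleGraph V} {W : Finset V} {a : ℕ → V}

omit [DecidableEq V] [Fintype V] in
theorem clos_of {F : List SG} {A : SG} {J J' : List ℕ} {c c' : ℕ} (hF : Free G W F) (hK : gK3 ∈ F)
    (hA : Real G W A a) (h1 : clsOK F A J' c = true) (h2 : closOK F A J c' = true)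
    (hJ : ∀ X ∈ J', X ≠ 0 → X ∈ J) : Clos G W A a :=
  fun _ _ _ hw h0 hu hu' e1 e2 =>
    clos_sound hF hK hA h2 hw (hJ _ (cls_mem hF hA h1 hw) h0) h0 hu hu' e1 e2

theorem wd_C5 {K : ℕ} (hK : 1 ≤ K) (hF : Free G W fC5) (hA : Real G W gC5 a)
    (hN : ∀ S : Finset V, (∀ v ∈ S, Out W gC5 a v ∧ cls G gC5 a v ≠ 0) → Wd G S K) :
    Wd G (Bset G W gC5 a) (2 * K * 64) := by
  classical
  have hK3 : gK3 ∈ fC5 := by simp [fC5]
  have hJ : ∀ v, Out W gC5 a v → cls G gC5 a v ≠ 0 → cls G gC5 a v ∈ jC5 := fun v hv h0 =>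
    (List.mem_cons.1 (cls_mem hF hA clsC5 hv)).resolve_left h0
  have hcl : Clos G W gC5 a := clos_of hF hK3 hA clsC5 closC5 fun X hX h0 =>
    (List.mem_cons.1 hX).resolve_left h0
  have hind := ind_Bset hF hK3 hA hcl
  set B := Bset G W gC5 a with hB
  have hout : ∀ v ∈ B, Out W gC5 a v := fun v hv => (mem_Bset.1 hv).1
  let fl : V → Prop := fun x => ∃ u ∈ B, cls G gC5 a u = 0 ∧ G.Adj x u
  let g : V → Option V := fun x =>
    if cls G gC5 a x = 0 then some x else if h : fl x then some h.choose else none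
  have hg0 : ∀ x, cls G gC5 a x = 0 → g x = some x := fun x h => by simp only [g, if_pos h]
  have hg1 : ∀ x ∈ B, cls G gC5 a x ≠ 0 → ∀ u ∈ B, cls G gC5 a u = 0 → G.Adj x u →
      g x = some u := by
    intro x hx h0 u hu hu0 e
    have hf : fl x := ⟨u, hu, hu0, e⟩
    simp only [g, if_neg h0, dif_pos hf]
    obtain ⟨h1, h2, h3⟩ := hf.choose_spec
    by_contra hne
    obtain ⟨c, hc⟩ := chk_sound f1C5 _ (hJ x (hout x hx) h0)
    exact no3 hF hA hc ⟨hout x hx, rfl⟩ ⟨hout u hu, hu0⟩ ⟨hout _ h1, h2⟩ (Ed.adj e.symm rfl)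
      (Ed.adj h3.symm rfl)
      (Ed.non (fun h => hne (congrArg some h)) (hind _ h1 _ hu (h2.trans hu0.symm)) rfl)
  have hf2 : ∀ x ∈ B, ∀ z ∈ B, cls G gC5 a x ≠ 0 → cls G gC5 a z ≠ 0 → ∀ u ∈ B,
      cls G gC5 a u = 0 → G.Adj x u → ¬ G.Adj z u →
      (G.Adj x z ↔ gtab (cls G gC5 a x) (cls G gC5 a z) = true) := by
    intro x hx z hz hx0 hz0 u hu hu0 e1 e2
    obtain ⟨c, hc⟩ := chk_sound f2C5 (cls G gC5 a x, cls G gC5 a z) (by
      simp only [List.mem_flatMap, List.mem_map]
      exact ⟨_, hJ x (hout x hx) hx0, _, hJ z (hout z hz) hz0, rfl⟩)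
    have ix : In G W gC5 a x _ := ⟨hout x hx, rfl⟩
    have iz : In G W gC5 a z _ := ⟨hout z hz, rfl⟩
    have iu : In G W gC5 a u 0 := ⟨hout u hu, hu0⟩
    have hne : z ≠ x := fun h => e2 (h ▸ e1)
    by_contra hno
    rcases hgt : gtab (cls G gC5 a x) (cls G gC5 a z) with _ | _
    · simp only [hgt, cond_false] at hc hno
      exact no3 hF hA hc ix iz iu (Ed.adj (by simpa using hno : G.Adj x z).symm rfl)
        (Ed.adj e1.symm rfl) (Ed.non (iu.ne iz hz0.symm) (fun h => e2 h.symm) rfl)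
    · simp only [hgt, cond_true] at hc hno
      exact no3 hF hA hc ix iz iu (Ed.non hne (fun h => hno (by simpa using h.symm)) rfl)
        (Ed.adj e1.symm rfl) (Ed.non (iu.ne iz hz0.symm) (fun h => e2 h.symm) rfl)
  have := wd_group (G := G) (W := B) (k := 2 * K) (by omega)
    (fun x => ((⟨cls G gC5 a x, cls_lt x⟩ : Fin (2 ^ gC5.n)), decide (fl x))) g ?_ ?_
  · exact this
  · intro x hx y hy z hz hxy hxz hyz
    simp only [Prod.mk.injEq, Fin.mk.injEq, decide_eq_decide] at hxy
    obtain ⟨e1, e2⟩ := hxy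
    by_cases hx0 : cls G gC5 a x = 0
    · have hy0 : cls G gC5 a y = 0 := e1 ▸ hx0
      by_cases hz0 : cls G gC5 a z = 0
      · exact iff_of_false (hind x hx z hz (hx0.trans hz0.symm))
          (hind y hy z hz (hy0.trans hz0.symm))
      · exact iff_of_false
          (fun h => hxz ((hg0 x hx0).trans (hg1 z hz hz0 x hx hx0 h.symm).symm))
          (fun h => hyz ((hg0 y hy0).trans (hg1 z hz hz0 y hy hy0 h.symm).symm))
    have hy0 : cls G gC5 a y ≠ 0 := e1 ▸ hx0
    by_cases hz0 : cls G gC5 a z = 0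
    · exact iff_of_false (fun h => hxz ((hg1 x hx hx0 z hz hz0 h).trans (hg0 z hz0).symm))
        (fun h => hyz ((hg1 y hy hy0 z hz hz0 h).trans (hg0 z hz0).symm))
    by_cases hfx : fl x
    · obtain ⟨u, h1, h2, h3⟩ := hfx
      obtain ⟨u', h1', h2', h3'⟩ := e2.1 ⟨u, h1, h2, h3⟩
      rw [hf2 x hx z hz hx0 hz0 u h1 h2 h3 fun h =>
          hxz ((hg1 x hx hx0 u h1 h2 h3).trans (hg1 z hz hz0 u h1 h2 h).symm),
        hf2 y hy z hz hy0 hz0 u' h1' h2' h3' fun h =>
          hyz ((hg1 y hy hy0 u' h1' h2' h3').trans (hg1 z hz hz0 u' h1' h2' h).symm), e1]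
    · have hfz : fl z := by
        by_contra hfz
        apply hxz
        simp only [g, if_neg hx0, if_neg hz0, dif_neg hfx, dif_neg hfz]
      obtain ⟨u, h1, h2, h3⟩ := hfz
      rw [G.adj_comm x z, G.adj_comm y z,
        hf2 z hz x hx hz0 hx0 u h1 h2 h3 fun h => hfx ⟨u, h1, h2, h⟩,
        hf2 z hz y hy hz0 hy0 u h1 h2 h3 fun h => hfx (e2.2 ⟨u, h1, h2, h⟩), e1]
  · rintro (_ | u)
    · refine (hN _ fun v hv => ?_).mono (by omega)
      rw [mem_filter] at hv
      refine ⟨hout v hv.1, fun h => ?_⟩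
      rw [hg0 v h] at hv
      cases hv.2
    · refine wd_erase hK u (hN _ fun v hv => ?_)
      rw [mem_erase, mem_filter] at hv
      refine ⟨hout v hv.2.1, fun h => hv.1 ?_⟩
      rw [hg0 v h] at hv
      exact Option.some.inj hv.2.2

end

theorem mach0 (F : List SG) (A : SG) (J : List ℕ) {c : ℕ} (h1 : SplitOK F A J [])
    (h2 : pairsOK F A J [] c = true) : ∃ K : ℕ, 1 ≤ K ∧ ∀ (V : Type) [DecidableEq V] [Fintype V]
    (G : SimpleGraph V) (W W' : Finset V) (a : ℕ → V), Free G W F → Real G W A a →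
    (∀ v ∈ W', Out W A a v ∧ cls G A a v ∈ J) → Ind G A a W' → Wd G W' K := by
  obtain ⟨K, hK, h⟩ := anchored A 64 (by omega)
  refine ⟨K, hK, fun V _ _ G W W' a hF hA hW' hind => h F J [] h1 V G W W' a hF hA hW' hind
    (fun X hX Y hY hXY => pairs_sound hF hA (fun v hv => (hW' v hv).1) hind h2 hX hY hXY
      (by simp)) (by simp)⟩

theorem thmA : ∃ k : ℕ, 1 ≤ k ∧ ∀ (V : Type) [DecidableEq V] [Fintype V] (G : SimpleGraph V)
    (W : Finset V), Free G W fC5 → Wd G W k := by
  obtain ⟨K₁, hK₁, h₁⟩ := mach0 fC5 gC5 jC5 c5_split pairsC5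
  obtain ⟨K₂, hK₂, h₂⟩ := mach0 fC4 gC4 jC4 c4_split pairsC4
  obtain ⟨K₃, hK₃, h₃⟩ := mach0 fClaw gClaw jClaw claw_split pairsClaw
  refine ⟨2 ^ gC5.n * (2 * K₁ * 64) + 2 ^ gC4.n * K₂ + 2 ^ gClaw.n * K₃ + 3, by omega, ?_⟩
  intro V _ _ G W
  induction W using Finset.strongInduction with
  | H W ih =>
  intro hF
  have ih' := fun W' (h : W' ⊂ W) => ih W' h (hF.mono h.subset)
  have hK3 : gK3 ∈ fC5 := by simp [fC5]
  by_cases c5 : ∃ a, Real G W gC5 a
  · obtain ⟨a, hA⟩ := c5
    refine closure_step hA (by decide) (clos_of hF hK3 hA clsC5 closC5 fun X hX h0 =>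
      (List.mem_cons.1 hX).resolve_left h0) (K := 2 * K₁ * 64) (by omega)
      (wd_C5 hK₁ hF hA fun S hS => h₁ V G W S a hF hA (fun v hv => ⟨(hS v hv).1,
        (List.mem_cons.1 (cls_mem hF hA clsC5 (hS v hv).1)).resolve_left (hS v hv).2⟩)
        fun x hx y hy h => ind_ne_zero hF hK3 hA (hS x hx).1.1 (hS y hy).1.1 h (hS x hx).2)
      (by omega) ih'
  have hF4 : Free G W fC4 := by
    intro T hT
    simp only [fC4, List.mem_cons, List.not_mem_nil, or_false] at hT
    rcases hT with rfl | rfl | rfl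
    · exact hF _ hK3
    · exact hF _ (by simp [fC5])
    · exact fun f hf => c5 ⟨f, hf⟩
  by_cases c4 : ∃ a, Real G W gC4 a
  · obtain ⟨a, hA⟩ := c4
    have hK : gK3 ∈ fC4 := by simp [fC4]
    have hcl := clos_of hF4 hK hA clsC4 closC4 fun X hX _ => hX
    exact closure_step hA (by decide) hcl hK₂ (h₂ V G W _ a hF4 hA
      (fun v hv => ⟨(mem_Bset.1 hv).1, cls_mem hF4 hA clsC4 (mem_Bset.1 hv).1⟩)
      (ind_Bset hF4 hK hA hcl)) (by omega) ih'
  have hF3 : Free G W fClaw := by
    intro T hT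
    simp only [fClaw, List.mem_cons, List.not_mem_nil, or_false] at hT
    rcases hT with rfl | rfl | rfl | rfl
    · exact hF _ hK3
    · exact hF _ (by simp [fC5])
    · exact fun f hf => c5 ⟨f, hf⟩
    · exact fun f hf => c4 ⟨f, hf⟩
  by_cases c3 : ∃ a, Real G W gClaw a
  · obtain ⟨a, hA⟩ := c3
    have hK : gK3 ∈ fClaw := by simp [fClaw]
    have hcl := clos_of hF3 hK hA clsClaw closClaw fun X hX _ => hX
    exact closure_step hA (by decide) hcl hK₃ (h₃ V G W _ a hF3 hA
      (fun v hv => ⟨(mem_Bset.1 hv).1, cls_mem hF3 hA clsClaw (mem_Bset.1 hv).1⟩)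
      (ind_Bset hF3 hK hA hcl)) (by omega) ih'
  refine (wd_deg_two fun v hv x hx y hy z hz e1 e2 e3 => ?_).mono (by omega)
  by_contra hno
  push Not at hno
  have ht := no_tri hF hK3
  refine c3 ⟨fun e => [v, x, y, z].getD e v, fun i hi => ?_⟩
  change i < 4 at hi
  have e10 : Ed G x v (gClaw.adj 1 0) := Ed.adj e1.symm rfl
  have e20 : Ed G y v (gClaw.adj 2 0) := Ed.adj e2.symm rfl
  have e30 : Ed G z v (gClaw.adj 3 0) := Ed.adj e3.symm rfl
  have e21 : Ed G y x (gClaw.adj 2 1) :=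
    Ed.non hno.1.symm (fun h => ht v hv y hy x hx e2 h e1) rfl
  have e31 : Ed G z x (gClaw.adj 3 1) :=
    Ed.non hno.2.1.symm (fun h => ht v hv z hz x hx e3 h e1) rfl
  have e32 : Ed G z y (gClaw.adj 3 2) :=
    Ed.non hno.2.2.symm (fun h => ht v hv z hz y hy e3 h e2) rfl
  interval_cases i <;> refine ⟨by assumption, fun e' he' => ?_⟩ <;> interval_cases e' <;> assumption

theorem exc_pair {kA : ℕ} (hA' : ∀ (V : Type) [DecidableEq V] [Fintype V] (G : SimpleGraph V)
    (W : Finset V), Free G W fC5 → Wd G W kA) {V : Type} [DecidableEq V] [Fintype V]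
    {G : SimpleGraph V} {W W' : Finset V} {a : ℕ → V} (hF : Free G W fMain) (hA : Real G W gS a)
    (hW' : ∀ v ∈ W', Out W gS a v) (hind : Ind G gS a W') :
    ListOK G gS a W' [17, 46] (kA * 2) := by
  classical
  intro S hS hm
  simp only [List.mem_cons, List.not_mem_nil, or_false] at hm
  let G' : SimpleGraph V :=
    { Adj := fun u v => cls G gS a u ≠ cls G gS a v ∧ ¬ G.Adj u v
      symm := ⟨fun u v h => ⟨h.1.symm, fun h' => h.2 h'.symm⟩⟩
      loopless := ⟨fun u h => h.1 rfl⟩ }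
  have hG' : ∀ u v, G'.Adj u v ↔ cls G gS a u ≠ cls G gS a v ∧ ¬ G.Adj u v := fun _ _ => Iff.rfl
  have hfree : Free G' S fC5 := by
    intro T hT f hf
    simp only [fC5, List.mem_cons, List.not_mem_nil, or_false] at hT
    rcases hT with rfl | rfl
    · have h0 := hm _ (hf 0 (by decide)).1
      have h1 := hm _ (hf 1 (by decide)).1
      have h2 := hm _ (hf 2 (by decide)).1
      have e1 := (((hf 1 (by decide)).2 0 (by decide)).2.2 rfl).1
      have e2 := (((hf 2 (by decide)).2 0 (by decide)).2.2 rfl).1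
      have e3 := (((hf 2 (by decide)).2 1 (by decide)).2.2 rfl).1
      omega
    · have h0 := hm _ (hf 0 (by decide)).1
      have h1 := hm _ (hf 1 (by decide)).1
      have h2 := hm _ (hf 2 (by decide)).1
      have h3 := hm _ (hf 3 (by decide)).1
      have h4 := hm _ (hf 4 (by decide)).1
      have h5 := hm _ (hf 5 (by decide)).1
      have e1 := (((hf 1 (by decide)).2 0 (by decide)).2.2 rfl).1
      have e2 := (((hf 2 (by decide)).2 0 (by decide)).2.2 rfl).1
      have e3 := (((hf 3 (by decide)).2 0 (by decide)).2.2 rfl).1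
      have e4 := (((hf 4 (by decide)).2 3 (by decide)).2.2 rfl).1
      have e5 := (((hf 5 (by decide)).2 4 (by decide)).2.2 rfl).1
      have key : ∀ X Y c, X ≠ Y →
          certOK fMain (cfgL gS [X, Y, Y, Y, X, Y] 1125281431552) c = true →
          (∀ e < 6, cls G gS a (f e) = [X, Y, Y, Y, X, Y].getD e 0) → False := by
        intro X Y c hXY hc hcls
        refine no_cfgL hF hA hc f fun e he => ⟨⟨hW' _ (hS (hf e he).1), hcls e he⟩,
          fun e' he' => ⟨((hf e he).2 e' he').1, ?_⟩⟩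
        have he6 : e < 6 := he
        have s1 := ((hf e he).2 e' he').2
        have s2 := hind _ (hS (hf e he).1) _ (hS (hf e' (he'.trans he)).1)
        rw [hG'] at s1
        rw [hcls e he, hcls e' (he'.trans he)] at s1 s2
        have hYX := hXY.symm
        interval_cases e <;> interval_cases e' <;>
          simp only [List.getD_cons_zero, List.getD_cons_succ] at s1 s2 <;>
          first
          | exact iff_of_false (s2 trivial) (by decide)
          | exact iff_of_false (s1.2 rfl).2 (by decide)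
          | exact iff_of_true (by
              by_contra hc
              exact absurd (s1.1 ⟨by assumption, hc⟩) (by decide)) rfl
      rcases h0 with h0 | h0
      · refine key 17 46 _ (by omega) exc_17 fun e he => ?_
        interval_cases e <;> simp only [List.getD_cons_zero, List.getD_cons_succ] <;> omega
      · refine key 46 17 _ (by omega) exc_46 fun e he => ?_
        interval_cases e <;> simp only [List.getD_cons_zero, List.getD_cons_succ] <;> omega
  have := Dec.transfer (G' := G) (W' := S) (hA' V G' S hfree)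
    (fun v => decide (cls G gS a v = 17)) ?_ (fun _ _ _ _ _ _ h h' => (h' h).elim)
  · rwa [Fintype.card_bool] at this
  intro x hx y hy hxy z hz _ h
  rw [decide_eq_decide] at hxy
  have e : cls G gS a x = cls G gS a y := by
    have := hm x hx
    have := hm y hy
    omega
  by_cases hc : cls G gS a x = cls G gS a z
  · exact iff_of_false (hind x (hS hx) z (hS hz) hc) (hind y (hS hy) z (hS hz) (e ▸ hc))
  · rw [hG', hG', ← e] at h
    tauto

theorem thmMain : ∃ k : ℕ, ∀ (V : Type) [DecidableEq V] [Fintype V] (G : SimpleGraph V)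
    (W : Finset V), Free G W fMain → Wd G W k := by
  classical
  obtain ⟨kA, hkA, hA'⟩ := thmA
  obtain ⟨K, hK, h⟩ := anchored gS ((64 + kA * 2) * 3) (by omega)
  refine ⟨kA + 2 ^ gS.n * K, fun V _ _ G W hF => ?_⟩
  have hK3 : gK3 ∈ fMain := by simp [fMain]
  by_cases hs : ∃ a, Real G W gS a
  swap
  · refine (hA' V G W fun T hT => ?_).mono (by omega)
    simp only [fC5, List.mem_cons, List.not_mem_nil, or_false] at hT
    rcases hT with rfl | rfl
    · exact hF _ hK3
    · exact fun f hf => hs ⟨f, hf⟩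
  obtain ⟨a, hA⟩ := hs
  set W' := W.filter (Out W gS a) with hW'
  have hout : ∀ v ∈ W', Out W gS a v := fun v hv => (mem_filter.1 hv).2
  have hJ : ∀ v ∈ W', cls G gS a v ∈ jMain := fun v hv => cls_mem hF hA clsMain (hout v hv)
  have hind : Ind G gS a W' := fun x hx y hy e =>
    ind_ne_zero hF hK3 hA (hout x hx).1 (hout y hy).1 e fun h0 =>
      absurd (h0 ▸ hJ x hx) (by decide)
  have hp : ∀ X ∈ jMain, ∀ Y ∈ jMain, X < Y → ListOK G gS a W' [X, Y] (64 + kA * 2) := by
    intro X hX Y hY hXY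
    by_cases hex : (X, Y) ∈ [(17, 46)]
    · obtain ⟨rfl, rfl⟩ : X = 17 ∧ Y = 46 := by simpa using hex
      exact (exc_pair hA' hF hA hout hind).mono (by omega)
    · exact (pairs_sound hF hA hout hind pairsMain hX hY hXY hex).mono (by omega)
  have hp' : ∀ X ∈ jMain, ∀ Y ∈ jMain, X ≠ Y → ListOK G gS a W' [X, Y] (64 + kA * 2) := by
    intro X hX Y hY hXY
    rcases lt_or_gt_of_ne hXY with h | h
    · exact hp X hX Y hY h
    · exact (hp Y hY X hX h).sub (by simp)
  have ht : ∀ X Y Z c, tripB fMain gS X Y Z c = true → X ∈ jMain → Y ∈ jMain → Z ∈ jMain →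
      X ≠ Y → X ≠ Z → Y ≠ Z → ListOK G gS a W' [X, Y, Z] ((64 + kA * 2) * 3) :=
    fun X Y Z c hc hX hY hZ h1 h2 h3 => trip_sound hF hK3 hA hout hind (by omega) h1 h2 h3 hc
      (hp' X hX Y hY h1) (hp' X hX Z hZ h2) (hp' Y hY Z hZ h3)
  have hw := h fMain jMain trMain main_split V G W W' a hF hA (fun v hv => ⟨hout v hv, hJ v hv⟩)
    hind (fun X hX Y hY hXY => (hp X hX Y hY hXY).mono (by omega)) (by
      intro γ hγ
      simp only [trMain, List.mem_cons, List.not_mem_nil, or_false] at hγ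
      rcases hγ with rfl | rfl | rfl | rfl | rfl | rfl | rfl
      · apply ht _ _ _ _ trip_1_16 <;> decide
      · apply ht _ _ _ _ trip_1_18 <;> decide
      · apply ht _ _ _ _ trip_1_20 <;> decide
      · apply ht _ _ _ _ trip_1_22 <;> decide
      · apply ht _ _ _ _ trip_40_6 <;> decide
      · apply ht _ _ _ _ trip_14_16 <;> decide
      · apply ht _ _ _ _ trip_14_17 <;> decide)
  have := wd_anchor hK hw hout
  have e : (range gS.n).image a ∪ W' = W := by
    ext x
    simp only [mem_union, mem_image, mem_range, hW', mem_filter, Out]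
    constructor
    · rintro (⟨i, hi, rfl⟩ | h)
      · exact (hA i hi).1
      · exact h.1
    · intro hx
      by_contra hc
      push Not at hc
      obtain ⟨i, hi, e⟩ := hc.2 hx hx
      exact hc.1 i hi e.symm
  rw [e] at this
  exact this.mono (by omega)

end Pool.Agent.Lib.MP_042ec1_co
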