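import Mathlib
import Pool.Agent.Lib.MP_042ec1_co.PathFam

/-!
Long odd cycles.
-/

namespace Pool.Agent.Lib.MP_042ec1_co

open Finset

variable {V : Type} {G : SimpleGraph V} {W : Finset V}

/-- A closed walk of length `m` inside `W`. -/
def CW (G : SimpleGraph V) (W : Finset V) (m : ℕ) : Prop :=
  ∃ c : ℕ → V, (∀ i < m, c i ∈ W ∧ G.Adj (c i) (c (i + 1))) ∧ c m = c 0

theorem exists_odd (h : ¬ ∃ s : V → Bool, ∀ x ∈ W, ∀ y ∈ W, G.Adj x y → s x ≠ s y) :
    ∃ m, m % 2 = 1 ∧ CW G W m := by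
  let H : SimpleGraph V :=
    { Adj := fun u v => G.Adj u v ∧ u ∈ W ∧ v ∈ W
      symm := ⟨fun u v h => ⟨h.1.symm, h.2.2, h.2.1⟩⟩
      loopless := ⟨fun u h => G.irrefl h.1⟩ }
  have h1 : ¬ H.Colorable 2 := by
    rintro ⟨C⟩
    refine h ⟨fun v => decide (C v = 0), fun x hx y hy e h' => ?_⟩
    have h2 : C x ≠ C y := C.valid (⟨e, hx, hy⟩ : H.Adj x y)
    rw [decide_eq_decide] at h'
    revert h2 h'
    generalize C x = u
    generalize C y = v
    revert u v
    decide
  rw [SimpleGraph.two_colorable_iff_forall_loop_even] at h1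
  push Not at h1
  obtain ⟨u, w, hw⟩ := h1
  refine ⟨w.length, Nat.not_even_iff.1 hw, w.getVert, fun i hi => ?_, by simp⟩
  have := w.adj_getVert_succ hi
  exact ⟨this.2.1, this.1⟩

/-- An induced cycle of length `n`, as a periodic sequence. -/
structure Cyc (G : SimpleGraph V) (W : Finset V) (n : ℕ) (c : ℕ → V) : Prop where
  mem : ∀ i, c i ∈ W
  adj : ∀ i, G.Adj (c i) (c (i + 1))
  per : ∀ i, c (i + n) = c i
  ne : ∀ i d, 0 < d → d < n → c i ≠ c (i + d)
  non : ∀ i d, 1 < d → d + 1 < n → ¬ G.Adj (c i) (c (i + d))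

theorem exists_cyc (h : ∃ m, m % 2 = 1 ∧ CW G W m) : ∃ n c, n % 2 = 1 ∧ Cyc G W n c := by
  classical
  obtain ⟨h1, c₀, h2, h3⟩ := Nat.find_spec h
  have hmin : ∀ m < Nat.find h, m % 2 = 1 → ¬ CW G W m := fun m hm h' h'' =>
    Nat.find_min h hm ⟨h', h''⟩
  generalize Nat.find h = n at *
  have hn : 0 < n := by omega
  let c : ℕ → V := fun t => c₀ (t % n)
  have mem : ∀ i, c i ∈ W := fun i => (h2 _ (Nat.mod_lt _ hn)).1
  have adj : ∀ i, G.Adj (c i) (c (i + 1)) := by
    intro i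
    have h4 := Nat.mod_lt i hn
    have h5 := (h2 _ h4).2
    have h6 : (i + 1) % n = (i % n + 1) % n := by simp
    simp only [c, h6]
    rcases Nat.lt_or_ge (i % n + 1) n with h7 | h7
    · rwa [Nat.mod_eq_of_lt h7]
    · have h8 : i % n + 1 = n := by omega
      rw [h8] at h5 ⊢
      rwa [Nat.mod_self, ← h3]
  have per : ∀ i, c (i + n) = c i := fun i => by simp [c]
  have w1 : ∀ i d, c (i + d) = c i → CW G W d := fun i d e =>
    ⟨fun t => c (i + t), fun t _ => ⟨mem _, adj _⟩, e⟩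
  have w2 : ∀ i d, G.Adj (c (i + d)) (c i) → CW G W (d + 1) := by
    intro i d e
    refine ⟨fun t => if t ≤ d then c (i + t) else c i, fun t ht => ?_, by simp⟩
    have h4 : t ≤ d := by omega
    simp only [if_pos h4]
    refine ⟨mem _, ?_⟩
    split_ifs with h5
    · exact adj _
    · obtain rfl : t = d := by omega
      exact e
  refine ⟨n, c, h1, mem, adj, per, fun i d h4 h5 e => ?_, fun i d h4 h5 e => ?_⟩
  · have e' : i + d + (n - d) = i + n := by omega
    by_cases h6 : d % 2 = 1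
    · exact hmin d h5 h6 (w1 i d e.symm)
    · exact hmin (n - d) (by omega) (by omega) (w1 (i + d) _ (by rw [e', per, e]))
  · have e' : i + d + (n - d) = i + n := by omega
    by_cases h6 : d % 2 = 0
    · exact hmin (d + 1) h5 (by omega) (w2 i d e.symm)
    · exact hmin (n - d + 1) (by omega) (by omega) (w2 (i + d) _ (by rwa [e', per]))

theorem Cyc.real {n : ℕ} {c : ℕ → V} (h : Cyc G W n c) {H : SG} (hH : H.n = n ∧
    ∀ i < n, ∀ j < i, (H.adj i j = true ↔ i = j + 1 ∨ (i + 1 = n ∧ j = 0))) : Real G W H c := by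
  intro i hi
  rw [hH.1] at hi
  refine ⟨h.mem i, fun j hj => ?_⟩
  obtain ⟨d, rfl⟩ : ∃ d, i = j + d := ⟨i - j, by omega⟩
  refine ⟨(h.ne j d (by omega) (by omega)).symm, ?_⟩
  rw [hH.2 _ hi j hj]
  constructor
  · intro e
    by_contra hc
    exact h.non j d (by omega) (by omega) e.symm
  · rintro (e | ⟨e, rfl⟩)
    · rw [e]
      exact (h.adj j).symm
    · have := h.adj (0 + d)
      rwa [e, ← zero_add n, h.per] at this

theorem Cyc.isP {n : ℕ} {c : ℕ → V} (h : Cyc G W n c) (hn : 9 ≤ n) (k : ℕ) :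
    IsP G W fun i => c (k + i) := by
  have key : ∀ i < 8, ∀ j < i, c (k + j) ≠ c (k + i) ∧
      (G.Adj (c (k + j)) (c (k + i)) ↔ j + 1 = i) := by
    intro i hi j hj
    obtain ⟨d, rfl⟩ : ∃ d, i = j + d := ⟨i - j, by omega⟩
    rw [← add_assoc]
    refine ⟨h.ne _ d (by omega) (by omega), fun e => ?_, fun e => ?_⟩
    · by_contra hc
      exact h.non _ d (by omega) (by omega) e
    · obtain rfl : d = 1 := by omega
      exact h.adj _
  refine ⟨fun i _ => h.mem _, fun i hi j hj e => ?_, fun i hi j hj => ?_⟩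
  · rcases lt_trichotomy i j with h1 | h1 | h1
    · exact ((key j hj i h1).1 e).elim
    · exact h1
    · exact ((key i hi j h1).1 e.symm).elim
  · rcases lt_trichotomy i j with h1 | h1 | h1
    · rw [(key j hj i h1).2]
      omega
    · subst h1
      exact iff_of_false G.irrefl (by omega)
    · rw [G.adj_comm, (key i hi j h1).2]
      omega

theorem odd_step [DecidableEq V] (hF : Free G W fP8)
    (h : ¬ ∃ s : V → Bool, ∀ x ∈ W, ∀ y ∈ W, G.Adj x y → s x ≠ s y) {k : ℕ} (hk : 3 ≤ k)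
    (ih : ∀ W' ⊂ W, Wd G W' k) : Wd G W k := by
  obtain ⟨n, c, h1, hc⟩ := exists_cyc (exists_odd h)
  have hn : 9 ≤ n := by
    by_contra hlt
    have : n = 1 ∨ n = 3 ∨ n = 5 ∨ n = 7 := by omega
    rcases this with rfl | rfl | rfl | rfl
    · exact (hc.adj 0).ne (hc.per 0).symm
    · exact hF gK3 (by simp [fP8]) c (hc.real (by decide))
    · exact hF gC5 (by simp [fP8]) c (hc.real (by decide))
    · exact hF gC7 (by simp [fP8]) c (hc.real (by decide))
  have ha := hc.isP hn 0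
  have hfam : ∀ k, Fam G W (fun i => c (0 + i)) fun i => c (k + i) := by
    intro k
    induction k with
    | zero => exact Relation.ReflTransGen.refl
    | succ k ih =>
      exact ih.tail ⟨hc.isP hn _, ⟨0, fun i hi h0 => ⟨i - 1, by omega, congrArg c (by omega)⟩⟩,
        7, fun i hi h0 => ⟨i + 1, by omega, congrArg c (by omega)⟩⟩
  have hno : ∀ z ∈ W, ¬ AB G z fun i => c (0 + i) := by
    intro z hz hab
    have h2 : ∀ k, G.Adj z (c (k + 1)) ↔ ¬ G.Adj z (c k) := by
      intro k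
      refine ⟨fun e e' => no_tri hF (by simp [fP8]) _ hz _ (hc.mem _) _ (hc.mem _) e' (hc.adj k) e,
        fun e => ?_⟩
      obtain ⟨m, hm, h3⟩ := ((hfam k).ab hF ha hz).2 hab
      have : m = 0 ∨ m = 1 := by omega
      rcases this with rfl | rfl
      · exact (e (h3 0 (by omega) rfl)).elim
      · exact h3 1 (by omega) rfl
    have h3 : ∀ k, G.Adj z (c k) ↔ (G.Adj z (c 0) ↔ k % 2 = 0) := by
      intro k
      induction k with
      | zero => simp
      | succ k ih =>
        have : (k + 1) % 2 = 0 ↔ ¬ k % 2 = 0 := by omega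
        rw [h2, ih, this]
        tauto
    have h4 := h3 (0 + n)
    rw [hc.per] at h4
    have : ¬ (0 + n) % 2 = 0 := by omega
    tauto
  have h0 : c (0 + 0) ∈ Tset G W fun i => c (0 + i) :=
    (mem_Tset ha).2 ⟨_, Relation.ReflTransGen.refl, 0, by omega, rfl⟩
  have := wd_union (G := G) (B := Tset G W fun i => c (0 + i)) (C := W \ _) (k := k) (by omega)
    disjoint_sdiff (fun x hx y hy e => (mem_sdiff.1 hy).2
      (mem_of_adj hF ha (mem_sdiff.1 hy).1 (hno y (mem_sdiff.1 hy).1) hx e.symm))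
    ((wd_Tset hF ha hno).mono hk) (ih _ (sdiff_ssubset Tset_sub ⟨_, h0⟩))
  rwa [union_sdiff_of_subset Tset_sub] at this

end Pool.Agent.Lib.MP_042ec1_co
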