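import Mathlib
import Pool.Agent.Lib.MP_042ec1_co.BipThm
import Pool.Agent.Lib.MP_042ec1_co.OddCycle
import Pool.Agent.Lib.MP_042ec1_co.Circ
import Pool.Agent.Lib.MP_042ec1_co.DataHb
import Pool.Agent.Lib.MP_042ec1_co.DataG5
import Pool.Agent.Lib.MP_042ec1_co.DataHd
import Pool.Agent.Lib.MP_042ec1_co.DataHc
import Pool.Agent.Lib.MP_042ec1_co.DataC7

/-!
Triangle-free graphs without an induced `S₁,₂,₃` have bounded width.
-/

namespace Pool.Agent.Lib.MP_042ec1_co

open Finset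

theorem anchor_step (F : List SG) (A : SG) (J : List ℕ) (tr : List (List ℕ)) {c c' k₀ : ℕ}
    (hk₀ : 1 ≤ k₀) (hS : SplitOK F A J tr) (h1 : clsOK F A J c = true)
    (h2 : closOK F A J c' = true) (hK : gK3 ∈ F) (hn : 0 < A.n)
    (hl : ∀ (V : Type) [DecidableEq V] [Fintype V] (G : SimpleGraph V) (W W' : Finset V)
      (a : ℕ → V), Free G W F → Real G W A a → (∀ v ∈ W', Out W A a v) → Ind G A a W' →
      BipOK G W' k₀ → ∀ γ ∈ tr, ListOK G A a W' γ (k₀ * 3)) :
    ∃ K : ℕ, ∀ (V : Type) [DecidableEq V] [Fintype V] (G : SimpleGraph V) (W : Finset V)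
      (a : ℕ → V) (k : ℕ), Free G W F → Real G W A a → BipOK G W k₀ → K ≤ k →
      (∀ W' ⊂ W, Wd G W' k) → Wd G W k := by
  obtain ⟨K, hK1, h⟩ := anchored A (k₀ * 3) (by omega)
  refine ⟨2 ^ A.n * K, fun V _ _ G W a k hF hA hB hk ih => ?_⟩
  have hcl : Clos G W A a := fun _ _ _ hw h0 hu hu' e1 e2 =>
    clos_sound hF hK hA h2 hw (cls_mem hF hA h1 hw) h0 hu hu' e1 e2
  have hout : ∀ v ∈ Bset G W A a, Out W A a v := fun v hv => (mem_Bset.1 hv).1
  have hind := ind_Bset hF hK hA hcl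
  have hB' : BipOK G (Bset G W A a) k₀ := hB.mono fun v hv => (hout v hv).1
  exact closure_step hA hn hcl hK1 (h F J tr hS V G W _ a hF hA
    (fun v hv => ⟨hout v hv, cls_mem hF hA h1 (hout v hv)⟩) hind
    (fun X _ Y _ _ => (list_pair hB' hind X Y).mono (by omega))
    (hl V G W _ a hF hA hout hind hB')) hk ih

theorem cir_step {V : Type} [DecidableEq V] [Fintype V] {G : SimpleGraph V} {W : Finset V}
    {a : ℕ → V} {k₀ k : ℕ} (hk₀ : 1 ≤ k₀) (hF : Free G W fCir) (hA : Real G W gC5 a)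
    (hB : BipOK G W k₀) (hk : 2 ^ 5 * (k₀ * 3 * 10 * 10) ≤ k) (ih : ∀ W' ⊂ W, Wd G W' k) :
    Wd G W k := by
  have hJ : ∀ v, Out W gC5 a v → cls G gC5 a v ≠ 0 → cls G gC5 a v ∈ jC5 := fun v hv h0 =>
    (List.mem_cons.1 (cls_mem hF hA clsCir hv)).resolve_left h0
  have hU : ∀ w u, Out W gC5 a w → cls G gC5 a w ≠ 0 → Out W gC5 a u → cls G gC5 a u = 0 →
      ¬ G.Adj w u := fun w u hw h0 hu h1 =>
    ok2_non hF hA cirU hw hu (List.pair_mem_product.2 ⟨hJ w hw h0, by simp [h1]⟩)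
  refine closure_step hA (by decide) (fun w u _ hw h0 hu _ e _ => hU w u hw h0 hu.1 hu.2 e)
    (K := k₀ * 3 * 10 * 10) (by omega) (wd_cir hF hA (fun v hv => ?_) hk₀
      (hB.mono fun v hv => (mem_Bset.1 hv).1.1)) hk ih
  rw [mem_Bset] at hv
  refine ⟨hv.1, hJ v hv.1 fun h0 => ?_⟩
  obtain ⟨w, h1, h2, h3⟩ := hv.2.resolve_left (not_not.2 h0)
  exact hU w v h1 h2 hv.1 h0 h3

theorem Free.cons {V : Type} {G : SimpleGraph V} {W : Finset V} {F : List SG} {A : SG}
    (hF : Free G W F) (h : ¬ ∃ a, Real G W A a) {F' : List SG}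
    (hs : ∀ T ∈ F', T ∈ F ∨ T = A) : Free G W F' := by
  intro T hT
  rcases hs T hT with h' | rfl
  · exact hF T h'
  · exact fun f hf => h ⟨f, hf⟩

theorem thmMain2 : ∃ k : ℕ, ∀ (V : Type) [DecidableEq V] [Fintype V] (G : SimpleGraph V)
    (W : Finset V), Free G W fHb → Wd G W k := by
  obtain ⟨k₀, hk₀, hb⟩ : ∃ k₀, 1 ≤ k₀ ∧ ∀ (V : Type) [DecidableEq V] [Fintype V]
      (G : SimpleGraph V) (W : Finset V), Free G W fHb → BipOK G W k₀ :=
    ⟨2 ^ 7 * 2 ^ 7 * 2, by omega, fun V _ _ G W hF => thmB (hF _ (by simp [fHb]))⟩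
  obtain ⟨K₁, h₁⟩ := anchor_step fHb gHb jHb trHb hk₀ sHb_split clsHb closHb (by simp [fHb])
    (by decide) (by simp [trHb])
  obtain ⟨K₂, h₂⟩ := anchor_step fG5 gG5 jG5 trG5 hk₀ sG5_split clsG5 closG5 (by simp [fG5])
    (by decide) (by
      intro V _ _ G W W' a hF hA hW' hind hB γ hγ
      simp only [trG5, List.mem_cons, List.not_mem_nil, or_false] at hγ
      rcases hγ with rfl | rfl
      · exact list_uab hF (by simp [fG5]) hA hW' hind hk₀ hB uab0a uab0b uab0c (by decide)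
      · exact list_uab hF (by simp [fG5]) hA hW' hind hk₀ hB uab1a uab1b uab1c (by decide))
  obtain ⟨K₃, h₃⟩ := anchor_step fHd gHd jHd trHd hk₀ sHd_split clsHd closHd (by simp [fHd])
    (by decide) (by
      intro V _ _ G W W' a hF hA hW' hind hB γ hγ
      simp only [trHd, List.mem_cons, List.not_mem_nil, or_false] at hγ
      refine ListOK.mono (k := k₀) ?_ (by omega)
      rcases hγ with rfl | rfl | rfl | rfl | rfl | rfl | rfl | rfl
      · exact list_bip hF hA hW' hind hB bipHd0 (by decide)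
      · exact list_bip hF hA hW' hind hB bipHd1 (by decide)
      · exact list_bip hF hA hW' hind hB bipHd2 (by decide)
      · exact list_bip hF hA hW' hind hB bipHd3 (by decide)
      · exact list_bip hF hA hW' hind hB bipHd4 (by decide)
      · exact list_bip hF hA hW' hind hB bipHd5 (by decide)
      · exact list_bip hF hA hW' hind hB bipHd6 (by decide)
      · exact list_bip hF hA hW' hind hB bipHd7 (by decide))
  obtain ⟨K₄, h₄⟩ := anchor_step fHc gHc jHc trHc hk₀ sHc_split clsHc closHc (by simp [fHc])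
    (by decide) (by
      intro V _ _ G W W' a hF hA hW' hind hB γ hγ
      simp only [trHc, List.mem_cons, List.not_mem_nil, or_false] at hγ
      subst hγ
      exact (list_bip hF hA hW' hind hB bipHc0 (by decide)).mono (by omega))
  obtain ⟨K₅, h₅⟩ := anchor_step fC7 gC7 jC7 trC7 hk₀ sC7_split clsC7 closC7 (by simp [fC7])
    (by decide) (by simp [trC7])
  refine ⟨K₁ + K₂ + K₃ + K₄ + K₅ + 2 ^ 5 * (k₀ * 3 * 10 * 10), fun V _ _ G W => ?_⟩
  induction W using Finset.strongInduction with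
  | H W ih =>
  intro hF
  have ih' := fun W' (h : W' ⊂ W) => ih W' h (hF.mono h.subset)
  have hB := hb V G W hF
  by_cases c1 : ∃ a, Real G W gHb a
  · obtain ⟨a, hA⟩ := c1
    exact h₁ V G W a _ hF hA hB (by omega) ih'
  have hF2 : Free G W fG5 := hF.cons c1 (by simp [fG5, fHb])
  by_cases c2 : ∃ a, Real G W gG5 a
  · obtain ⟨a, hA⟩ := c2
    exact h₂ V G W a _ hF2 hA hB (by omega) ih'
  have hF3 : Free G W fHd := hF2.cons c2 (by simp [fG5, fHd])
  by_cases c3 : ∃ a, Real G W gHd a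
  · obtain ⟨a, hA⟩ := c3
    exact h₃ V G W a _ hF3 hA hB (by omega) ih'
  have hF4 : Free G W fHc := hF3.cons c3 (by simp [fHc, fHd])
  by_cases c4 : ∃ a, Real G W gHc a
  · obtain ⟨a, hA⟩ := c4
    exact h₄ V G W a _ hF4 hA hB (by omega) ih'
  by_cases c5 : ∃ a, Real G W gC5 a
  · obtain ⟨a, hA⟩ := c5
    exact cir_step hk₀ (hF4.cons c4 (by simp [fHc, fCir])) hA hB (by omega) ih'
  have hF6 : Free G W fC7 := hF.cons c5 (by simp [fC7, fHb])
  by_cases c6 : ∃ a, Real G W gC7 a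
  · obtain ⟨a, hA⟩ := c6
    exact h₅ V G W a _ hF6 hA hB (by omega) ih'
  by_cases c7 : ∃ s : V → Bool, ∀ x ∈ W, ∀ y ∈ W, G.Adj x y → s x ≠ s y
  · obtain ⟨s, hs⟩ := c7
    exact (hB W Subset.rfl s hs).mono (by omega)
  exact odd_step (hF6.cons c6 (by simp [fC7, fP8])) c7 (by omega) ih'

end Pool.Agent.Lib.MP_042ec1_co
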