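import Mathlib
import Pool.Agent.Lib.MP_042ec1_co.Graphs

/-!
Structural consequences of certificates.
-/

namespace Pool.Agent.Lib.MP_042ec1_co

open Finset

variable {V : Type} {G : SimpleGraph V} {W : Finset V} {F : List SG} {A : SG} {a : ℕ → V}

/-- Distinct vertices with prescribed adjacency. -/
def Ed (G : SimpleGraph V) (u v : V) (b : Bool) : Prop := u ≠ v ∧ (G.Adj u v ↔ b = true)

theorem Ed.adj {u v : V} {b : Bool} (h : G.Adj u v) (hb : b = true) : Ed G u v b :=
  ⟨h.ne, iff_of_true h hb⟩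

theorem Ed.non {u v : V} {b : Bool} (hne : u ≠ v) (h : ¬ G.Adj u v) (hb : b = false) :
    Ed G u v b :=
  ⟨hne, iff_of_false h (by simp [hb])⟩

/-- A vertex outside the anchor in class `X`. -/
def In (G : SimpleGraph V) (W : Finset V) (A : SG) (a : ℕ → V) (v : V) (X : ℕ) : Prop :=
  Out W A a v ∧ cls G A a v = X

theorem In.ne {u v : V} {X Y : ℕ} (hu : In G W A a u X) (hv : In G W A a v Y) (h : X ≠ Y) :
    u ≠ v := by
  rintro rfl
  exact h (hu.2.symm.trans hv.2)

theorem no1 (hF : Free G W F) (hA : Real G W A a) {X code c : ℕ}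
    (h : certOK F (cfgL A [X] code) c = true) {v : V} (hv : In G W A a v X) : False := by
  refine no_cfgL hF hA h (fun _ => v) fun e he => ?_
  obtain rfl : e = 0 := by simpa using he
  exact ⟨hv, fun _ h => by omega⟩

theorem no3 (hF : Free G W F) (hA : Real G W A a) {X0 X1 X2 code c : ℕ}
    (h : certOK F (cfgL A [X0, X1, X2] code) c = true) {v0 v1 v2 : V}
    (h0 : In G W A a v0 X0) (h1 : In G W A a v1 X1) (h2 : In G W A a v2 X2)
    (e10 : Ed G v1 v0 (code.testBit 8)) (e20 : Ed G v2 v0 (code.testBit 16))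
    (e21 : Ed G v2 v1 (code.testBit 17)) : False := by
  refine no_cfgL hF hA h (fun e => [v0, v1, v2].getD e v0) fun e he => ?_
  simp only [List.length_cons, List.length_nil] at he
  interval_cases e <;> refine ⟨by assumption, fun e' he' => ?_⟩ <;> interval_cases e' <;> assumption

theorem no4 (hF : Free G W F) (hA : Real G W A a) {X0 X1 X2 X3 code c : ℕ}
    (h : certOK F (cfgL A [X0, X1, X2, X3] code) c = true) {v0 v1 v2 v3 : V}
    (h0 : In G W A a v0 X0) (h1 : In G W A a v1 X1) (h2 : In G W A a v2 X2)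
    (h3 : In G W A a v3 X3)
    (e10 : Ed G v1 v0 (code.testBit 8)) (e20 : Ed G v2 v0 (code.testBit 16))
    (e21 : Ed G v2 v1 (code.testBit 17)) (e30 : Ed G v3 v0 (code.testBit 24))
    (e31 : Ed G v3 v1 (code.testBit 25)) (e32 : Ed G v3 v2 (code.testBit 26)) : False := by
  refine no_cfgL hF hA h (fun e => [v0, v1, v2, v3].getD e v0) fun e he => ?_
  simp only [List.length_cons, List.length_nil] at he
  interval_cases e <;> refine ⟨by assumption, fun e' he' => ?_⟩ <;> interval_cases e' <;> assumption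

theorem no5 (hF : Free G W F) (hA : Real G W A a) {X0 X1 X2 X3 X4 code c : ℕ}
    (h : certOK F (cfgL A [X0, X1, X2, X3, X4] code) c = true) {v0 v1 v2 v3 v4 : V}
    (h0 : In G W A a v0 X0) (h1 : In G W A a v1 X1) (h2 : In G W A a v2 X2)
    (h3 : In G W A a v3 X3) (h4 : In G W A a v4 X4)
    (e10 : Ed G v1 v0 (code.testBit 8)) (e20 : Ed G v2 v0 (code.testBit 16))
    (e21 : Ed G v2 v1 (code.testBit 17)) (e30 : Ed G v3 v0 (code.testBit 24))
    (e31 : Ed G v3 v1 (code.testBit 25)) (e32 : Ed G v3 v2 (code.testBit 26))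
    (e40 : Ed G v4 v0 (code.testBit 32)) (e41 : Ed G v4 v1 (code.testBit 33))
    (e42 : Ed G v4 v2 (code.testBit 34)) (e43 : Ed G v4 v3 (code.testBit 35)) : False := by
  refine no_cfgL hF hA h (fun e => [v0, v1, v2, v3, v4].getD e v0) fun e he => ?_
  simp only [List.length_cons, List.length_nil] at he
  interval_cases e <;> refine ⟨by assumption, fun e' he' => ?_⟩ <;> interval_cases e' <;> assumption

theorem no_tri (hF : Free G W F) (hK : gK3 ∈ F) :
    ∀ x ∈ W, ∀ y ∈ W, ∀ z ∈ W, G.Adj x y → G.Adj y z → G.Adj x z → False := by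
  intro x hx y hy z hz h1 h2 h3
  refine hF _ hK (fun e => [x, y, z].getD e x) fun i hi => ?_
  change i < 3 at hi
  have e1 : Ed G y x (gK3.adj 1 0) := Ed.adj h1.symm rfl
  have e2 : Ed G z x (gK3.adj 2 0) := Ed.adj h3.symm rfl
  have e3 : Ed G z y (gK3.adj 2 1) := Ed.adj h2.symm rfl
  interval_cases i <;> refine ⟨by assumption, fun e' he' => ?_⟩ <;> interval_cases e' <;> assumption

theorem ind_ne_zero (hF : Free G W F) (hK : gK3 ∈ F) (hA : Real G W A a) {x y : V} (hx : x ∈ W)
    (hy : y ∈ W) (h : cls G A a x = cls G A a y) (h0 : cls G A a x ≠ 0) : ¬ G.Adj x y := by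
  intro hxy
  obtain ⟨i, hi⟩ := Nat.exists_testBit_of_ne_zero h0
  have hin : i < A.n := by
    by_contra hc
    rw [Nat.testBit_lt_two_pow ((cls_lt x).trans_le (Nat.pow_le_pow_right (by omega) (by omega)))]
      at hi
    cases hi
  have h1 := (testBit_cls hin).1 hi
  rw [h] at hi
  exact no_tri hF hK x hx y hy (a i) (hA i hin).1 hxy ((testBit_cls hin).1 hi) h1

theorem not_adj_zero {x : V} (h : cls G A a x = 0) {i : ℕ} (hi : i < A.n) : ¬ G.Adj x (a i) := by
  rw [← testBit_cls hi, h]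
  simp

/-- Classes outside `J` are empty. -/
def clsOK (F : List SG) (A : SG) (J : List ℕ) (c : ℕ) : Bool :=
  chk (fun X c => certOK F (cfgL A [X] 0) c) ((List.range (2 ^ A.n)).filter fun X => !J.contains X) c

theorem cls_mem (hF : Free G W F) (hA : Real G W A a) {J : List ℕ} {c : ℕ}
    (h : clsOK F A J c = true) {v : V} (hv : Out W A a v) : cls G A a v ∈ J := by
  by_contra hc
  obtain ⟨c, hc⟩ := chk_sound h (cls G A a v) (by
    simp only [List.mem_filter, List.mem_range]
    exact ⟨cls_lt v, by simpa using hc⟩)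
  exact no1 hF hA hc ⟨hv, rfl⟩

/-- No path from a nonzero class through two vertices of class zero. -/
def closOK (F : List SG) (A : SG) (J : List ℕ) (c : ℕ) : Bool :=
  chk (fun X c => certOK F (cfgL A [X, 0, 0] 131328) c) (J.filter fun X => !Nat.beq X 0) c

theorem clos_sound (hF : Free G W F) (hK : gK3 ∈ F) (hA : Real G W A a) {J : List ℕ} {c : ℕ}
    (h : closOK F A J c = true) {w u u' : V} (hw : Out W A a w) (hJ : cls G A a w ∈ J)
    (h0 : cls G A a w ≠ 0) (hu : In G W A a u 0) (hu' : In G W A a u' 0) (e1 : G.Adj w u)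
    (e2 : G.Adj u u') : False := by
  obtain ⟨c, hc⟩ := chk_sound h (cls G A a w) (by
    simp only [List.mem_filter]
    refine ⟨hJ, ?_⟩
    rw [Bool.not_eq_true', Bool.eq_false_iff, ne_eq, Nat.beq_eq]
    exact h0)
  have hw' : In G W A a w (cls G A a w) := ⟨hw, rfl⟩
  exact no3 hF hA hc hw' hu hu' (Ed.adj e1.symm rfl)
    (Ed.non (hu'.ne hw' h0.symm) (fun h => no_tri hF hK _ hw.1 _ hu.1.1 _ hu'.1.1 e1 e2 h.symm) rfl)
    (Ed.adj e2.symm rfl)

variable [DecidableEq V]

theorem ListOK.sub {W' : Finset V} {γ γ' : List ℕ} {k : ℕ} (h : ListOK G A a W' γ k)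
    (hs : ∀ t ∈ γ', t ∈ γ) : ListOK G A a W' γ' k :=
  fun S hS hm => h S hS fun x hx => hs _ (hm x hx)

theorem ListOK.mono {W' : Finset V} {γ : List ℕ} {k k' : ℕ} (h : ListOK G A a W' γ k)
    (hk : k ≤ k') : ListOK G A a W' γ k' :=
  fun S hS hm => (h S hS hm).mono hk

/-- No `P₃ + P₂` with the centre of the path in class `X`. -/
def pairB (F : List SG) (A : SG) (X Y c : ℕ) : Bool :=
  certOK F (cfgL A [X, X, Y, Y, Y] 8606777344) c

variable [Fintype V]

theorem pair_sound (hF : Free G W F) (hA : Real G W A a) {W' : Finset V}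
    (hW' : ∀ v ∈ W', Out W A a v) (hind : Ind G A a W') {X Y c : ℕ} (hXY : X ≠ Y)
    (h : pairB F A X Y c = true) : ListOK G A a W' [X, Y] 64 := by
  intro S hS hm
  have hY : ∀ v ∈ S, cls G A a v ≠ X → cls G A a v = Y := fun v hv h => by
    simpa [h] using hm v hv
  refine wd_nested (fun v => cls G A a v = X)
    (fun x hx y hy h1 h2 => hind x (hS hx) y (hS hy) (h1.trans h2.symm))
    (fun x hx y hy h1 h2 => hind x (hS hx) y (hS hy) ((hY x hx h1).trans (hY y hy h2).symm)) ?_
  intro x hx x' hx' u hu v hv w hw h1 h2 huv e1 e2 e3 e4 e5 e6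
  have hy : ∀ t ∈ S, cls G A a t = X → ∀ s ∈ S, G.Adj t s → In G W A a s Y :=
    fun t ht h s hs e => ⟨hW' s (hS hs), hY s hs fun h' =>
      hind t (hS ht) s (hS hs) (h.trans h'.symm) e⟩
  have ix : In G W A a x X := ⟨hW' x (hS hx), h1⟩
  have ix' : In G W A a x' X := ⟨hW' x' (hS hx'), h2⟩
  have iu := hy x hx h1 u hu e1
  have iv := hy x hx h1 v hv e2
  have iw := hy x' hx' h2 w hw e3
  refine no5 hF hA h ix ix' iu iv iw
    (Ed.non (fun e => e4 (e ▸ e3)) (hind _ (hS hx') _ (hS hx) (h2.trans h1.symm)) rfl)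
    (Ed.adj e1.symm rfl) (Ed.non (iu.ne ix' hXY.symm) (fun h => e5 h.symm) rfl)
    (Ed.adj e2.symm rfl) (Ed.non (iv.ne ix' hXY.symm) (fun h => e6 h.symm) rfl)
    (Ed.non huv.symm (hind _ (hS hv) _ (hS hu) (iv.2.trans iu.2.symm)) rfl)
    (Ed.non (iw.ne ix hXY.symm) (fun h => e4 h.symm) rfl) (Ed.adj e3.symm rfl)
    (Ed.non (fun e => e4 (e ▸ e1)) (hind _ (hS hw) _ (hS hu) (iw.2.trans iu.2.symm)) rfl)
    (Ed.non (fun e => e4 (e ▸ e2)) (hind _ (hS hw) _ (hS hv) (iw.2.trans iv.2.symm)) rfl)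

/-- All pairs of classes, except the listed ones, have a certificate. -/
def pairsOK (F : List SG) (A : SG) (J : List ℕ) (ex : List (ℕ × ℕ)) (c : ℕ) : Bool :=
  chk (fun t c => pairB F A t.1 t.2 c || pairB F A t.2 t.1 c)
    (J.flatMap fun X => (J.filter fun Y => Nat.blt X Y && !ex.contains (X, Y)).map fun Y => (X, Y)) c

theorem pairs_sound (hF : Free G W F) (hA : Real G W A a) {W' : Finset V}
    (hW' : ∀ v ∈ W', Out W A a v) (hind : Ind G A a W') {J : List ℕ} {ex : List (ℕ × ℕ)} {c : ℕ}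
    (h : pairsOK F A J ex c = true) {X Y : ℕ} (hX : X ∈ J) (hY : Y ∈ J) (hXY : X < Y)
    (hex : (X, Y) ∉ ex) : ListOK G A a W' [X, Y] 64 := by
  obtain ⟨c, hc⟩ := chk_sound h (X, Y) (by
    simp only [List.mem_flatMap, List.mem_map, List.mem_filter]
    exact ⟨X, hX, Y, ⟨hY, by simp [blt_true hXY, hex]⟩, rfl⟩)
  rcases Bool.or_eq_true_iff.1 hc with hc | hc
  · exact pair_sound hF hA hW' hind hXY.ne hc
  · exact (pair_sound hF hA hW' hind hXY.ne' hc).sub (by simp)

/-- A rainbow independent triple excludes a second vertex of class `X`. -/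
def tripB (F : List SG) (A : SG) (X Y Z c : ℕ) : Bool :=
  chk (fun code c => certOK F (cfgL A [X, X, Y, Z] code) c) [0, 131072, 33554432, 33685504] c

omit [Fintype V] in
theorem trip_sound (hF : Free G W F) (hK : gK3 ∈ F) (hA : Real G W A a) {W' : Finset V}
    (hW' : ∀ v ∈ W', Out W A a v) (hind : Ind G A a W') {X Y Z c k : ℕ} (hk : 1 ≤ k)
    (hXY : X ≠ Y) (hXZ : X ≠ Z) (hYZ : Y ≠ Z) (h : tripB F A X Y Z c = true)
    (p1 : ListOK G A a W' [X, Y] k) (p2 : ListOK G A a W' [X, Z] k)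
    (p3 : ListOK G A a W' [Y, Z] k) : ListOK G A a W' [X, Y, Z] (k * 3) := by
  intro S hS hm
  simp only [List.mem_cons, List.not_mem_nil, or_false] at hm
  by_cases hr : ∃ x ∈ S, ∃ y ∈ S, ∃ z ∈ S, cls G A a x = X ∧ cls G A a y = Y ∧ cls G A a z = Z ∧
      ¬ G.Adj x y ∧ ¬ G.Adj y z ∧ ¬ G.Adj x z
  · obtain ⟨x, hx, y, hy, z, hz, h1, h2, h3, e1, e2, e3⟩ := hr
    refine (wd_erase hk x (p3 _ ((erase_subset _ _).trans hS) fun x' hx' => ?_)).mono (by omega)
    rw [mem_erase] at hx'
    rcases hm x' hx'.2 with h4 | h4 | h4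
    · exfalso
      have ix : In G W A a x X := ⟨hW' x (hS hx), h1⟩
      have ix' : In G W A a x' X := ⟨hW' x' (hS hx'.2), h4⟩
      have iy : In G W A a y Y := ⟨hW' y (hS hy), h2⟩
      have iz : In G W A a z Z := ⟨hW' z (hS hz), h3⟩
      have key : ∀ code ∈ [0, 131072, 33554432, 33685504], code.testBit 8 = false →
          code.testBit 16 = false → code.testBit 24 = false → code.testBit 26 = false →
          (G.Adj y x' ↔ code.testBit 17 = true) → (G.Adj z x' ↔ code.testBit 25 = true) →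
          False := by
        intro code hcode b1 b2 b3 b4 b5 b6
        obtain ⟨c, hc⟩ := chk_sound h code hcode
        exact no4 hF hA hc ix ix' iy iz
          (Ed.non hx'.1 (hind _ (hS hx'.2) _ (hS hx) (h4.trans h1.symm)) b1)
          (Ed.non (iy.ne ix hXY.symm) (fun h => e1 h.symm) b2) ⟨iy.ne ix' hXY.symm, b5⟩
          (Ed.non (iz.ne ix hXZ.symm) (fun h => e3 h.symm) b3) ⟨iz.ne ix' hXZ.symm, b6⟩
          (Ed.non (iz.ne iy hYZ.symm) (fun h => e2 h.symm) b4)
      by_cases e4 : G.Adj y x' <;> by_cases e5 : G.Adj z x'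
      · exact key 33685504 (by simp) rfl rfl rfl rfl (iff_of_true e4 rfl) (iff_of_true e5 rfl)
      · exact key 131072 (by simp) rfl rfl rfl rfl (iff_of_true e4 rfl)
          (iff_of_false e5 (by decide))
      · exact key 33554432 (by simp) rfl rfl rfl rfl (iff_of_false e4 (by decide))
          (iff_of_true e5 rfl)
      · exact key 0 (by simp) rfl rfl rfl rfl (iff_of_false e4 (by decide))
          (iff_of_false e5 (by decide))
    · simp [h4]
    · simp [h4]
  · let c3 : V → Fin 3 := fun v => if cls G A a v = X then 0 else if cls G A a v = Y then 1 else 2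
    have hc : ∀ v ∈ S, (c3 v = 0 ∧ cls G A a v = X) ∨ (c3 v = 1 ∧ cls G A a v = Y) ∨
        (c3 v = 2 ∧ cls G A a v = Z) := by
      intro v hv
      rcases hm v hv with h | h | h
      · simp [c3, h]
      · simp [c3, h, hXY.symm]
      · simp [c3, h, hXZ.symm, hYZ.symm]
    refine wd_tournament hk c3 ?_ ?_ ?_ ?_
    · intro x hx y hy e
      refine hind x (hS hx) y (hS hy) ?_
      rcases hc x hx with h | h | h <;> rcases hc y hy with h' | h' | h' <;>
        first
        | exact h.2.trans h'.2.symm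
        | (exfalso; rw [h.1, h'.1] at e; exact absurd e (by decide))
    · exact fun x hx y hy z hz => no_tri hF hK x (hW' x (hS hx)).1 y (hW' y (hS hy)).1 z
        (hW' z (hS hz)).1
    · intro x hx y hy z hz e0 e1 e2
      by_contra hno
      push Not at hno
      refine hr ⟨x, hx, y, hy, z, hz, ?_, ?_, ?_, hno⟩
      · rcases hc x hx with h | h | h <;>
          first | exact h.2 | (exfalso; rw [h.1] at e0; exact absurd e0 (by decide))
      · rcases hc y hy with h | h | h <;>
          first | exact h.2 | (exfalso; rw [h.1] at e1; exact absurd e1 (by decide))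
      · rcases hc z hz with h | h | h <;>
          first | exact h.2 | (exfalso; rw [h.1] at e2; exact absurd e2 (by decide))
    · intro S' hS' i hi
      have hi' : i = 0 ∨ i = 1 ∨ i = 2 := by omega
      rcases hi' with rfl | rfl | rfl
      · refine p3 S' (hS'.trans hS) fun x hx => ?_
        rcases hc x (hS' hx) with h | h | h
        · exact (hi x hx h.1).elim
        · simp [h.2]
        · simp [h.2]
      · refine p2 S' (hS'.trans hS) fun x hx => ?_
        rcases hc x (hS' hx) with h | h | h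
        · simp [h.2]
        · exact (hi x hx h.1).elim
        · simp [h.2]
      · refine p1 S' (hS'.trans hS) fun x hx => ?_
        rcases hc x (hS' hx) with h | h | h
        · simp [h.2]
        · simp [h.2]
        · exact (hi x hx h.1).elim

open Classical in
/-- Vertices outside the anchor at distance at most two from it. -/
noncomputable def Bset (G : SimpleGraph V) (W : Finset V) (A : SG) (a : ℕ → V) : Finset V :=
  W.filter fun x => Out W A a x ∧
    (cls G A a x ≠ 0 ∨ ∃ w, Out W A a w ∧ cls G A a w ≠ 0 ∧ G.Adj w x)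

theorem mem_Bset {x : V} : x ∈ Bset G W A a ↔ Out W A a x ∧
    (cls G A a x ≠ 0 ∨ ∃ w, Out W A a w ∧ cls G A a w ≠ 0 ∧ G.Adj w x) := by
  classical
  unfold Bset
  rw [mem_filter]
  exact ⟨fun h => h.2, fun h => ⟨h.1.1, h⟩⟩

/-- No path from a nonzero class through two vertices of class zero. -/
def Clos (G : SimpleGraph V) (W : Finset V) (A : SG) (a : ℕ → V) : Prop :=
  ∀ w u u', Out W A a w → cls G A a w ≠ 0 → In G W A a u 0 → In G W A a u' 0 → G.Adj w u →
    G.Adj u u' → False

theorem ind_Bset (hF : Free G W F) (hK : gK3 ∈ F) (hA : Real G W A a) (hcl : Clos G W A a) :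
    Ind G A a (Bset G W A a) := by
  intro x hx y hy h e
  rw [mem_Bset] at hx hy
  by_cases h0 : cls G A a x = 0
  · obtain ⟨w, h1, h2, h3⟩ := hx.2.resolve_left (not_not.2 h0)
    exact hcl w x y h1 h2 ⟨hx.1, h0⟩ ⟨hy.1, h ▸ h0⟩ h3 e
  · exact ind_ne_zero hF hK hA hx.1.1 hy.1.1 h h0 e

omit [Fintype V] in
theorem wd_anchor {S : Finset V} {K : ℕ} (hK : 1 ≤ K)
    (h : Wd G S K) (hS : ∀ x ∈ S, Out W A a x) :
    Wd G ((range A.n).image a ∪ S) (2 ^ A.n * K) := by
  have e : ((range A.n).image a ∪ S) \ (range A.n).image a = S := by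
    rw [union_sdiff_cancel_left]
    rw [disjoint_right]
    intro x hx hx'
    obtain ⟨i, hi, rfl⟩ := mem_image.1 hx'
    exact (hS _ hx).2 i (mem_range.1 hi) rfl
  refine (wd_sdiff hK ((range A.n).image a) (by rwa [e])).mono (Nat.mul_le_mul_right _ ?_)
  exact Nat.pow_le_pow_right (by omega) (card_image_le.trans (card_range _).le)

theorem closure_step (hA : Real G W A a) (hn : 0 < A.n) (hcl : Clos G W A a) {K k : ℕ}
    (hK : 1 ≤ K) (hB : Wd G (Bset G W A a) K) (hk : 2 ^ A.n * K ≤ k)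
    (ih : ∀ W' ⊂ W, Wd G W' k) : Wd G W k := by
  set D := (range A.n).image a ∪ Bset G W A a with hD
  have hDW : D ⊆ W := by
    refine union_subset (fun x hx => ?_) fun x hx => (mem_Bset.1 hx).1.1
    obtain ⟨i, hi, rfl⟩ := mem_image.1 hx
    exact (hA i (mem_range.1 hi)).1
  have h1 : Wd G D k := (wd_anchor hK hB fun x hx => (mem_Bset.1 hx).1).mono hk
  have h2 : Wd G (W \ D) k := ih _ (sdiff_ssubset hDW
    ⟨a 0, mem_union_left _ (mem_image_of_mem _ (mem_range.2 hn))⟩)
  have := wd_union (G := G) (B := D) (C := W \ D)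
    (le_trans (Nat.mul_pos (Nat.two_pow_pos _) hK) hk) disjoint_sdiff ?_ h1 h2
  · rwa [union_sdiff_of_subset hDW] at this
  intro x hx y hy e
  rw [mem_sdiff, hD, mem_union, not_or] at hy
  have hyo : Out W A a y :=
    ⟨hy.1, fun i hi h => hy.2.1 (h ▸ mem_image_of_mem _ (mem_range.2 hi))⟩
  have hy' := hy.2.2
  rw [mem_Bset] at hy'
  push Not at hy'
  obtain ⟨hy0, hy1⟩ := hy' hyo
  rcases mem_union.1 hx with hx | hx
  · obtain ⟨i, hi, rfl⟩ := mem_image.1 hx
    exact not_adj_zero hy0 (mem_range.1 hi) e.symm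
  · rw [mem_Bset] at hx
    by_cases h0 : cls G A a x = 0
    · obtain ⟨w, h1, h2, h3⟩ := hx.2.resolve_left (not_not.2 h0)
      exact hcl w x y h1 h2 ⟨hx.1, h0⟩ ⟨hyo, hy0⟩ h3 e
    · exact hy1 x hx.1 h0 e

end Pool.Agent.Lib.MP_042ec1_co
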