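import Mathlib
import Pool.Agent.Lib.MP_042ec1_co.Width

/-!
Twins, splitting into two parts, and a three-partite structure.
-/

namespace Pool.Agent.Lib.MP_042ec1_co

open Finset

variable {V : Type} [DecidableEq V] {G : SimpleGraph V} {W S : Finset V} {k : ℕ}

theorem Dec.twin {a b : V} (hk : 1 ≤ k) (hb : b ∉ W) (ha : a ∈ W)
    (ht : ∀ z ∈ W, G.Adj z a ↔ G.Adj z b) (h : Dec G W k S) (hS : S ⊆ W) :
    Dec G (insert b W) k (if a ∈ S then insert b S else S) := by
  induction h with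
  | empty => simpa using Dec.empty
  | single x =>
    split_ifs with h
    · rw [mem_singleton] at h
      subst h
      refine Dec.union {b} {a} (by simpa using fun e : b = a => hb (e ▸ ha)) (.single b) (.single a)
        ⟨Unit, inferInstance, fun _ => (), by simpa using hk, ?_⟩
      intro x hx y hy _ z hz hz'
      simp only [mem_union, mem_singleton, not_or] at hx hy hz'
      have hzW : z ∈ W := (mem_insert.1 hz).resolve_left hz'.1
      have := ht z hzW
      rw [G.adj_comm z, G.adj_comm z] at this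
      rcases hx with rfl | rfl <;> rcases hy with rfl | rfl <;> tauto
    · exact .single x
  | union S T hd _ _ hty ihS ihT =>
    have hSW : S ⊆ W := subset_union_left.trans hS
    have hTW : T ⊆ W := subset_union_right.trans hS
    have hbS : b ∉ S := fun h => hb (hSW h)
    have hbT : b ∉ T := fun h => hb (hTW h)
    have i1 := ihS hSW
    have i2 := ihT hTW
    obtain ⟨P, _, c, hP, hc⟩ := hty
    by_cases hU : a ∈ S ∪ T
    · have hty' : Types G (insert b W) (insert b (S ∪ T)) k := by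
        refine ⟨P, inferInstance, fun x => if x = b then c a else c x, hP, ?_⟩
        have key : ∀ x ∈ insert b (S ∪ T), ∃ x' ∈ S ∪ T, (if x = b then c a else c x) = c x' ∧
            ∀ z ∈ W, (G.Adj x z ↔ G.Adj x' z) := by
          intro x hx
          by_cases e : x = b
          · refine ⟨a, hU, if_pos e, fun z hz => ?_⟩
            rw [e, G.adj_comm b, G.adj_comm a, ht z hz]
          · exact ⟨x, (mem_insert.1 hx).resolve_left e, if_neg e, fun _ _ => Iff.rfl⟩
        intro x hx y hy hxy z hz hz'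
        rw [mem_insert, not_or] at hz'
        have hzW : z ∈ W := (mem_insert.1 hz).resolve_left hz'.1
        obtain ⟨x', hx', e1, h1⟩ := key x hx
        obtain ⟨y', hy', e2, h2⟩ := key y hy
        rw [h1 z hzW, h2 z hzW]
        exact hc x' hx' y' hy' (e1.symm.trans (hxy.trans e2)) z hzW hz'.2
      rw [if_pos hU]
      rcases mem_union.1 hU with h | h
      · rw [if_pos h] at i1
        rw [if_neg (disjoint_left.1 hd h)] at i2
        rw [← insert_union] at hty' ⊢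
        exact .union _ _ (disjoint_insert_left.2 ⟨hbT, hd⟩) i1 i2 hty'
      · rw [if_pos h] at i2
        rw [if_neg (disjoint_right.1 hd h)] at i1
        rw [← union_insert] at hty' ⊢
        exact .union _ _ (disjoint_insert_right.2 ⟨hbS, hd⟩) i1 i2 hty'
    · rw [if_neg hU]
      rw [if_neg fun h => hU (mem_union_left _ h)] at i1
      rw [if_neg fun h => hU (mem_union_right _ h)] at i2
      refine .union _ _ hd i1 i2 ⟨P, inferInstance, c, hP, fun x hx y hy hxy z hz hz' => ?_⟩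
      rcases mem_insert.1 hz with rfl | hzW
      · rw [← ht x (hS hx), ← ht y (hS hy)]
        exact hc x hx y hy hxy a ha hU
      · exact hc x hx y hy hxy z hzW hz'

theorem wd_twin_deg (h : ∀ v ∈ W, ∃ u₁ u₂ : V, ∀ a ∈ W, G.Adj v a →
    (∀ z ∈ W, G.Adj z a ↔ G.Adj z u₁) ∨ (∀ z ∈ W, G.Adj z a ↔ G.Adj z u₂)) : Wd G W 3 := by
  induction W using Finset.strongInduction with
  | H W ih =>
  by_cases ht : ∃ a ∈ W, ∃ b ∈ W, a ≠ b ∧ ∀ z ∈ W, G.Adj z a ↔ G.Adj z b
  · obtain ⟨a, ha, b, hb, hab, ht⟩ := ht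
    have h1 := ih (W.erase b) (erase_ssubset hb) fun v hv => by
      obtain ⟨u₁, u₂, hu⟩ := h v (mem_of_mem_erase hv)
      exact ⟨u₁, u₂, fun x hx e => (hu x (mem_of_mem_erase hx) e).imp
        (fun h z hz => h z (mem_of_mem_erase hz)) fun h z hz => h z (mem_of_mem_erase hz)⟩
    have ha' : a ∈ W.erase b := mem_erase.2 ⟨hab, ha⟩
    have := Dec.twin (by omega) (notMem_erase b W) ha' (fun z hz => ht z (mem_of_mem_erase hz)) h1
      Subset.rfl
    rwa [if_pos ha', insert_erase hb] at this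
  · push Not at ht
    refine wd_deg_two fun v hv a ha b hb c hc e1 e2 e3 => ?_
    obtain ⟨u₁, u₂, hu⟩ := h v hv
    have key : ∀ x ∈ W, ∀ y ∈ W, ∀ u, (∀ z ∈ W, G.Adj z x ↔ G.Adj z u) →
        (∀ z ∈ W, G.Adj z y ↔ G.Adj z u) → x = y := by
      intro x hx y hy u h1 h2
      by_contra hne
      obtain ⟨z, hz, h3⟩ := ht x hx y hy hne
      have := h1 z hz
      have := h2 z hz
      tauto
    rcases hu a ha e1 with h1 | h1 <;> rcases hu b hb e2 with h2 | h2 <;>
      rcases hu c hc e3 with h3 | h3 <;>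
      first
      | exact Or.inl (key a ha b hb _ h1 h2)
      | exact Or.inr (Or.inl (key a ha c hc _ h1 h3))
      | exact Or.inr (Or.inr (key b hb c hc _ h2 h3))

theorem wd_split {P : Type} [Fintype P] [Nonempty P] (hk : 1 ≤ k) {L : Finset V} (hL : L ⊆ W)
    (c : V → P) (f : P → P → Prop) (h : ∀ l ∈ L, ∀ z ∈ W, z ∉ L → (G.Adj l z ↔ f (c l) (c z)))
    (h1 : Wd G L k) (h2 : Wd G (W \ L) k) : Wd G W (k * Fintype.card P) := by
  have := Dec.union (G := G) (W := W) (k := k * Fintype.card P) L (W \ L) disjoint_sdiff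
    (Dec.transfer h1 c (fun _ _ _ _ _ _ _ _ h => h) fun x hx y hy e z hz hz' => by
      rw [h x hx z hz hz', h y hy z hz hz', e])
    (Dec.transfer h2 c (fun _ _ _ _ _ _ _ _ h => h) fun x hx y hy e z hz hz' => by
      have hzL : z ∈ L := by
        by_contra hc
        exact hz' (mem_sdiff.2 ⟨hz, hc⟩)
      rw [mem_sdiff] at hx hy
      rw [G.adj_comm x, G.adj_comm y, h z hzL x hx.1 hx.2, h z hzL y hy.1 hy.2, e])
    (by rw [union_sdiff_of_subset hL]; exact types_self (Nat.mul_pos hk Fintype.card_pos))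
  rwa [union_sdiff_of_subset hL] at this

/-- Every properly two-coloured subset of `W` has width at most `k`. -/
def BipOK (G : SimpleGraph V) (W : Finset V) (k : ℕ) : Prop :=
  ∀ S ⊆ W, ∀ s : V → Bool, (∀ x ∈ S, ∀ y ∈ S, G.Adj x y → s x ≠ s y) → Wd G S k

theorem BipOK.mono {W' : Finset V} (h : BipOK G W k) (hW : W' ⊆ W) : BipOK G W' k :=
  fun S hS => h S (hS.trans hW)

theorem wd_uab [Fintype V] (hk : 1 ≤ k) (c : V → Fin 3)
    (hind : ∀ x ∈ W, ∀ y ∈ W, c x = c y → ¬ G.Adj x y)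
    (hK : ∀ x ∈ W, ∀ y ∈ W, ∀ z ∈ W, G.Adj x y → G.Adj y z → G.Adj x z → False)
    (h1 : ∀ u ∈ W, ∀ a ∈ W, ∀ b ∈ W, c u = 0 → c a = 1 → c b = 2 → G.Adj u a →
      G.Adj u b ∨ G.Adj a b)
    (h2 : ∀ u ∈ W, ∀ a ∈ W, ∀ b ∈ W, c u = 0 → c a = 1 → c b = 2 → G.Adj u b →
      G.Adj u a ∨ G.Adj a b)
    (hB : BipOK G W k) : Wd G W (k * 3) := by
  classical
  let sp : V → Prop := fun u => u ∈ W ∧ c u = 0 ∧ (∃ a ∈ W, c a = 1 ∧ G.Adj u a) ∧
    ∃ b ∈ W, c b = 2 ∧ G.Adj u b
  let nb : V → Finset V := fun u => W.filter (G.Adj u)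
  have hnb : ∀ u x, x ∈ nb u ↔ x ∈ W ∧ G.Adj u x := fun u x => mem_filter
  have e1 : ∀ u ∈ W, ∀ a ∈ W, ∀ b ∈ W, c u = 0 → c a = 1 → c b = 2 → G.Adj u a →
      (G.Adj u b ↔ ¬ G.Adj a b) := fun u hu a ha b hb cu ca cb e =>
    ⟨fun h h' => hK u hu a ha b hb e h' h, fun h => (h1 u hu a ha b hb cu ca cb e).resolve_right h⟩
  have e2 : ∀ u ∈ W, ∀ a ∈ W, ∀ b ∈ W, c u = 0 → c a = 1 → c b = 2 → G.Adj u b →
      (G.Adj u a ↔ ¬ G.Adj a b) := fun u hu a ha b hb cu ca cb e =>
    ⟨fun h h' => hK u hu a ha b hb h h' e, fun h => (h2 u hu a ha b hb cu ca cb e).resolve_right h⟩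
  have h3 : ∀ x, c x = 0 ∨ c x = 1 ∨ c x = 2 := fun x => by omega
  have hsame : ∀ u u', sp u → sp u' → ∀ x ∈ W, G.Adj u x → G.Adj u' x → nb u = nb u' := by
    have hA : ∀ u u', sp u → sp u' → ∀ a ∈ W, c a = 1 → G.Adj u a → G.Adj u' a →
        ∀ b ∈ W, c b = 2 → (G.Adj u b ↔ G.Adj u' b) := fun u u' h h' a ha ca e e' b hb cb => by
      rw [e1 u h.1 a ha b hb h.2.1 ca cb e, e1 u' h'.1 a ha b hb h'.2.1 ca cb e']
    have hB' : ∀ u u', sp u → sp u' → ∀ b ∈ W, c b = 2 → G.Adj u b → G.Adj u' b →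
        ∀ a ∈ W, c a = 1 → (G.Adj u a ↔ G.Adj u' a) := fun u u' h h' b hb cb e e' a ha ca => by
      rw [e2 u h.1 a ha b hb h.2.1 ca cb e, e2 u' h'.1 a ha b hb h'.2.1 ca cb e']
    intro u u' h h' x hx e e'
    have : (∀ a ∈ W, c a = 1 → (G.Adj u a ↔ G.Adj u' a)) ∧
        ∀ b ∈ W, c b = 2 → (G.Adj u b ↔ G.Adj u' b) := by
      rcases h3 x with cx | cx | cx
      · exact (hind u h.1 x hx (h.2.1.trans cx.symm) e).elim
      · have t := hA u u' h h' x hx cx e e'
        obtain ⟨b, hb, cb, eb⟩ := h.2.2.2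
        exact ⟨hB' u u' h h' b hb cb eb ((t b hb cb).1 eb), t⟩
      · have t := hB' u u' h h' x hx cx e e'
        obtain ⟨a, ha, ca, ea⟩ := h.2.2.1
        exact ⟨t, hA u u' h h' a ha ca ea ((t a ha ca).1 ea)⟩
    ext y
    rw [hnb, hnb]
    refine and_congr_right fun hy => ?_
    rcases h3 y with cy | cy | cy
    · exact iff_of_false (hind u h.1 y hy (h.2.1.trans cy.symm))
        (hind u' h'.1 y hy (h'.2.1.trans cy.symm))
    · exact this.1 y hy cy
    · exact this.2 y hy cy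
  let g : V → Option (Finset V) := fun x =>
    if sp x then some (nb x) else if h : ∃ u, sp u ∧ G.Adj u x then some (nb h.choose) else none
  have g1 : ∀ u, sp u → g u = some (nb u) := fun u h => if_pos h
  have g2 : ∀ u, sp u → ∀ x ∈ W, G.Adj u x → g x = some (nb u) := by
    intro u h x hx e
    have hx' : ¬ sp x := fun h' => hind u h.1 x hx (h.2.1.trans h'.2.1.symm) e
    have hex : ∃ u, sp u ∧ G.Adj u x := ⟨u, h, e⟩
    simp only [g, if_neg hx', dif_pos hex]
    rw [hsame _ u hex.choose_spec.1 h x hx hex.choose_spec.2 e]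
  have g3 : ∀ x, ¬ sp x → (¬ ∃ u, sp u ∧ G.Adj u x) → g x = none := fun x h h' => by
    simp only [g, if_neg h, dif_neg h']
  have hU : ∀ u ∈ W, ∀ x ∈ W, c u = 0 → G.Adj u x → g u = g x := by
    intro u hu x hx cu e
    by_cases h : sp u
    · rw [g1 u h, g2 u h x hx e]
    have cx : c x ≠ 0 := fun h' => hind u hu x hx (cu.trans h'.symm) e
    rw [g3 u h fun ⟨u', h', e'⟩ => hind u' h'.1 u hu (h'.2.1.trans cu.symm) e',
      g3 x (fun h' => cx h'.2.1)]
    rintro ⟨u', h', e'⟩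
    rcases h3 x with cx' | cx' | cx'
    · exact cx cx'
    · obtain ⟨b, hb, cb, eb⟩ := h'.2.2.2
      exact h ⟨hu, cu, ⟨x, hx, cx', e⟩, b, hb, cb, (e1 u hu x hx b hb cu cx' cb e).2
        ((e1 u' h'.1 x hx b hb h'.2.1 cx' cb e').1 eb)⟩
    · obtain ⟨a, ha, ca, ea⟩ := h'.2.2.1
      exact h ⟨hu, cu, ⟨a, ha, ca, (e2 u hu a ha x hx cu ca cx' e).2
        ((e2 u' h'.1 a ha x hx h'.2.1 ca cx' e').1 ea)⟩, x, hx, cx', e⟩
  have hAB : ∀ a ∈ W, ∀ b ∈ W, c a = 1 → c b = 2 → ¬ G.Adj a b → g a = g b := by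
    intro a ha b hb ca cb e
    by_cases h : ∃ u, sp u ∧ G.Adj u a
    · obtain ⟨u, h, e'⟩ := h
      rw [g2 u h a ha e', g2 u h b hb ((e1 u h.1 a ha b hb h.2.1 ca cb e').2 e)]
    · rw [g3 a (fun h' => by have := h'.2.1; omega) h, g3 b fun h' => by have := h'.2.1; omega]
      rintro ⟨u, h', e'⟩
      exact h ⟨u, h', (e2 u h'.1 a ha b hb h'.2.1 ca cb e').2 e⟩
  have hcross : ∀ x ∈ W, ∀ z ∈ W, g x ≠ g z →
      (G.Adj x z ↔ (c x = 1 ∧ c z = 2) ∨ (c x = 2 ∧ c z = 1)) := by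
    intro x hx z hz hg
    constructor
    · intro e
      have := hind x hx z hz
      have t1 : c x ≠ 0 := fun h => hg (hU x hx z hz h e)
      have t2 : c z ≠ 0 := fun h => hg (hU z hz x hx h e.symm).symm
      have t3 : c x ≠ c z := fun h => this h e
      omega
    · rintro (⟨h, h'⟩ | ⟨h, h'⟩)
      · by_contra e
        exact hg (hAB x hx z hz h h' e)
      · by_contra e
        exact hg (hAB z hz x hx h' h fun e' => e e'.symm).symm
  have := wd_group (G := G) (W := W) hk c g (fun x hx y hy z hz e h h' => by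
    rw [hcross x hx z hz h, hcross y hy z hz h', e]) ?_
  · simpa using this
  rintro (_ | N)
  · refine hB _ (filter_subset _ _)
      (fun x => decide (c x = 1 ∨ (c x = 0 ∧ ¬ ∃ a ∈ W, c a = 1 ∧ G.Adj x a))) ?_
    have key : ∀ x ∈ W, ∀ y ∈ W, g x = none → G.Adj x y → c x = 0 →
        ¬ ((c x = 1 ∨ (c x = 0 ∧ ¬ ∃ a ∈ W, c a = 1 ∧ G.Adj x a)) ↔
          (c y = 1 ∨ (c y = 0 ∧ ¬ ∃ a ∈ W, c a = 1 ∧ G.Adj y a))) := by
      intro x hx y hy hg e cx
      have hsp : ¬ sp x := fun h => by simp [g1 x h] at hg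
      rcases h3 y with cy | cy | cy
      · exact (hind x hx y hy (cx.trans cy.symm) e).elim
      · have : ∃ a ∈ W, c a = 1 ∧ G.Adj x a := ⟨y, hy, cy, e⟩
        simp [cx, cy, this]
      · have : ¬ ∃ a ∈ W, c a = 1 ∧ G.Adj x a := fun h => hsp ⟨hx, cx, h, y, hy, cy, e⟩
        simp only [cx, cy, this]
        simp
    intro x hx y hy e
    rw [mem_filter] at hx hy
    rw [ne_eq, decide_eq_decide]
    by_cases cx : c x = 0
    · exact key x hx.1 y hy.1 hx.2 e cx
    by_cases cy : c y = 0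
    · exact fun h => key y hy.1 x hx.1 hy.2 e.symm cy h.symm
    have : c x ≠ c y := fun h => hind x hx.1 y hy.1 h e
    simp only [cx, cy, false_and, or_false]
    omega
  · refine hB _ (filter_subset _ _) (fun x => decide (c x = 0)) ?_
    have hm : ∀ x ∈ W, g x = some N → c x ≠ 0 → ∃ u, sp u ∧ G.Adj u x ∧ nb u = N := by
      intro x hx hg cx
      by_cases h : ∃ u, sp u ∧ G.Adj u x
      · obtain ⟨u, h, e⟩ := h
        exact ⟨u, h, e, Option.some.inj ((g2 u h x hx e).symm.trans hg)⟩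
      · simp [g3 x (fun h' => cx h'.2.1) h] at hg
    intro x hx y hy e
    rw [mem_filter] at hx hy
    rw [ne_eq, decide_eq_decide]
    intro h
    by_cases cx : c x = 0
    · exact hind x hx.1 y hy.1 (cx.trans (h.1 cx).symm) e
    · obtain ⟨u, h1, h2, h3⟩ := hm x hx.1 hx.2 cx
      obtain ⟨u', h1', h2', h3'⟩ := hm y hy.1 hy.2 fun cy => cx (h.2 cy)
      have : y ∈ nb u := by
        rw [h3, ← h3', hnb]
        exact ⟨hy.1, h2'⟩
      exact hK u h1.1 x hx.1 y hy.1 h2 e ((hnb _ _).1 this).2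

end Pool.Agent.Lib.MP_042ec1_co
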