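import Mathlib
import Pool.Agent.Lib.MP_042ec1_co.Struct
import Pool.Agent.Lib.MP_042ec1_co.Twin
import Pool.Agent.Lib.MP_042ec1_co.Graphs2

/-!
Further structural consequences of certificates.
-/

namespace Pool.Agent.Lib.MP_042ec1_co

open Finset

variable {V : Type} {G : SimpleGraph V} {W : Finset V} {F : List SG} {A : SG} {a : ℕ → V}

theorem no2 (hF : Free G W F) (hA : Real G W A a) {X0 X1 code c : ℕ}
    (h : certOK F (cfgL A [X0, X1] code) c = true) {v0 v1 : V}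
    (h0 : In G W A a v0 X0) (h1 : In G W A a v1 X1)
    (e10 : Ed G v1 v0 (code.testBit 8)) : False := by
  refine no_cfgL hF hA h (fun e => [v0, v1].getD e v0) fun e he => ?_
  simp only [List.length_cons, List.length_nil] at he
  interval_cases e <;> refine ⟨by assumption, fun e' he' => ?_⟩ <;> interval_cases e' <;> assumption

/-- Excluded configurations with two further vertices. -/
def ok2 (F : List SG) (A : SG) (code : ℕ) (L : List (ℕ × ℕ)) (c : ℕ) : Bool :=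
  chk (fun t c => certOK F (cfgL A [t.1, t.2] code) c) L c

/-- Excluded configurations with three further vertices. -/
def ok3 (F : List SG) (A : SG) (code : ℕ) (L : List (ℕ × ℕ × ℕ)) (c : ℕ) : Bool :=
  chk (fun t c => certOK F (cfgL A [t.1, t.2.1, t.2.2] code) c) L c

/-- Increasing pairs from a list. -/
def prs (γ : List ℕ) : List (ℕ × ℕ) := (γ ×ˢ γ).filter fun t => Nat.blt t.1 t.2

theorem ok2_no (hF : Free G W F) (hA : Real G W A a) {code c : ℕ} {L : List (ℕ × ℕ)}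
    (h : ok2 F A code L c = true) {x y : V} (hx : Out W A a x) (hy : Out W A a y)
    (hL : (cls G A a x, cls G A a y) ∈ L) (e : Ed G y x (code.testBit 8)) : False := by
  obtain ⟨c, hc⟩ := chk_sound h _ hL
  exact no2 hF hA hc ⟨hx, rfl⟩ ⟨hy, rfl⟩ e

theorem ok3_no (hF : Free G W F) (hA : Real G W A a) {code c : ℕ} {L : List (ℕ × ℕ × ℕ)}
    (h : ok3 F A code L c = true) {x y z : V} (hx : Out W A a x) (hy : Out W A a y)
    (hz : Out W A a z) (hL : (cls G A a x, cls G A a y, cls G A a z) ∈ L)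
    (e1 : Ed G y x (code.testBit 8)) (e2 : Ed G z x (code.testBit 16))
    (e3 : Ed G z y (code.testBit 17)) : False := by
  obtain ⟨c, hc⟩ := chk_sound h _ hL
  exact no3 hF hA hc ⟨hx, rfl⟩ ⟨hy, rfl⟩ ⟨hz, rfl⟩ e1 e2 e3

theorem ok2_non (hF : Free G W F) (hA : Real G W A a) {c : ℕ} {L : List (ℕ × ℕ)}
    (h : ok2 F A 256 L c = true) {x y : V} (hx : Out W A a x) (hy : Out W A a y)
    (hL : (cls G A a x, cls G A a y) ∈ L) : ¬ G.Adj x y :=
  fun e => ok2_no hF hA h hx hy hL (Ed.adj e.symm rfl)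

theorem ne_of_cls {x y : V} (h : cls G A a x ≠ cls G A a y) : x ≠ y := fun e => h (e ▸ rfl)

theorem ok2_adj (hF : Free G W F) (hA : Real G W A a) {c : ℕ} {L : List (ℕ × ℕ)}
    (h : ok2 F A 0 L c = true) {x y : V} (hx : Out W A a x) (hy : Out W A a y)
    (hL : (cls G A a x, cls G A a y) ∈ L) (hne : x ≠ y) : G.Adj x y := by
  by_contra e
  exact ok2_no hF hA h hx hy hL (Ed.non hne.symm (fun h => e h.symm) rfl)

theorem ok3_adj (hF : Free G W F) (hA : Real G W A a) {c : ℕ} {L : List (ℕ × ℕ × ℕ)}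
    (h : ok3 F A 0 L c = true) {x y z : V} (hx : Out W A a x) (hy : Out W A a y)
    (hz : Out W A a z) (hL : (cls G A a x, cls G A a y, cls G A a z) ∈ L) (n1 : x ≠ y)
    (n2 : y ≠ z) (n3 : x ≠ z) : G.Adj x y ∨ G.Adj y z ∨ G.Adj x z := by
  by_contra e
  push Not at e
  exact ok3_no hF hA h hx hy hz hL (Ed.non n1.symm (fun h => e.1 h.symm) rfl)
    (Ed.non n3.symm (fun h => e.2.2 h.symm) rfl) (Ed.non n2.symm (fun h => e.2.1 h.symm) rfl)

theorem share (hF : Free G W F) (hK : gK3 ∈ F) (hA : Real G W A a) {x y : V} (hx : x ∈ W)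
    (hy : y ∈ W) {i : ℕ} (hi : i < A.n) (h1 : (cls G A a x).testBit i = true)
    (h2 : (cls G A a y).testBit i = true) : ¬ G.Adj x y := fun e =>
  no_tri hF hK x hx y hy (a i) (hA i hi).1 e ((testBit_cls hi).1 h2) ((testBit_cls hi).1 h1)

theorem side_non (hF : Free G W F) (hA : Real G W A a) {W' : Finset V}
    (hW' : ∀ v ∈ W', Out W A a v) (hind : Ind G A a W') {c : ℕ} {L : List (ℕ × ℕ)}
    (h : ok2 F A 256 L c = true) {γ : List ℕ} (hγ : ∀ t ∈ prs γ, t ∈ L) {x y : V} (hx : x ∈ W')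
    (hy : y ∈ W') (h1 : cls G A a x ∈ γ) (h2 : cls G A a y ∈ γ) : ¬ G.Adj x y := by
  have key : ∀ {x y : V}, x ∈ W' → y ∈ W' → cls G A a x ∈ γ → cls G A a y ∈ γ →
      cls G A a x < cls G A a y → ¬ G.Adj x y := fun hx hy h1 h2 hlt =>
    ok2_non hF hA h (hW' _ hx) (hW' _ hy)
      (hγ _ (List.mem_filter.2 ⟨List.pair_mem_product.2 ⟨h1, h2⟩, blt_true hlt⟩))
  rcases lt_trichotomy (cls G A a x) (cls G A a y) with h3 | h3 | h3
  · exact key hx hy h1 h2 h3
  · exact hind x hx y hy h3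
  · exact fun e => key hy hx h2 h1 h3 e.symm

variable [DecidableEq V]

theorem list_pair {W' : Finset V} {k : ℕ} (hB : BipOK G W' k) (hind : Ind G A a W') (X Y : ℕ) :
    ListOK G A a W' [X, Y] k := by
  intro S hS hm
  refine hB S hS (fun v => decide (cls G A a v = X)) fun x hx y hy e h => ?_
  have h1 := hm x hx
  have h2 := hm y hy
  simp only [List.mem_cons, List.not_mem_nil, or_false] at h1 h2
  rw [decide_eq_decide] at h
  refine hind x (hS hx) y (hS hy) ?_ e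
  omega

theorem list_bip (hF : Free G W F) (hA : Real G W A a) {W' : Finset V}
    (hW' : ∀ v ∈ W', Out W A a v) (hind : Ind G A a W') {k : ℕ} (hB : BipOK G W' k) {c : ℕ}
    {γ₁ γ₂ γ : List ℕ} (h : ok2 F A 256 (prs γ₁ ++ prs γ₂) c = true)
    (hγ : ∀ t ∈ γ, t ∈ γ₁ ∨ t ∈ γ₂) : ListOK G A a W' γ k := by
  intro S hS hm
  refine hB S hS (fun v => decide (cls G A a v ∈ γ₁)) fun x hx y hy e h' => ?_
  rw [decide_eq_decide] at h'
  by_cases h1 : cls G A a x ∈ γ₁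
  · exact side_non hF hA hW' hind h (fun _ ht => List.mem_append_left _ ht) (hS hx) (hS hy) h1
      (h'.1 h1) e
  · exact side_non hF hA hW' hind h (fun _ ht => List.mem_append_right _ ht) (hS hx) (hS hy)
      ((hγ _ (hm x hx)).resolve_left h1) ((hγ _ (hm y hy)).resolve_left fun h2 => h1 (h'.2 h2)) e

variable [Fintype V]

theorem list_uab (hF : Free G W F) (hK : gK3 ∈ F) (hA : Real G W A a) {W' : Finset V}
    (hW' : ∀ v ∈ W', Out W A a v) (hind : Ind G A a W') {k : ℕ} (hk : 1 ≤ k)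
    (hB : BipOK G W' k) {c₁ c₂ c₃ : ℕ} {γ₁ γ₂ γ : List ℕ}
    (h : ok2 F A 256 (prs γ₁ ++ prs γ₂) c₁ = true)
    (h₂ : ok3 F A 256 ([0] ×ˢ γ₁ ×ˢ γ₂) c₂ = true)
    (h₃ : ok3 F A 65536 ([0] ×ˢ γ₁ ×ˢ γ₂) c₃ = true)
    (hγ : ∀ t ∈ γ, t = 0 ∨ t ∈ γ₁ ∨ t ∈ γ₂) : ListOK G A a W' γ (k * 3) := by
  intro S hS hm
  let c3 : V → Fin 3 := fun v => if cls G A a v = 0 then 0 else if cls G A a v ∈ γ₁ then 1 else 2
  have hc : ∀ v ∈ S, (c3 v = 0 → cls G A a v = 0) ∧ (c3 v = 1 → cls G A a v ∈ γ₁) ∧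
      (c3 v = 2 → cls G A a v ∈ γ₂) := by
    intro v hv
    have := hγ _ (hm v hv)
    simp only [c3]
    split_ifs <;> simp_all
  have hne : ∀ {u v : V} {i j : Fin 3}, c3 u = i → c3 v = j → i ≠ j → u ≠ v := by
    rintro u v _ _ rfl rfl h rfl
    exact h rfl
  have hL : ∀ u ∈ S, ∀ x ∈ S, ∀ y ∈ S, c3 u = 0 → c3 x = 1 → c3 y = 2 →
      (cls G A a u, cls G A a x, cls G A a y) ∈ [0] ×ˢ γ₁ ×ˢ γ₂ := fun u hu x hx y hy e0 e1 e2 =>
    List.pair_mem_product.2 ⟨by simp [(hc u hu).1 e0],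
      List.pair_mem_product.2 ⟨(hc x hx).2.1 e1, (hc y hy).2.2 e2⟩⟩
  refine wd_uab hk c3 (fun x hx y hy e => ?_)
    (fun x hx y hy z hz => no_tri hF hK x (hW' x (hS hx)).1 y (hW' y (hS hy)).1 z
      (hW' z (hS hz)).1) (fun u hu x hx y hy e0 e1 e2 e => ?_)
    (fun u hu x hx y hy e0 e1 e2 e => ?_) (hB.mono hS)
  · have h3 : c3 x = 0 ∨ c3 x = 1 ∨ c3 x = 2 := by omega
    rcases h3 with h3 | h3 | h3
    · exact hind x (hS hx) y (hS hy) (((hc x hx).1 h3).trans ((hc y hy).1 (e ▸ h3)).symm)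
    · exact side_non hF hA hW' hind h (fun _ ht => List.mem_append_left _ ht) (hS hx) (hS hy)
        ((hc x hx).2.1 h3) ((hc y hy).2.1 (e ▸ h3))
    · exact side_non hF hA hW' hind h (fun _ ht => List.mem_append_right _ ht) (hS hx) (hS hy)
        ((hc x hx).2.2 h3) ((hc y hy).2.2 (e ▸ h3))
  · by_contra hn
    push Not at hn
    exact ok3_no hF hA h₂ (hW' u (hS hu)) (hW' x (hS hx)) (hW' y (hS hy)) (hL u hu x hx y hy e0 e1 e2)
      (Ed.adj e.symm rfl) (Ed.non (hne e2 e0 (by decide)) (fun h => hn.1 h.symm) rfl)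
      (Ed.non (hne e2 e1 (by decide)) (fun h => hn.2 h.symm) rfl)
  · by_contra hn
    push Not at hn
    exact ok3_no hF hA h₃ (hW' u (hS hu)) (hW' x (hS hx)) (hW' y (hS hy)) (hL u hu x hx y hy e0 e1 e2)
      (Ed.non (hne e1 e0 (by decide)) (fun h => hn.1 h.symm) rfl) (Ed.adj e.symm rfl)
      (Ed.non (hne e2 e1 (by decide)) (fun h => hn.2 h.symm) rfl)

end Pool.Agent.Lib.MP_042ec1_co
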